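import Pool.Agent.W492.PC.Kun

/-!
# The criterion in terms of Chow motives
-/

set_option linter.unusedSectionVars false
set_option linter.style.haveILetI false

open CategoryTheory Limits MonoidalCategory Triangulated Pretriangulated ZeroObject

namespace Pool.Agent.W492.PC

open Pool.Agent.W492.MT (tpow ins symm tr IsSum)

open Pool.Agent.W492.TS

universe v u v' u' w

variable {T : Type u} [Category.{v} T] [HasZeroObject T] [HasShift T ℤ] [Preadditive T]
  [∀ n : ℤ, (shiftFunctor T n).Additive] [Pretriangulated T] [IsTriangulated T]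
  [IsIdempotentComplete T]
  [MonoidalCategory T] [SymmetricCategory T] [RightRigidCategory T]
  [∀ X : T, (tensorLeft X).CommShift ℤ] [∀ X : T, (tensorLeft X).IsTriangulated]
  [MonoidalPreadditive T]
  {I : Type w} {D : I → Type u'} [∀ i, Category.{v'} (D i)] [∀ i, HasZeroObject (D i)]
  [∀ i, HasShift (D i) ℤ] [∀ i, Preadditive (D i)]
  [∀ i, ∀ n : ℤ, (shiftFunctor (D i) n).Additive] [∀ i, Pretriangulated (D i)]
  [∀ i, IsTriangulated (D i)] [∀ i, MonoidalCategory (D i)] [∀ i, MonoidalPreadditive (D i)]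
  (R : ∀ i, T ⥤ D i) [∀ i, (R i).CommShift ℤ] [∀ i, (R i).IsTriangulated]
  [∀ i, (R i).Monoidal] (s : ∀ i, TStructure (D i))

/-- The question : there is a non-degenerate t-structure on `T`, compatible with the tensor
product, for which all the realisations `R i` are t-exact. -/
def HasMotivicTStructure : Prop :=
  ∃ t : TStructure T, NonDegenerate t ∧ TensorExact t ∧ ∀ i, TExact t (s i) (R i)

/-- Every Chow motive is a direct summand of one with the hard Lefschetz property. -/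
def LefschetzSystem (𝒞 : ObjectProperty T) : Prop :=
  ∀ X, 𝒞 X → ∃ V c, 𝒞 V ∧ HardLefschetz R s c V ∧ Nonempty (Retract X V)

variable {R s} {𝒞 : ObjectProperty T}

theorem Motivic.kunneth_of_spl (hC : ChowSystem R s 𝒞) (hb : ∀ i, Bounded (s i))
    {t : TStructure T} (ht : Motivic R s t) (i₀ : I)
    (hi : ∀ X : T, IsZero ((R i₀).obj X) → IsZero X) (hspl : ∀ X, 𝒞 X → Spl t X) :
    Kunneth R s 𝒞 := by
  intro X hX
  obtain ⟨⟨b, hb'⟩, ⟨a, ha⟩⟩ := hb i₀ ((R i₀).obj X)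
  have h1 : t.IsGE X a := ⟨(ht.ge_iff i₀ hi a X).2 ha⟩
  have h2 : t.IsLE X b := ⟨(ht.le_iff i₀ hi b X).2 hb'⟩
  refine isSum_of_spl hC.retract ht.2.2 (b - a + 1).toNat a hX (hspl X hX) h1 ?_
  exact t.isLE_of_le X b _ (by omega)

theorem kunneth_of_motivic (hC : ChowSystem R s 𝒞) (hL : LefschetzSystem R s 𝒞)
    (hb : ∀ i, Bounded (s i)) (hs : ∀ i, TensorExact (s i)) {t : TStructure T}
    (ht : Motivic R s t) (i₀ : I) (hi : ∀ X : T, IsZero ((R i₀).obj X) → IsZero X) :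
    Kunneth R s 𝒞 := by
  have hcons : (R i₀).ReflectsIsomorphisms := reflects_of_isZero (R i₀) hi
  have hspl : ∀ X, 𝒞 X → Spl t X := by
    intro X hX
    obtain ⟨V, c, hV, hVL, ⟨r⟩⟩ := hL X hX
    refine Spl.retract r ?_
    obtain ⟨⟨b, hb'⟩, ⟨a, ha⟩⟩ := hb i₀ ((R i₀).obj V)
    have h1 : t.IsGE V a := ⟨(ht.ge_iff i₀ hi a V).2 ha⟩
    have h2 : t.IsLE V b := ⟨(ht.le_iff i₀ hi b V).2 hb'⟩
    obtain ⟨k, hk1, hk2⟩ : ∃ k : ℕ, c - k ≤ a ∧ b ≤ c + k :=
      ⟨(c - a).toNat + (b - c).toNat, by omega, by omega⟩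
    exact spl_of_hardLefschetz ht.2.2 i₀ hcons hs c k hVL (t.isGE_of_ge V _ a hk1)
      (t.isLE_of_le V b _ hk2)
  exact Motivic.kunneth_of_spl hC hb ht i₀ hi hspl

variable (R) in
include R in
theorem idem_of_scalar (F : Type*) [Field F] [Linear F T]
    (hone : ∀ e : 𝟙_ T ⟶ 𝟙_ T, ∃ a : F, e = a • 𝟙 _) (i : I) (hD : ¬ IsZero (𝟙_ (D i))) :
    𝟙 (𝟙_ T) ≠ 0 ∧ ∀ e : 𝟙_ T ⟶ 𝟙_ T, e ≫ e = e → e = 0 ∨ e = 𝟙 _ := by
  have hT0 : 𝟙 (𝟙_ T) ≠ 0 := by
    intro h
    apply hD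
    have h1 : IsZero ((R i).obj (𝟙_ T)) := by
      rw [IsZero.iff_id_eq_zero, ← CategoryTheory.Functor.map_id, h, Functor.map_zero]
    exact h1.of_iso (Functor.Monoidal.εIso (R i))
  refine ⟨hT0, fun e he => ?_⟩
  obtain ⟨a, rfl⟩ := hone e
  rw [Linear.smul_comp, Linear.comp_smul, Category.id_comp, smul_smul, ← sub_eq_zero,
    ← sub_smul, smul_eq_zero] at he
  rcases he with he | he
  · have h2 : a * (a - 1) = 0 := by rw [← he]; ring
    rcases mul_eq_zero.1 h2 with h3 | h3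
    · exact Or.inl (by rw [h3, zero_smul])
    · exact Or.inr (by rw [sub_eq_zero.1 h3, one_smul])
  · exact absurd he hT0

/-- morphisms between Chow motives concentrated in one degree have quasi-inverses (those between
different degrees vanish), and there are no morphisms of negative degree. -/
def PureSemisimple (R : ∀ i, T ⥤ D i) (s : ∀ i, TStructure (D i)) (𝒞 : ObjectProperty T) : Prop :=
  ∀ (X Y : T) (d e : ℤ), PureAt R s 𝒞 d X → PureAt R s 𝒞 e Y →
    (∀ f : X⟦d⟧ ⟶ Y⟦e⟧, ∃ h, f ≫ h ≫ f = f) ∧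
      ∀ m : ℤ, m < 0 → ∀ f : X⟦d⟧ ⟶ Y⟦e⟧⟦m⟧, f = 0

/-- Rational and homological equivalence agree (for the realisation `R i`) on the morphisms from a
Chow motive concentrated in one degree, shifted to degree `0`, to the unit. -/
def RatEqHom (R : ∀ i, T ⥤ D i) (s : ∀ i, TStructure (D i)) (𝒞 : ObjectProperty T) (i : I) : Prop :=
  ∀ (X : T) (d : ℤ), PureAt R s 𝒞 d X → ∀ g : X⟦d⟧ ⟶ 𝟙_ T, (R i).map g = 0 → g = 0

theorem hom_zero_of_neg (hC : ChowSystem R s 𝒞) {X : T} (hX : 𝒞 X) {d : ℤ} (hd : d < 0)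
    (g : X⟦d⟧ ⟶ 𝟙_ T) : g = 0 := by
  have h2 : ∀ f : X⟦d⟧ ⟶ (𝟙_ T)⟦(0 : ℤ)⟧⟦(0 : ℤ)⟧, f = 0 :=
    hom_zero_shift _ _ _ (-d) (by ring) (hC.orth _ _ hX hC.unit _ (by omega))
  exact hom_zero_iso (Iso.refl _)
    ((shiftFunctorZero T ℤ).app _ ≪≫ (shiftFunctorZero T ℤ).app _) h2 g

/-- conservativity forces 'homological = numerical'. -/
theorem splitting_of_conservative (F : Type*) [Field F] [CharZero F] [Linear F T]
    (hC : ChowSystem R s 𝒞) (i : I) (hi : (R i).ReflectsIsomorphisms)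
    (hu : SimpleUnit (s i) (𝟙_ (D i))) (hodd : OddFinite R s)
    (h0 : 𝟙 (𝟙_ T) ≠ 0) {X : T} {d : ℤ} (hX : PureAt R s 𝒞 d X) (g : X⟦d⟧ ⟶ 𝟙_ T)
    (hg : (R i).map g ≠ 0) : ∃ x : 𝟙_ T ⟶ X⟦d⟧, x ≫ g ≠ 0 := by
  by_cases hd : 0 ≤ d
  · have h1 : RDeg R s 0 (X⟦d⟧) := hX.2.shift (by ring)
    exact exists_splitting_of_cons (R i) F hi (hu.of_iso (Functor.Monoidal.εIso (R i)))
      (fun W h1 h2 => hodd W i h1 h2) h0 (h1.1 i) (h1.2 i) (pos_of_chow hC hX.1 hd) g hg
  · exact absurd (by rw [hom_zero_of_neg hC hX.1 (by omega) g, Functor.map_zero]) hg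

theorem tfae_of_chow [Nonempty I] (F : Type*) [Field F] [CharZero F] [Linear F T]
    [MonoidalLinear F T]
    (hone : ∀ e : 𝟙_ T ⟶ 𝟙_ T, ∃ a : F, e = a • 𝟙 _)
    (hb : ∀ i, Bounded (s i)) (hs : ∀ i, TensorExact (s i))
    (hD : ∀ i, ¬ IsZero (𝟙_ (D i)))
    (hu : ∀ i, SimpleUnit (s i) (𝟙_ (D i))) (hodd : OddFinite R s)
    (hC : ChowSystem R s 𝒞) (hKm : HasMotivicTStructure R s → Kunneth R s 𝒞) :
    List.TFAE [
      HasMotivicTStructure R s,
      Kunneth R s 𝒞 ∧ UnitVanishing R s 𝒞 ∧ RatEqNum R s 𝒞,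
      Kunneth R s 𝒞 ∧ UnitVanishing R s 𝒞 ∧
        ∃ i, (R i).ReflectsIsomorphisms ∧ RatEqHom R s 𝒞 i,
      Kunneth R s 𝒞 ∧ (∀ X, 𝒞 X → (∀ i, IsZero ((R i).obj X)) → IsZero X) ∧
        PureSemisimple R s 𝒞] := by
  have i₀ : I := Classical.arbitrary I
  obtain ⟨hT0, hone'⟩ := idem_of_scalar R F hone i₀ (hD i₀)
  tfae_have 1 → 3 := by
    intro hQ
    obtain ⟨t, h1, h2, h3⟩ := hQ
    have ht : Motivic R s t := ⟨h1, h2.heart, h3⟩
    have hi := ht.isZero hone' hD i₀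
    refine ⟨hKm ⟨t, h1, h2, h3⟩, Motivic.unitVanishing ht i₀ hi, i₀,
      reflects_of_isZero (R i₀) hi, fun X d hX g hg => ?_⟩
    have h4 : RDeg R s 0 (X⟦d⟧) := hX.2.shift (by ring)
    exact faithful_on_heart (R i₀) (h3 i₀) hi ((ht.le_iff i₀ hi 0 _).2 (h4.1 i₀))
      (unit_mem_heart ht.1 ht.2.1).2.ge g hg
  tfae_have 3 → 2 := by
    rintro ⟨hK, ha, i, hi, hr⟩
    refine ⟨hK, ha, fun X d hX g hg => ?_⟩
    exact splitting_of_conservative F hC i hi (hu i) hodd hT0 hX g fun h => hg (hr X d hX g h)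
  tfae_have 2 → 4 := by
    rintro ⟨hK, ha, hbb⟩
    have hss := semisimple hC F hone hs hbb
    have hvan := negVanishing hC hs ha
    refine ⟨hK, ?_, ?_⟩
    · intro X hX h0
      obtain ⟨n, hn⟩ := hK X hX
      clear hX
      induction n generalizing X with
      | zero => exact hn
      | succ n ih =>
        obtain ⟨A, B, ⟨d, hA⟩, hB, ⟨e⟩⟩ := hn
        have hA0 : IsZero A := by
          refine isZero_of_pureAt hC F hone hD hs hbb hA i₀ ?_
          have r : Retract A X := (⟨biprod.inl, biprod.fst, biprod.inl_fst⟩ :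
            Retract A (A ⊞ B)).trans (Retract.ofIso e.symm)
          rw [IsZero.iff_id_eq_zero]
          have := (r.map (R i₀)).retract
          rw [← this, (h0 i₀).eq_of_tgt ((r.map (R i₀)).i) 0, zero_comp]
        have hB0 : IsZero B := by
          refine ih B ?_ hB
          intro i
          have r : Retract B X := (⟨biprod.inr, biprod.snd, biprod.inr_snd⟩ :
            Retract B (A ⊞ B)).trans (Retract.ofIso e.symm)
          rw [IsZero.iff_id_eq_zero]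
          have := (r.map (R i)).retract
          rw [← this, (h0 i).eq_of_tgt ((r.map (R i)).i) 0, zero_comp]
        refine IsZero.of_iso ?_ e
        rw [IsZero.iff_id_eq_zero]
        apply biprod.hom_ext'
        · exact hA0.eq_of_src _ _
        · exact hB0.eq_of_src _ _
    · intro X Y d e hX hY
      exact ⟨hss d e _ _ (wt_of_pureAt hC.retract hX) (wt_of_pureAt hC.retract hY),
        hvan d e _ _ (wt_of_pureAt hC.retract hX) (wt_of_pureAt hC.retract hY)⟩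
  tfae_have 4 → 1 := by
    rintro ⟨hK, h0, hP⟩
    have hiso : ∀ (w : ℤ) (X : T), Nonempty (X ≅ X⟦-w⟧⟦w⟧) := fun w X =>
      ⟨(shiftFunctorZero T ℤ).symm.app X ≪≫ (shiftIso X (-w) w 0 (by ring)).symm⟩
    have key : JointlyConservative R ∧ ∀ M : T, LiftsAt R s 0 M := by
      refine lifts_and_cons (𝒲 := Wt R s 𝒞) (wt_retractClosed hC.retract) (fun w X hX => hX.2)
        (generated_wt hC.retract hC.gen hK) ?_ ?_ ?_
      · intro w X hX hR
        have h1 : IsZero (X⟦-w⟧) := h0 _ hX.1 fun i =>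
          ((shiftFunctor (D i) (-w)).map_isZero (hR i)).of_iso (((R i).commShiftIso (-w)).app X)
        obtain ⟨e⟩ := hiso w X
        exact ((shiftFunctor T w).map_isZero h1).of_iso e
      · intro v w X Y hX hY f
        obtain ⟨eX⟩ := hiso v X
        obtain ⟨eY⟩ := hiso w Y
        obtain ⟨h, hh⟩ := (hP _ _ v w (pureAt_of_wt hX) (pureAt_of_wt hY)).1
          (eX.inv ≫ f ≫ eY.hom)
        refine ⟨eY.hom ≫ h ≫ eX.inv, ?_⟩
        rw [← cancel_epi eX.inv, ← cancel_mono eY.hom]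
        simpa using hh
      · intro v w X Y hX hY m hm f
        obtain ⟨eX⟩ := hiso v X
        obtain ⟨eY⟩ := hiso w Y
        exact hom_zero_iso eX.symm ((shiftFunctor T m).mapIso eY).symm
          ((hP _ _ v w (pureAt_of_wt hX) (pureAt_of_wt hY)).2 m hm) f
    exact ((main (R := R) (s := s) hone' hD hb hs).out 4 0).1 key
  tfae_finish

end Pool.Agent.W492.PC
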