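import Pool.Agent.W492.PC.Suff

/-!
# Chow motives
-/

set_option linter.unusedSectionVars false
set_option linter.style.haveILetI false

open CategoryTheory Limits MonoidalCategory Triangulated Pretriangulated ZeroObject

namespace Pool.Agent.W492.PC

open Pool.Agent.W492.MT (tpow ins symm tr IsSum)

open Pool.Agent.W492.TS

universe v u v' u' w

section
variable {T : Type u} [Category.{v} T] [HasZeroObject T] [HasShift T ℤ] [Preadditive T]
  [∀ n : ℤ, (shiftFunctor T n).Additive] [Pretriangulated T] [IsTriangulated T]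

variable {I : Type w} {D : I → Type u'} [∀ i, Category.{v'} (D i)] [∀ i, HasZeroObject (D i)]
  [∀ i, HasShift (D i) ℤ] [∀ i, Preadditive (D i)]
  [∀ i, ∀ n : ℤ, (shiftFunctor (D i) n).Additive] [∀ i, Pretriangulated (D i)]
  [∀ i, IsTriangulated (D i)]
  (R : ∀ i, T ⥤ D i) [∀ i, (R i).CommShift ℤ] [∀ i, (R i).IsTriangulated]
  (s : ∀ i, TStructure (D i)) (𝒞 : ObjectProperty T)

/-- a Chow motive whose realisations are all concentrated in degree `d`. -/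
def PureAt (d : ℤ) : ObjectProperty T := fun X => 𝒞 X ∧ RDeg R s d X

/-- Kuenneth decomposition : every Chow motive is a finite direct sum of Chow motives with
realisations concentrated in one degree. -/
def Kunneth [HasBinaryBiproducts T] : Prop :=
  ∀ X, 𝒞 X → ∃ n, IsSum (fun Y => ∃ d, PureAt R s 𝒞 d Y) n X

/-- the shifts of Chow motives with realisations concentrated in degree `0`, by weight. -/
def Wt (w : ℤ) : ObjectProperty T := fun X => 𝒞 (X⟦-w⟧) ∧ RDeg R s 0 X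

variable {R s 𝒞}

theorem wt_of_pureAt (hret : ∀ X Y, 𝒞 Y → Nonempty (Retract X Y) → 𝒞 X) {d : ℤ} {X : T}
    (hX : PureAt R s 𝒞 d X) : Wt R s 𝒞 d (X⟦d⟧) :=
  ⟨hret _ _ hX.1 ⟨Retract.ofIso ((shiftEquiv T d).unitIso.symm.app X)⟩, hX.2.shift (by ring)⟩

theorem pureAt_of_wt {w : ℤ} {X : T} (hX : Wt R s 𝒞 w X) : PureAt R s 𝒞 w (X⟦-w⟧) :=
  ⟨hX.1, hX.2.shift (by ring)⟩

theorem wt_retractClosed (hret : ∀ X Y, 𝒞 Y → Nonempty (Retract X Y) → 𝒞 X) :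
    RetractClosed (Wt R s 𝒞) := by
  rintro w X Y ⟨h1, h2⟩ ⟨r⟩
  exact ⟨hret _ _ h1 ⟨r.map _⟩, h2.retract r⟩

theorem generated_wt [HasBinaryBiproducts T]
    (hret : ∀ X Y, 𝒞 Y → Nonempty (Retract X Y) → 𝒞 X) (hgen : Generated 𝒞)
    (hK : Kunneth R s 𝒞) : Generated fun X : T => ∃ w, Wt R s 𝒞 w X := by
  intro P hP1 hP2 hP
  refine hgen P hP1 hP2 ?_
  intro X hX
  obtain ⟨n, hn⟩ := hK X hX
  clear hX
  induction n generalizing X with
  | zero => exact P.prop_of_isZero hn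
  | succ n ih =>
    obtain ⟨A, B, ⟨d, hA⟩, hB, ⟨e⟩⟩ := hn
    have h1 : P (A⟦d⟧) := hP _ ⟨d, wt_of_pureAt hret hA⟩
    have h2 : P (A⟦d⟧⟦-d⟧) := P.le_shift (-d) _ h1
    have h3 : P A := P.prop_of_iso ((shiftEquiv T d).unitIso.symm.app A) h2
    have h4 := ih B hB
    have h5 : P (A ⊞ B) :=
      P.ext_of_isTriangulatedClosed₂ _ (binaryBiproductTriangle_distinguished A B) h3 h4
    exact P.prop_of_iso e.symm h5

end

section
variable {T : Type u} [Category.{v} T] [HasZeroObject T] [HasShift T ℤ] [Preadditive T]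
  [∀ n : ℤ, (shiftFunctor T n).Additive] [Pretriangulated T] [IsTriangulated T]
  [MonoidalCategory T] [SymmetricCategory T] [RightRigidCategory T]
  [∀ X : T, (tensorLeft X).CommShift ℤ] [∀ X : T, (tensorLeft X).IsTriangulated]

/-- `X⟦a⟧ ⊗ Y⟦b⟧ ≅ (X ⊗ Y)⟦a + b⟧`. -/
noncomputable def tensorShiftIso (X Y : T) (a b c : ℤ) (h : a + b = c) :
    X⟦a⟧ ⊗ Y⟦b⟧ ≅ (X ⊗ Y)⟦c⟧ :=
  ((tensorLeft (X⟦a⟧)).commShiftIso b).app Y ≪≫
    (shiftFunctor T b).mapIso (β_ (X⟦a⟧) Y ≪≫ ((tensorLeft Y).commShiftIso a).app X ≪≫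
      (shiftFunctor T a).mapIso (β_ Y X)) ≪≫ shiftIso (X ⊗ Y) a b c h

variable {I : Type w} {D : I → Type u'} [∀ i, Category.{v'} (D i)] [∀ i, HasZeroObject (D i)]
  [∀ i, HasShift (D i) ℤ] [∀ i, Preadditive (D i)]
  [∀ i, ∀ n : ℤ, (shiftFunctor (D i) n).Additive] [∀ i, Pretriangulated (D i)]
  [∀ i, IsTriangulated (D i)] [∀ i, MonoidalCategory (D i)] [∀ i, MonoidalPreadditive (D i)]
  {R : ∀ i, T ⥤ D i} [∀ i, (R i).CommShift ℤ] [∀ i, (R i).IsTriangulated]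
  [∀ i, (R i).Monoidal] {s : ∀ i, TStructure (D i)}

theorem RDeg.tensor (hs : ∀ i, TensorExact (s i)) {X Y : T} {a b : ℤ} (hX : RDeg R s a X)
    (hY : RDeg R s b Y) : RDeg R s (a + b) (X ⊗ Y) := by
  have hX' : RDeg R s 0 (X⟦a⟧) := hX.shift (by ring)
  have hY' : RDeg R s 0 (Y⟦b⟧) := hY.shift (by ring)
  have h1 : RDeg R s 0 (X⟦a⟧ ⊗ Y⟦b⟧) :=
    ⟨fun i => ((s i).le 0).prop_of_iso (Functor.Monoidal.μIso (R i) _ _)
        ((hs i _ _).1 (hX'.1 i) (hY'.1 i)),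
      fun i => ((s i).ge 0).prop_of_iso (Functor.Monoidal.μIso (R i) _ _)
        ((hs i _ _).2 (hX'.2 i) (hY'.2 i))⟩
  have h2 : RDeg R s 0 ((X ⊗ Y)⟦a + b⟧) :=
    ⟨RLE.of_iso (tensorShiftIso X Y a b _ rfl) h1.1, RGE.of_iso (tensorShiftIso X Y a b _ rfl) h1.2⟩
  have h3 : RDeg R s (a + b) ((X ⊗ Y)⟦a + b⟧⟦-(a + b)⟧) := h2.shift (by ring)
  exact ⟨RLE.of_iso ((shiftEquiv T (a + b)).unitIso.symm.app _) h3.1,
    RGE.of_iso ((shiftEquiv T (a + b)).unitIso.symm.app _) h3.2⟩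

end

end Pool.Agent.W492.PC
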