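import Pool.Agent.W492.PC.Sym

/-!
# A tensor nilpotent extension of the unit by weight reasons splits
-/

set_option linter.unusedSectionVars false
set_option linter.style.haveILetI false

open CategoryTheory Limits MonoidalCategory Triangulated Pretriangulated

namespace Pool.Agent.W492.PC

open Pool.Agent.W492.MT (tpow ins symm tr IsSum)

open Pool.Agent.W492.TS

universe v u

variable {T : Type u} [Category.{v} T] [HasZeroObject T] [HasShift T ℤ] [Preadditive T]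
  [∀ n : ℤ, (shiftFunctor T n).Additive] [Pretriangulated T] [IsTriangulated T]
  [MonoidalCategory T] [SymmetricCategory T] [RightRigidCategory T]
  [∀ X : T, (tensorLeft X).CommShift ℤ] [∀ X : T, (tensorLeft X).IsTriangulated]

/-- there are no morphisms from the unit to the objects `(N^{⊗ a} ⊗ Y)⟦m⟧` with `m ≥ 0`. -/
def Pos (N Y : T) : Prop := ∀ (a m : ℕ) (f : 𝟙_ T ⟶ (tpow N a ⊗ Y)⟦(m : ℤ)⟧), f = 0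

theorem hom_zero_of_iso {A B : T} (e : A ≅ B) (h : ∀ f : 𝟙_ T ⟶ A, f = 0) (f : 𝟙_ T ⟶ B) :
    f = 0 := by
  have := h (f ≫ e.inv)
  rw [← cancel_mono e.inv, this, zero_comp]

theorem Pos.of_iso {N Y Y' : T} (e : Y ≅ Y') (h : Pos N Y) : Pos N Y' := fun a m f =>
  hom_zero_of_iso ((shiftFunctor T (m : ℤ)).mapIso (whiskerLeftIso (tpow N a) e)) (h a m) f

theorem Pos.shift {N Y : T} (h : Pos N Y) : Pos N (Y⟦(1 : ℤ)⟧) := fun a m f => by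
  refine hom_zero_of_iso (?_ : (tpow N a ⊗ Y)⟦((m + 1 : ℕ) : ℤ)⟧ ≅ _) (h a (m + 1)) f
  exact (shiftFunctorAdd' T (1 : ℤ) (m : ℤ) ((m + 1 : ℕ) : ℤ) (by push_cast; ring)).app _ ≪≫
    (shiftFunctor T (m : ℤ)).mapIso (((tensorLeft (tpow N a)).commShiftIso (1 : ℤ)).app Y).symm

theorem Pos.tensor {N Y : T} (h : Pos N Y) : Pos N (N ⊗ Y) := fun a m f =>
  hom_zero_of_iso ((shiftFunctor T (m : ℤ)).mapIso (α_ N (tpow N a) Y ≪≫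
    swapIso N (tpow N a) Y)) (h (a + 1) m) f

theorem Pos.ext {N X Y Z : T} {f : X ⟶ Y} {g : Y ⟶ Z} {k : Z ⟶ X⟦(1 : ℤ)⟧}
    (hT : Triangle.mk f g k ∈ distTriang T) (hX : Pos N X) (hZ : Pos N Z) : Pos N Y := by
  intro a m y
  have h1 := (tensorLeft (tpow N a)).map_distinguished _ hT
  have h2 := Triangle.shift_distinguished _ h1 (m : ℤ)
  obtain ⟨x, hx⟩ := Triangle.coyoneda_exact₂ _ h2 y (hZ a m _)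
  rw [hx, hX a m x]
  exact zero_comp

theorem Pos.hom_zero {N Y : T} (h : Pos N Y) (f : 𝟙_ T ⟶ Y) : f = 0 :=
  hom_zero_of_iso ((shiftFunctorZero T ℤ).app (𝟙_ T ⊗ Y) ≪≫ λ_ Y) (h 0 0) f

section
variable {N W : T} {g : N ⟶ 𝟙_ T} {δ : 𝟙_ T ⟶ W} {k : W ⟶ N⟦(1 : ℤ)⟧}

theorem Pos.tensorCone (hT : Triangle.mk g δ k ∈ distTriang T) {Y : T} (h : Pos N Y) :
    Pos N (W ⊗ Y) := by
  have h1 := (tensorLeft Y).map_distinguished _ hT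
  have h2 := rot_of_distTriang _ h1
  have h3 : Pos N (Y ⊗ 𝟙_ T) := h.of_iso (ρ_ Y).symm
  have h4 : Pos N ((Y ⊗ N)⟦(1 : ℤ)⟧) := (h.tensor.of_iso (β_ N Y)).shift
  exact (Pos.ext h2 h3 h4).of_iso (β_ Y W)

theorem pos_tpow_cone (hT : Triangle.mk g δ k ∈ distTriang T) (hpos : Pos N (N⟦(1 : ℤ)⟧))
    (m : ℕ) : Pos N (tpow W m ⊗ N⟦(1 : ℤ)⟧) := by
  induction m with
  | zero => exact hpos.of_iso (λ_ _).symm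
  | succ m ih => exact (Pos.tensorCone hT ih).of_iso (α_ W (tpow W m) _).symm

theorem rho_inv_whisker (Z : T) (δ : 𝟙_ T ⟶ W) :
    (ρ_ Z).inv ≫ (Z ◁ δ) = (λ_ Z).inv ≫ (δ ▷ Z) ≫ (β_ W Z).hom := by
  rw [BraidedCategory.braiding_naturality_left, braiding_tensorUnit_left]
  simp

theorem coh1 {A N W : T} (e : 𝟙_ T ⟶ A) (δ : 𝟙_ T ⟶ W) (x : 𝟙_ T ⟶ N) :
    (((x ≫ (λ_ N).inv ≫ (e ▷ N)) ≫ (ρ_ (A ⊗ N)).inv) ≫ ((A ⊗ N) ◁ δ)) ≫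
      (β_ W (A ⊗ N)).inv ≫ (α_ W A N).inv =
      x ≫ (λ_ N).inv ≫ (((λ_ (𝟙_ T)).inv ≫ (δ ⊗ₘ e)) ▷ N) := by
  have h : (ρ_ (A ⊗ N)).inv ≫ ((A ⊗ N) ◁ δ) ≫ (β_ W (A ⊗ N)).inv =
      (λ_ (A ⊗ N)).inv ≫ (δ ▷ (A ⊗ N)) := by
    rw [← Category.assoc, rho_inv_whisker]
    simp only [Category.assoc, Iso.hom_inv_id, Category.comp_id]
  calc _ = x ≫ (λ_ N).inv ≫ (e ▷ N) ≫ ((ρ_ (A ⊗ N)).inv ≫ ((A ⊗ N) ◁ δ) ≫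
      (β_ W (A ⊗ N)).inv) ≫ (α_ W A N).inv := by simp only [Category.assoc]
    _ = _ := by
      rw [h, MonoidalCategory.tensorHom_def']
      simp

theorem coh2 {A N : T} (e : 𝟙_ T ⟶ A) (g : N ⟶ 𝟙_ T) (x : 𝟙_ T ⟶ N) :
    (x ≫ (λ_ N).inv ≫ (e ▷ N)) ≫ (A ◁ g) = (x ≫ g) ≫ (λ_ (𝟙_ T)).inv ≫ (e ▷ 𝟙_ T) := by
  simp only [Category.assoc]
  rw [← whisker_exchange, leftUnitor_inv_naturality_assoc x, leftUnitor_inv_naturality_assoc g,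
    leftUnitor_inv_naturality_assoc x]

theorem coh3 {A W : T} (e : 𝟙_ T ⟶ A) (δ : 𝟙_ T ⟶ W) :
    (e ≫ (ρ_ A).inv) ≫ (A ◁ δ) = ((λ_ (𝟙_ T)).inv ≫ (δ ⊗ₘ e)) ≫ (β_ W A).hom := by
  rw [Category.assoc, rho_inv_whisker, MonoidalCategory.tensorHom_def']
  simp

theorem tensor_exact₂ (hT : Triangle.mk g δ k ∈ distTriang T) (A : T) (y : 𝟙_ T ⟶ A ⊗ 𝟙_ T)
    (hy : y ≫ (A ◁ δ) = 0) : ∃ x : 𝟙_ T ⟶ A ⊗ N, y = x ≫ (A ◁ g) :=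
  Triangle.coyoneda_exact₂ _ ((tensorLeft A).map_distinguished _ hT) y hy

theorem tensor_exact₃ (hT : Triangle.mk g δ k ∈ distTriang T) (A : T)
    (h : ∀ f : 𝟙_ T ⟶ (A ⊗ N)⟦(1 : ℤ)⟧, f = 0) (y : 𝟙_ T ⟶ A ⊗ W) :
    ∃ x : 𝟙_ T ⟶ A ⊗ 𝟙_ T, y = x ≫ (A ◁ δ) :=
  Triangle.coyoneda_exact₃ _ ((tensorLeft A).map_distinguished _ hT) y (h _)

theorem factor_step (hT : Triangle.mk g δ k ∈ distTriang T) (A : T) (e : 𝟙_ T ⟶ A)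
    (hA : Pos N (A ⊗ N⟦(1 : ℤ)⟧))
    (ih : ∀ y : 𝟙_ T ⟶ A ⊗ N, ∃ x : 𝟙_ T ⟶ N, y = x ≫ (λ_ N).inv ≫ (e ▷ N))
    (y : 𝟙_ T ⟶ (W ⊗ A) ⊗ N) :
    ∃ x : 𝟙_ T ⟶ N, y = x ≫ (λ_ N).inv ≫ (((λ_ (𝟙_ T)).inv ≫ (δ ⊗ₘ e)) ▷ N) := by
  have h2 : ∀ f : 𝟙_ T ⟶ ((A ⊗ N) ⊗ N)⟦(1 : ℤ)⟧, f = 0 := by
    refine hom_zero_of_iso ?_ hA.tensor.hom_zero
    exact (swapIso A N (N⟦(1 : ℤ)⟧)).symm ≪≫ (α_ A N (N⟦(1 : ℤ)⟧)).symm ≪≫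
      ((tensorLeft (A ⊗ N)).commShiftIso (1 : ℤ)).app N
  obtain ⟨z, hz⟩ := tensor_exact₃ hT (A ⊗ N) h2 (y ≫ (α_ W A N).hom ≫ (β_ W (A ⊗ N)).hom)
  obtain ⟨x, hx⟩ := ih (z ≫ (ρ_ (A ⊗ N)).hom)
  refine ⟨x, ?_⟩
  have hz2 : z = (x ≫ (λ_ N).inv ≫ (e ▷ N)) ≫ (ρ_ (A ⊗ N)).inv := by
    rw [← hx, Category.assoc, Iso.hom_inv_id, Category.comp_id]
  have hy : y = (y ≫ (α_ W A N).hom ≫ (β_ W (A ⊗ N)).hom) ≫ (β_ W (A ⊗ N)).inv ≫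
      (α_ W A N).inv := by
    simp only [Category.assoc, Iso.hom_inv_id_assoc, Iso.hom_inv_id, Category.comp_id]
  rw [hy, hz, hz2, coh1]

/-- Every morphism from the unit to `W^{⊗ m} ⊗ N` comes from `N`. -/
theorem factor (hT : Triangle.mk g δ k ∈ distTriang T) (hpos : Pos N (N⟦(1 : ℤ)⟧)) (m : ℕ)
    (y : 𝟙_ T ⟶ tpow W m ⊗ N) : ∃ x : 𝟙_ T ⟶ N, y = x ≫ (λ_ N).inv ≫ (dpow δ m ▷ N) := by
  induction m with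
  | zero =>
    have h : ∀ y : 𝟙_ T ⟶ 𝟙_ T ⊗ N, ∃ x : 𝟙_ T ⟶ N,
        y = x ≫ (λ_ N).inv ≫ (𝟙 (𝟙_ T) ▷ N) := fun y =>
      ⟨y ≫ (λ_ N).hom, by simp⟩
    exact h y
  | succ m ih => exact factor_step hT (tpow W m) (dpow δ m) (pos_tpow_cone hT hpos m) ih y

theorem split_step (hT : Triangle.mk g δ k ∈ distTriang T) (A : T) (e : 𝟙_ T ⟶ A)
    (ih : ∀ y : 𝟙_ T ⟶ A ⊗ N, ∃ x : 𝟙_ T ⟶ N, y = x ≫ (λ_ N).inv ≫ (e ▷ N))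
    (he : e ≠ 0) (hm : (λ_ (𝟙_ T)).inv ≫ (δ ⊗ₘ e) = 0) : ∃ x : 𝟙_ T ⟶ N, x ≫ g ≠ 0 := by
  obtain ⟨y, hy⟩ := tensor_exact₂ hT A (e ≫ (ρ_ A).inv) (by rw [coh3, hm, zero_comp])
  obtain ⟨x, hx⟩ := ih y
  refine ⟨x, fun hxg => he ?_⟩
  rw [← cancel_mono (ρ_ A).inv, hy, hx, coh2, hxg, zero_comp, zero_comp]

/-- If the class `δ` of the extension of `𝟙` is tensor nilpotent, `g : N ⟶ 𝟙` splits. -/
theorem split_of_dpow (hT : Triangle.mk g δ k ∈ distTriang T) (hpos : Pos N (N⟦(1 : ℤ)⟧))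
    (h0 : 𝟙 (𝟙_ T) ≠ 0) (m : ℕ) (hm : dpow δ m = 0) : ∃ x : 𝟙_ T ⟶ N, x ≫ g ≠ 0 := by
  induction m with
  | zero => exact absurd hm h0
  | succ m ih =>
    by_cases he : dpow δ m = 0
    · exact ih he
    · exact split_step hT (tpow W m) (dpow δ m) (factor hT hpos m) he hm

end

end Pool.Agent.W492.PC
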