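import Pool.Agent.W492.PC.Chow

/-!
# Systems of Chow motives: from 'rational = numerical' to the semisimplicity of pure objects
-/

set_option linter.unusedSectionVars false
set_option linter.style.haveILetI false

open CategoryTheory Limits MonoidalCategory Triangulated Pretriangulated ZeroObject

namespace Pool.Agent.W492.PC

open Pool.Agent.W492.MT (tpow ins symm tr IsSum)

open Pool.Agent.W492.TS

universe v u v' u' w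

section
variable {T : Type u} [Category.{v} T] [HasZeroObject T] [HasShift T ℤ] [Preadditive T]
  [∀ n : ℤ, (shiftFunctor T n).Additive] [Pretriangulated T] [IsTriangulated T]
  [MonoidalCategory T] [SymmetricCategory T] [RightRigidCategory T]
  [∀ X : T, (tensorLeft X).CommShift ℤ] [∀ X : T, (tensorLeft X).IsTriangulated]

theorem hom_zero_of_dual {X Y : T} (h : ∀ x : 𝟙_ T ⟶ Xᘁ ⊗ Y, x = 0) (f : X ⟶ Y) : f = 0 := by
  letI : ExactPairing Xᘁ X := BraidedCategory.exactPairing_swap X Xᘁ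
  have h2 : (ρ_ X).hom ≫ f = 0 := by
    apply ((tensorLeftAdjunction Xᘁ X).homEquiv (𝟙_ T) Y).injective
    exact (h _).trans (h _).symm
  rwa [← cancel_epi (ρ_ X).hom, comp_zero]

theorem hom_zero_iso {A A' B B' : T} (e : A ≅ A') (e' : B ≅ B') (h : ∀ f : A ⟶ B, f = 0)
    (f : A' ⟶ B') : f = 0 := by
  have := h (e.hom ≫ f ≫ e'.inv)
  rw [← cancel_epi e.hom, ← cancel_mono e'.inv, Category.assoc, this, comp_zero, zero_comp]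

/-- morphisms `P⟦d⟧ ⟶ Q⟦e⟧⟦m⟧` vanish if the morphisms `P ⟶ Q⟦e - d + m⟧` do. -/
theorem hom_zero_shift {P Q : T} (d e m n : ℤ) (hn : n + d = e + m)
    (h : ∀ f : P ⟶ Q⟦n⟧, f = 0) (f : P⟦d⟧ ⟶ Q⟦e⟧⟦m⟧) : f = 0 := by
  have h1 : ∀ f : P⟦d⟧ ⟶ Q⟦n⟧⟦d⟧, f = 0 := fun f => by
    obtain ⟨g, rfl⟩ := exists_unshift d f
    rw [h g, Functor.map_zero]
  exact hom_zero_iso (Iso.refl _)
    ((shiftIso Q n d (n + d) rfl) ≪≫ (shiftIso Q e m (n + d) hn.symm).symm) h1 f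

variable {I : Type w} {D : I → Type u'} [∀ i, Category.{v'} (D i)] [∀ i, HasZeroObject (D i)]
  [∀ i, HasShift (D i) ℤ] [∀ i, Preadditive (D i)]
  [∀ i, ∀ n : ℤ, (shiftFunctor (D i) n).Additive] [∀ i, Pretriangulated (D i)]
  [∀ i, IsTriangulated (D i)] [∀ i, MonoidalCategory (D i)] [∀ i, MonoidalPreadditive (D i)]
  (R : ∀ i, T ⥤ D i) [∀ i, (R i).CommShift ℤ] [∀ i, (R i).IsTriangulated]
  [∀ i, (R i).Monoidal] (s : ∀ i, TStructure (D i)) [MonoidalPreadditive T]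

/-- The formal properties of the class `𝒞` of Chow motives. -/
structure ChowSystem (𝒞 : ObjectProperty T) : Prop where
  unit : 𝒞 (𝟙_ T)
  tensor : ∀ X Y, 𝒞 X → 𝒞 Y → 𝒞 (X ⊗ Y)
  dual : ∀ X, 𝒞 X → 𝒞 Xᘁ
  sum : ∀ X Y, 𝒞 X → 𝒞 Y → 𝒞 (X ⊞ Y)
  retract : ∀ X Y, 𝒞 Y → Nonempty (Retract X Y) → 𝒞 X
  orth : ∀ X Y, 𝒞 X → 𝒞 Y → ∀ m : ℤ, 0 < m → ∀ f : X ⟶ Y⟦m⟧, f = 0
  gen : Generated 𝒞
  dualDeg : ∀ X d, 𝒞 X → RDeg R s d X → RDeg R s (-d) Xᘁ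
  finRank : ∀ X, 𝒞 X → FinRank X
  trNil : ∀ X, 𝒞 X → ∀ c : End X, IsNilpotent c → tr (X := X) c = 0

/-- no morphisms of small degree from the unit to the Chow motives of degree `d`. -/
def UnitVanishing (𝒞 : ObjectProperty T) : Prop :=
  ∀ (X : T) (d : ℤ), PureAt R s 𝒞 d X → ∀ m : ℤ, m < d → ∀ f : 𝟙_ T ⟶ X⟦m⟧, f = 0

/-- every nonzero morphism from a Chow motive of degree `d` (shifted to degree `0`) to the unit
is numerically nontrivial. -/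
def RatEqNum (𝒞 : ObjectProperty T) : Prop :=
  ∀ (X : T) (d : ℤ), PureAt R s 𝒞 d X → ∀ g : X⟦d⟧ ⟶ 𝟙_ T, g ≠ 0 →
    ∃ x : 𝟙_ T ⟶ X⟦d⟧, x ≫ g ≠ 0

variable {R s} {𝒞 : ObjectProperty T}

section
variable (hC : ChowSystem R s 𝒞)
include hC

theorem pureAt_dual_tensor (hs : ∀ i, TensorExact (s i)) {P Q : T} {d e : ℤ}
    (hP : PureAt R s 𝒞 d P) (hQ : PureAt R s 𝒞 e Q) : PureAt R s 𝒞 (-d + e) (Pᘁ ⊗ Q) :=
  ⟨hC.tensor _ _ (hC.dual _ hP.1) hQ.1, RDeg.tensor hs (hC.dualDeg _ _ hP.1 hP.2) hQ.2⟩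

theorem wt_iso {w : ℤ} (X : T) : Nonempty (X ≅ X⟦-w⟧⟦w⟧) :=
  ⟨(shiftFunctorZero T ℤ).symm.app X ≪≫ (shiftIso X (-w) w 0 (by ring)).symm⟩

theorem negVanishing (hs : ∀ i, TensorExact (s i)) (ha : UnitVanishing R s 𝒞) :
    NegVanishing (Wt R s 𝒞) := by
  intro v w X Y hX hY m hm f
  have hP := pureAt_of_wt hX
  have hQ := pureAt_of_wt hY
  obtain ⟨eX⟩ := wt_iso hC (w := v) X
  obtain ⟨eY⟩ := wt_iso hC (w := w) Y
  have h1 : ∀ f : X⟦-v⟧⟦v⟧ ⟶ Y⟦-w⟧⟦w⟧⟦m⟧, f = 0 := by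
    refine hom_zero_shift v w m (w + m - v) (by ring) ?_
    refine hom_zero_of_dual ?_
    refine hom_zero_iso (Iso.refl _)
      (((tensorLeft ((X⟦-v⟧ : T)ᘁ)).commShiftIso (w + m - v)).app (Y⟦-w⟧)).symm ?_
    exact ha _ _ (pureAt_dual_tensor hC hs hP hQ) _ (by omega)
  exact hom_zero_iso eX.symm ((shiftFunctor T m).mapIso eY).symm h1 f

/-- numerically trivial morphisms between pure objects vanish. -/
theorem exists_tr_ne_zero (hs : ∀ i, TensorExact (s i)) (hb : RatEqNum R s 𝒞) {Z : T} {d : ℤ}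
    (hZ : PureAt R s 𝒞 d Z) (a : Z ⟶ Z) (ha : a ≠ 0) : ∃ h : Z ⟶ Z, tr (h ≫ a) ≠ 0 := by
  have h1 : (Zᘁ ◁ a) ≫ ε_ Z Zᘁ ≠ 0 := fun h => ha (comp_evaluation_injective a h)
  have h2 : PureAt R s 𝒞 0 (Zᘁ ⊗ Z) := by
    have := pureAt_dual_tensor hC hs hZ hZ
    rwa [neg_add_cancel] at this
  let e : (Zᘁ ⊗ Z)⟦(0 : ℤ)⟧ ≅ Zᘁ ⊗ Z := (shiftFunctorZero T ℤ).app _
  obtain ⟨x, hx⟩ := hb _ _ h2 (e.hom ≫ (Zᘁ ◁ a) ≫ ε_ Z Zᘁ) (fun h => h1 (by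
    rw [← cancel_epi e.hom, h, comp_zero]))
  obtain ⟨h, hh⟩ := exists_hom_of_hom (x ≫ e.hom)
  refine ⟨h, ?_⟩
  rw [← comp_eq_tr, ← hh, Category.assoc]
  exact hx

theorem isZero_of_pureAt (F : Type*) [Field F] [Linear F T] 
    (hone : ∀ e : 𝟙_ T ⟶ 𝟙_ T, ∃ a : F, e = a • 𝟙 _) (hD : ∀ i, ¬ IsZero (𝟙_ (D i)))
    (hs : ∀ i, TensorExact (s i)) (hb : RatEqNum R s 𝒞) {Z : T} {d : ℤ}
    (hZ : PureAt R s 𝒞 d Z) (i : I) (h0 : IsZero ((R i).obj Z)) : IsZero Z := by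
  rw [IsZero.iff_id_eq_zero]
  by_contra hne
  obtain ⟨h, hh⟩ := exists_tr_ne_zero hC hs hb hZ (𝟙 Z) hne
  obtain ⟨a, ha⟩ := hone (tr (h ≫ 𝟙 Z))
  have ha0 : a ≠ 0 := by
    rintro rfl
    exact hh (by rw [ha, zero_smul])
  have h1 : IsZero ((R i).obj (Z ⊗ Zᘁ)) := by
    have h2 : IsZero ((R i).obj Z ⊗ (R i).obj Zᘁ) := by
      rw [IsZero.iff_id_eq_zero, ← id_whiskerRight, (IsZero.iff_id_eq_zero _).1 h0,
        MonoidalPreadditive.zero_whiskerRight]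
    exact h2.of_iso (Functor.Monoidal.μIso (R i) Z Zᘁ).symm
  have h3 : (R i).map (𝟙 (𝟙_ T)) = 0 := by
    have h4 : 𝟙 (𝟙_ T) = (a⁻¹ • η_ Z Zᘁ) ≫ ((h ≫ 𝟙 Z) ▷ Zᘁ ≫ (β_ Z Zᘁ).hom ≫ ε_ Z Zᘁ) := by
      rw [Linear.smul_comp]
      change _ = a⁻¹ • tr (h ≫ 𝟙 Z)
      rw [ha, smul_smul, inv_mul_cancel₀ ha0, one_smul]
    rw [h4, (R i).map_comp, h1.eq_of_tgt ((R i).map (a⁻¹ • η_ Z Zᘁ)) 0, zero_comp]
  apply hD i
  have h5 : IsZero ((R i).obj (𝟙_ T)) := by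
    rw [IsZero.iff_id_eq_zero, ← CategoryTheory.Functor.map_id, h3]
  exact h5.of_iso (Functor.Monoidal.εIso (R i))

theorem exists_quasi_inverse_pure (F : Type*) [Field F] [Linear F T] [MonoidalLinear F T]
    (hone : ∀ e : 𝟙_ T ⟶ 𝟙_ T, ∃ a : F, e = a • 𝟙 _) 
    (hs : ∀ i, TensorExact (s i)) (hb : RatEqNum R s 𝒞) {P Q : T} {d : ℤ}
    (hP : PureAt R s 𝒞 d P) (hQ : PureAt R s 𝒞 d Q) (f : P ⟶ Q) :
    ∃ h : Q ⟶ P, f ≫ h ≫ f = f := by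
  have hZ : PureAt R s 𝒞 d (P ⊞ Q) :=
    ⟨hC.sum _ _ hP.1 hQ.1,
      RLE.obj₂ (binaryBiproductTriangle_distinguished P Q) hP.2.1 hQ.2.1,
      RGE.obj₂ (binaryBiproductTriangle_distinguished P Q) hP.2.2 hQ.2.2⟩
  obtain ⟨H, hH⟩ := exists_quasi_inverse F hone (hC.finRank _ hZ.1) (hC.trNil _ hZ.1)
    (exists_tr_ne_zero hC hs hb hZ) (biprod.fst ≫ f ≫ biprod.inr)
  refine ⟨biprod.inr ≫ H ≫ biprod.fst, ?_⟩
  have h1 := congrArg (fun k => biprod.inl ≫ k ≫ biprod.snd) hH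
  simpa using h1

theorem hom_zero_of_ne (hs : ∀ i, TensorExact (s i)) (hb : RatEqNum R s 𝒞) {P Q : T} {d e : ℤ}
    (hP : PureAt R s 𝒞 d P) (hQ : PureAt R s 𝒞 e Q) (hde : d ≠ e) (f : P⟦d - e⟧ ⟶ Q) :
    f = 0 := by
  by_contra hne
  have h1 : (Qᘁ ◁ f) ≫ ε_ Q Qᘁ ≠ 0 := fun h => hne (comp_evaluation_injective f h)
  rcases lt_or_gt_of_ne hde with hlt | hgt
  · apply hne
    have h2 : ∀ f : P⟦d - e⟧ ⟶ Q⟦(0 : ℤ)⟧⟦(0 : ℤ)⟧, f = 0 :=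
      hom_zero_shift _ _ _ (e - d) (by ring) (hC.orth _ _ hP.1 hQ.1 _ (by omega))
    exact hom_zero_iso (Iso.refl _)
      ((shiftFunctorZero T ℤ).app _ ≪≫ (shiftFunctorZero T ℤ).app _) h2 f
  · have h2 : PureAt R s 𝒞 (d - e) (Qᘁ ⊗ P) := by
      have := pureAt_dual_tensor hC hs hQ hP
      rwa [neg_add_eq_sub] at this
    let φ : Qᘁ ⊗ P⟦d - e⟧ ≅ (Qᘁ ⊗ P)⟦d - e⟧ := ((tensorLeft Qᘁ).commShiftIso (d - e)).app P
    obtain ⟨x, hx⟩ := hb _ _ h2 (φ.inv ≫ (Qᘁ ◁ f) ≫ ε_ Q Qᘁ) (fun h => h1 (by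
      rw [← cancel_epi φ.inv, h, comp_zero]))
    exact hx (by rw [hC.orth _ _ hC.unit h2.1 _ (by omega) x, zero_comp])

theorem semisimple (F : Type*) [Field F] [Linear F T] [MonoidalLinear F T]
    (hone : ∀ e : 𝟙_ T ⟶ 𝟙_ T, ∃ a : F, e = a • 𝟙 _)
    (hs : ∀ i, TensorExact (s i)) (hb : RatEqNum R s 𝒞) : Semisimple (Wt R s 𝒞) := by
  intro v w X Y hX hY f
  have hP := pureAt_of_wt hX
  have hQ := pureAt_of_wt hY
  by_cases hvw : v = w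
  · subst hvw
    obtain ⟨k, hk⟩ := exists_quasi_inverse_pure hC F hone hs hb hP hQ (f⟦-v⟧')
    obtain ⟨h, rfl⟩ := exists_unshift (-v) k
    refine ⟨h, (shiftFunctor T (-v)).map_injective ?_⟩
    rw [Functor.map_comp, Functor.map_comp, hk]
  · refine ⟨0, ?_⟩
    have h0 : f = 0 := by
      apply (shiftFunctor T (-w)).map_injective
      rw [Functor.map_zero]
      exact hom_zero_iso (shiftIso X (-v) (v - w) (v - w - v) (by ring) ≪≫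
        (eqToIso (by congr 2; ring) : X⟦v - w - v⟧ ≅ X⟦-w⟧)) (Iso.refl _)
        (hom_zero_of_ne hC hs hb hP hQ hvw) _
    rw [h0, zero_comp]

end

end

end Pool.Agent.W492.PC
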