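import Pool.Agent.W492.PC.Main

/-!
# Regular additive and triangulated categories
-/

set_option linter.unusedSectionVars false
set_option linter.style.haveILetI false

open CategoryTheory Limits MonoidalCategory Triangulated Pretriangulated ZeroObject

namespace Pool.Agent.W492.PC

open Pool.Agent.W492.MT (tpow ins symm tr IsSum)

open Pool.Agent.W492.TS

universe v u v' u' w

section
variable {T : Type u} [Category.{v} T] [Preadditive T] [HasBinaryBiproducts T]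

/-- every morphism `X ⟶ Y` has a quasi-inverse. -/
def Reg (X Y : T) : Prop := ∀ f : X ⟶ Y, ∃ h : Y ⟶ X, f ≫ h ≫ f = f

theorem Reg.retract_left {X X' Y : T} (r : Retract X' X) (h : Reg X Y) : Reg X' Y := by
  intro f
  obtain ⟨k, hk⟩ := h (r.r ≫ f)
  refine ⟨k ≫ r.r, ?_⟩
  have h1 := congrArg (fun z => r.i ≫ z) hk
  simpa using h1

theorem Reg.retract_right {X Y Y' : T} (r : Retract Y' Y) (h : Reg X Y) : Reg X Y' := by
  intro f
  obtain ⟨k, hk⟩ := h (f ≫ r.i)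
  refine ⟨r.i ≫ k, ?_⟩
  have h1 := congrArg (fun z => z ≫ r.r) hk
  simpa using h1

theorem Reg.biprod_left {X₁ X₂ Y : T} (h₁ : Reg X₁ Y) (h₂ : Reg X₂ Y) : Reg (X₁ ⊞ X₂) Y := by
  intro f
  obtain ⟨a, ha⟩ : ∃ a : X₁ ⟶ Y, a = biprod.inl ≫ f := ⟨_, rfl⟩
  obtain ⟨b, hb⟩ : ∃ b : X₂ ⟶ Y, b = biprod.inr ≫ f := ⟨_, rfl⟩
  obtain ⟨h, hh⟩ := h₁ a
  obtain ⟨k, hk⟩ := h₂ (b ≫ (𝟙 Y - h ≫ a))
  have haq : a ≫ (𝟙 Y - h ≫ a) = 0 := by
    rw [Preadditive.comp_sub, Category.comp_id, hh, sub_self]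
  have hqq : (𝟙 Y - h ≫ a) ≫ (𝟙 Y - h ≫ a) = 𝟙 Y - h ≫ a := by
    rw [Preadditive.sub_comp, Category.id_comp, Category.assoc, haq, comp_zero, sub_zero]
  obtain ⟨q, hq⟩ : ∃ q : Y ⟶ Y, q = 𝟙 Y - h ≫ a := ⟨_, rfl⟩
  rw [← hq] at haq hqq hk
  have hpa : h ≫ a = 𝟙 Y - q := by rw [hq]; abel
  refine ⟨biprod.lift (h - (q ≫ k) ≫ b ≫ h) (q ≫ k), ?_⟩
  have e1 : biprod.lift (h - (q ≫ k) ≫ b ≫ h) (q ≫ k) ≫ f =
      (h - (q ≫ k) ≫ b ≫ h) ≫ a + (q ≫ k) ≫ b := by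
    have : f = biprod.desc a b := by
      apply biprod.hom_ext' <;> simp [ha, hb]
    rw [this, biprod.lift_desc]
  have e2 : biprod.lift (h - (q ≫ k) ≫ b ≫ h) (q ≫ k) ≫ f =
      (𝟙 Y - q) + (q ≫ k) ≫ b ≫ q := by
    rw [e1, Preadditive.sub_comp, hpa]
    have e3 : ((q ≫ k) ≫ b ≫ h) ≫ a = (q ≫ k) ≫ b ≫ (𝟙 Y - q) := by
      rw [← hpa]
      simp only [Category.assoc]
    rw [e3, Preadditive.comp_sub, Category.comp_id, Preadditive.comp_sub]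
    abel
  rw [e2]
  apply biprod.hom_ext'
  · rw [← Category.assoc, ← ha, Preadditive.comp_add, Preadditive.comp_sub, Category.comp_id, haq,
      sub_zero, Category.assoc, reassoc_of% haq, zero_comp, add_zero]
  · rw [← Category.assoc, ← hb, Preadditive.comp_add, Preadditive.comp_sub, Category.comp_id]
    have e4 : b ≫ (q ≫ k) ≫ b ≫ q = b ≫ q := by
      simpa only [Category.assoc] using hk
    rw [e4, sub_add_cancel]

theorem Reg.biprod_right {X Y₁ Y₂ : T} (h₁ : Reg X Y₁) (h₂ : Reg X Y₂) : Reg X (Y₁ ⊞ Y₂) := by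
  intro f
  obtain ⟨a, ha⟩ : ∃ a : X ⟶ Y₁, a = f ≫ biprod.fst := ⟨_, rfl⟩
  obtain ⟨b, hb⟩ : ∃ b : X ⟶ Y₂, b = f ≫ biprod.snd := ⟨_, rfl⟩
  obtain ⟨h, hh⟩ := h₁ a
  obtain ⟨k, hk⟩ := h₂ ((𝟙 X - a ≫ h) ≫ b)
  have hqa : (𝟙 X - a ≫ h) ≫ a = 0 := by
    rw [Preadditive.sub_comp, Category.id_comp, Category.assoc, hh, sub_self]
  obtain ⟨q, hq⟩ : ∃ q : X ⟶ X, q = 𝟙 X - a ≫ h := ⟨_, rfl⟩
  rw [← hq] at hqa hk
  have hah : a ≫ h = 𝟙 X - q := by rw [hq]; abel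
  refine ⟨biprod.desc (h - h ≫ b ≫ k ≫ q) (k ≫ q), ?_⟩
  have hf : f = biprod.lift a b := by
    apply biprod.hom_ext <;> simp [ha, hb]
  have e2 : f ≫ biprod.desc (h - h ≫ b ≫ k ≫ q) (k ≫ q) =
      (𝟙 X - q) + q ≫ b ≫ k ≫ q := by
    rw [hf, biprod.lift_desc, Preadditive.comp_sub, hah]
    have e3 : a ≫ h ≫ b ≫ k ≫ q = (𝟙 X - q) ≫ b ≫ k ≫ q := by
      rw [← hah]
      simp only [Category.assoc]
    rw [e3, Preadditive.sub_comp, Category.id_comp]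
    abel
  rw [← Category.assoc, e2]
  apply biprod.hom_ext
  · rw [Category.assoc, ← ha, Preadditive.add_comp, Preadditive.sub_comp, Category.id_comp, hqa,
      sub_zero, Category.assoc, Category.assoc, Category.assoc, hqa, comp_zero, comp_zero,
      comp_zero, add_zero]
  · rw [Category.assoc, ← hb, Preadditive.add_comp, Preadditive.sub_comp, Category.id_comp]
    have e4 : (q ≫ b ≫ k ≫ q) ≫ b = q ≫ b := by
      simpa only [Category.assoc] using hk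
    rw [e4, sub_add_cancel]

end

section
variable {T : Type u} [Category.{v} T] [HasZeroObject T] [HasShift T ℤ] [Preadditive T]
  [∀ n : ℤ, (shiftFunctor T n).Additive] [Pretriangulated T] [IsTriangulated T]
  {𝒬 : ObjectProperty T}

theorem Reg.isSum_left {Y : T} (h : ∀ A, 𝒬 A → Reg A Y) {n : ℕ} {X : T} (hX : IsSum 𝒬 n X) :
    Reg X Y := by
  induction n generalizing X with
  | zero => exact fun f => ⟨0, IsZero.eq_of_src hX _ _⟩
  | succ n ih =>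
    obtain ⟨A, B, hA, hB, ⟨e⟩⟩ := hX
    exact Reg.retract_left (Retract.ofIso e) ((h A hA).biprod_left (ih hB))

theorem Reg.isSum_right {X : T} (h : ∀ A, 𝒬 A → Reg X A) {n : ℕ} {Y : T} (hY : IsSum 𝒬 n Y) :
    Reg X Y := by
  induction n generalizing Y with
  | zero => exact fun f => ⟨0, IsZero.eq_of_tgt hY _ _⟩
  | succ n ih =>
    obtain ⟨A, B, hA, hB, ⟨e⟩⟩ := hY
    exact Reg.retract_right (Retract.ofIso e) ((h A hA).biprod_right (ih hB))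

theorem Reg.isSum (h : ∀ A B, 𝒬 A → 𝒬 B → Reg A B) {n m : ℕ} {X Y : T} (hX : IsSum 𝒬 n X)
    (hY : IsSum 𝒬 m Y) : Reg X Y :=
  Reg.isSum_left (fun A hA => Reg.isSum_right (fun B hB => h A B hA hB) hY) hX

theorem IsSum.retract [IsIdempotentComplete T] (h : ∀ A B, 𝒬 A → 𝒬 B → Reg A B)
    (hret : ∀ X Y, 𝒬 Y → Nonempty (Retract X Y) → 𝒬 X) {n : ℕ} {X K : T} (hX : IsSum 𝒬 n X)
    (r : Retract K X) : IsSum 𝒬 n K := by
  induction n generalizing X K with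
  | zero =>
    change IsZero K
    rw [IsZero.iff_id_eq_zero, ← r.retract, IsZero.eq_of_tgt hX r.i 0, zero_comp]
  | succ n ih =>
    have hX' := hX
    obtain ⟨A, B, hA, hB, ⟨e⟩⟩ := hX
    have r' : Retract K (A ⊞ B) := r.trans (Retract.ofIso e)
    have hKA : Reg K A := Reg.retract_left r (Reg.isSum_left (fun C hC => h C A hC hA) hX')
    obtain ⟨k, hk⟩ := hKA (r'.i ≫ biprod.fst)
    obtain ⟨f, hf⟩ : ∃ f : K ⟶ A, f = r'.i ≫ biprod.fst := ⟨_, rfl⟩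
    rw [← hf] at hk
    have he : (f ≫ k) ≫ (f ≫ k) = f ≫ k := by
      rw [← Category.assoc, Category.assoc f k f, hk]
    have he' : (𝟙 K - f ≫ k) ≫ (𝟙 K - f ≫ k) = 𝟙 K - f ≫ k := by
      rw [Preadditive.sub_comp, Category.id_comp, Preadditive.comp_sub, Category.comp_id, he,
        sub_self, sub_zero]
    obtain ⟨K₂, i₂, p₂, hip₂, hpi₂⟩ := IsIdempotentComplete.idempotents_split K _ he
    obtain ⟨K₁, i₁, p₁, hip₁, hpi₁⟩ := IsIdempotentComplete.idempotents_split K _ he'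
    have h2 : 𝒬 K₂ := hret _ A hA ⟨i₂ ≫ f, k ≫ p₂, by
      calc (i₂ ≫ f) ≫ k ≫ p₂ = i₂ ≫ (f ≫ k) ≫ p₂ := by simp only [Category.assoc]
        _ = 𝟙 _ := by rw [← hpi₂, Category.assoc, hip₂, Category.comp_id, hip₂]⟩
    have h3 : i₁ ≫ f = 0 := by
      have h4 : (𝟙 K - f ≫ k) ≫ f = 0 := by
        rw [Preadditive.sub_comp, Category.id_comp, Category.assoc, hk, sub_self]
      calc i₁ ≫ f = i₁ ≫ (p₁ ≫ i₁) ≫ f := by rw [Category.assoc, reassoc_of% hip₁]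
        _ = 0 := by rw [hpi₁, h4, comp_zero]
    have r₁ : Retract K₁ B := ⟨i₁ ≫ r'.i ≫ biprod.snd, biprod.inr ≫ r'.r ≫ p₁, by
      have h5 : (biprod.snd ≫ biprod.inr : A ⊞ B ⟶ A ⊞ B) = 𝟙 _ - biprod.fst ≫ biprod.inl := by
        rw [← biprod.total]; abel
      calc (i₁ ≫ r'.i ≫ biprod.snd) ≫ biprod.inr ≫ r'.r ≫ p₁ =
          i₁ ≫ r'.i ≫ (biprod.snd ≫ biprod.inr) ≫ r'.r ≫ p₁ := by simp only [Category.assoc]
        _ = i₁ ≫ (r'.i ≫ r'.r) ≫ p₁ - (i₁ ≫ r'.i ≫ biprod.fst) ≫ biprod.inl ≫ r'.r ≫ p₁ := by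
          rw [h5]
          simp only [Preadditive.sub_comp, Preadditive.comp_sub, Category.assoc,
            Category.id_comp]
        _ = 𝟙 _ := by
          rw [← hf, h3, zero_comp, sub_zero, r'.retract, Category.id_comp, hip₁]⟩
    have e1 : i₂ ≫ p₁ = 0 := by
      have : (i₂ ≫ p₁) ≫ i₁ = 0 := by
        rw [Category.assoc, hpi₁, ← hpi₂, Preadditive.comp_sub, Category.comp_id,
          reassoc_of% hip₂, sub_self]
      calc i₂ ≫ p₁ = ((i₂ ≫ p₁) ≫ i₁) ≫ p₁ := by rw [Category.assoc, hip₁, Category.comp_id]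
        _ = 0 := by rw [this, zero_comp]
    have e2 : i₁ ≫ p₂ = 0 := by
      have : (i₁ ≫ p₂) ≫ i₂ = 0 := by
        rw [Category.assoc, hpi₂, ← Category.assoc, h3, zero_comp]
      calc i₁ ≫ p₂ = ((i₁ ≫ p₂) ≫ i₂) ≫ p₂ := by rw [Category.assoc, hip₂, Category.comp_id]
        _ = 0 := by rw [this, zero_comp]
    refine ⟨K₂, K₁, h2, ih hB r₁, ⟨⟨biprod.lift p₂ p₁, biprod.desc i₂ i₁, ?_, ?_⟩⟩⟩
    · rw [biprod.lift_desc, hpi₂, hpi₁]
      abel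
    · apply biprod.hom_ext'
      · apply biprod.hom_ext
        · simp [hip₂]
        · simp [e1]
      · apply biprod.hom_ext
        · simp [e2]
        · simp [hip₁]

theorem IsSum.biprod {n m : ℕ} {X Y : T} (hX : IsSum 𝒬 n X) (hY : IsSum 𝒬 m Y) :
    ∃ k, IsSum 𝒬 k (X ⊞ Y) := by
  induction n generalizing X with
  | zero =>
    cases m with
    | zero =>
      refine ⟨0, ?_⟩
      change IsZero (X ⊞ Y)
      rw [IsZero.iff_id_eq_zero]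
      apply biprod.hom_ext'
      · exact IsZero.eq_of_src hX _ _
      · exact IsZero.eq_of_src hY _ _
    | succ m =>
      obtain ⟨A, B, hA, hB, ⟨e⟩⟩ := hY
      have e' : X ⊞ Y ≅ Y := ⟨biprod.snd, biprod.inr, by
        rw [← biprod.total, IsZero.eq_of_tgt hX (biprod.fst : X ⊞ Y ⟶ X) 0, zero_comp, zero_add],
        biprod.inr_snd⟩
      exact ⟨m + 1, A, B, hA, hB, ⟨e' ≪≫ e⟩⟩
  | succ n ih =>
    obtain ⟨A, B, hA, hB, ⟨e⟩⟩ := hX
    obtain ⟨k, hk⟩ := ih hB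
    exact ⟨k + 1, A, B ⊞ Y, hA, hk, ⟨biprod.mapIso e (Iso.refl Y) ≪≫ biprod.associator A B Y⟩⟩

theorem IsSum.of_iso {n : ℕ} {X Y : T} (hX : IsSum 𝒬 n X) (e : X ≅ Y) : IsSum 𝒬 n Y := by
  cases n with
  | zero => exact IsZero.of_iso hX e.symm
  | succ n =>
    obtain ⟨A, B, hA, hB, ⟨e'⟩⟩ := hX
    exact ⟨A, B, hA, hB, ⟨e.symm ≪≫ e'⟩⟩

theorem IsSum.shift (hsh : ∀ (X : T) (a : ℤ), 𝒬 X → 𝒬 (X⟦a⟧)) {n : ℕ} {X : T}
    (hX : IsSum 𝒬 n X) (a : ℤ) : IsSum 𝒬 n (X⟦a⟧) := by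
  induction n generalizing X with
  | zero => exact (shiftFunctor T a).map_isZero hX
  | succ n ih =>
    obtain ⟨A, B, hA, hB, ⟨e⟩⟩ := hX
    haveI := preservesBinaryBiproducts_of_preservesBiproducts (shiftFunctor T a)
    exact ⟨A⟦a⟧, B⟦a⟧, hsh A a hA, ih hB,
      ⟨(shiftFunctor T a).mapIso e ≪≫ (shiftFunctor T a).mapBiprod A B⟩⟩

/-- if the objects of a class have regular homomorphism groups, every object generated by them is a
direct sum of them. -/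
theorem isSum_of_generated [IsIdempotentComplete T] (h : ∀ A B, 𝒬 A → 𝒬 B → Reg A B)
    (hret : ∀ X Y, 𝒬 Y → Nonempty (Retract X Y) → 𝒬 X)
    (hsh : ∀ (X : T) (a : ℤ), 𝒬 X → 𝒬 (X⟦a⟧)) (hgen : Generated 𝒬) (M : T) :
    ∃ n, IsSum 𝒬 n M := by
  let P : ObjectProperty T := fun M => ∃ n, IsSum 𝒬 n M
  haveI h0 : P.IsClosedUnderIsomorphisms := ⟨fun e ⟨l, hl⟩ => ⟨l, IsSum.of_iso hl e⟩⟩
  haveI h1 : P.ContainsZero := ⟨⟨0, isZero_zero T, ⟨0, isZero_zero T⟩⟩⟩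
  haveI h2 : P.IsStableUnderShift ℤ := ⟨fun a => ⟨fun X ⟨l, hl⟩ => ⟨l, IsSum.shift hsh hl a⟩⟩⟩
  haveI h3 : P.IsTriangulatedClosed₂ :=
    ObjectProperty.IsTriangulatedClosed₂.mk' fun t ht ⟨l, hl⟩ ⟨l', hl'⟩ => by
      have ht' : Triangle.mk t.mor₁ t.mor₂ t.mor₃ ∈ distTriang T := ht
      obtain ⟨u, hu⟩ := Reg.isSum h hl' (IsSum.shift hsh hl 1) t.mor₃
      obtain ⟨P', Q, p, q, r, hT', ⟨rP⟩, ⟨rQ⟩, ρ, hρ⟩ := swap_aux ht' u hu
      have hP := IsSum.retract h hret hl' rP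
      have hQ1 := IsSum.retract h hret (IsSum.shift hsh hl 1) rQ
      have hQ : IsSum 𝒬 l Q := IsSum.of_iso (IsSum.shift hsh hQ1 (-1))
        ((shiftEquiv T (1 : ℤ)).unitIso.symm.app Q)
      obtain ⟨e⟩ := exists_iso_biprod hT' ρ hρ
      obtain ⟨k, hk⟩ := IsSum.biprod hP hQ
      exact ⟨k, IsSum.of_iso hk e.symm⟩
  refine hgen P h0 {} ?_ M
  intro X hX
  refine ⟨1, X, 0, hX, isZero_zero T, ⟨⟨biprod.inl, biprod.fst, biprod.inl_fst, ?_⟩⟩⟩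
  apply biprod.hom_ext'
  · simp
  · exact (isZero_zero T).eq_of_src _ _

end

end Pool.Agent.W492.PC
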