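import Pool.Agent.W492.PC.Nil
import Pool.Agent.W492.PC.Reg

/-!
# Finite fields
-/

set_option linter.unusedSectionVars false
set_option linter.style.haveILetI false

open CategoryTheory Limits MonoidalCategory Triangulated Pretriangulated ZeroObject

namespace Pool.Agent.W492.PC

open Pool.Agent.W492.MT (tpow ins symm tr IsSum)

open Pool.Agent.W492.TS

universe v u v' u' w

variable {T : Type u} [Category.{v} T] [HasZeroObject T] [HasShift T ℤ] [Preadditive T]
  [∀ n : ℤ, (shiftFunctor T n).Additive] [Pretriangulated T] [IsTriangulated T]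
  [MonoidalCategory T] [SymmetricCategory T] [RightRigidCategory T]
  [∀ X : T, (tensorLeft X).CommShift ℤ] [∀ X : T, (tensorLeft X).IsTriangulated]
  [MonoidalPreadditive T]
  {I : Type w} {D : I → Type u'} [∀ i, Category.{v'} (D i)] [∀ i, HasZeroObject (D i)]
  [∀ i, HasShift (D i) ℤ] [∀ i, Preadditive (D i)]
  [∀ i, ∀ n : ℤ, (shiftFunctor (D i) n).Additive] [∀ i, Pretriangulated (D i)]
  [∀ i, IsTriangulated (D i)] [∀ i, MonoidalCategory (D i)] [∀ i, MonoidalPreadditive (D i)]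
  (R : ∀ i, T ⥤ D i) [∀ i, (R i).CommShift ℤ] [∀ i, (R i).IsTriangulated]
  [∀ i, (R i).Monoidal] (s : ∀ i, TStructure (D i))

/-- The Kuenneth projectors of the realisations of Chow motives are induced by endomorphisms. -/
def KunnethProjectors (𝒞 : ObjectProperty T) : Prop :=
  ∀ X, 𝒞 X → ∀ d : ℤ, ∃ π : X ⟶ X, ∀ i,
    ((s i).truncGELE d d).map ((R i).map π) = 𝟙 _ ∧
      ∀ n, n ≠ d → ((s i).truncGELE n n).map ((R i).map π) = 0

/-- The Frobenius : a natural endomorphism of the identity functor, compatible with shifts, which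
is the identity on the unit and does not have the eigenvalue `1` on the cohomology in degree
`m ≠ 0` of the realisations of a Chow motive. -/
structure IsFrobenius (𝒞 : ObjectProperty T) (Fr : ∀ X : T, X ⟶ X) : Prop where
  natural : ∀ (X Y : T) (f : X ⟶ Y), f ≫ Fr Y = Fr X ≫ f
  unit : Fr (𝟙_ T) = 𝟙 _
  shift : ∀ (X : T) (n : ℤ), Fr (X⟦n⟧) = (Fr X)⟦n⟧'
  weight : ∀ (X : T) (m : ℤ), 𝒞 X → m ≠ 0 → ∀ i,
    IsIso (((s i).truncGELE 0 0).map ((R i).map ((𝟙 X - Fr X)⟦m⟧')))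

/-- every nonzero morphism from a Chow motive to the unit is numerically nontrivial. -/
def RatEqNumAll (𝒞 : ObjectProperty T) : Prop :=
  ∀ X, 𝒞 X → ∀ g : X ⟶ 𝟙_ T, g ≠ 0 → ∃ x : 𝟙_ T ⟶ X, x ≫ g ≠ 0

/-- there are no morphisms of nonzero degree from the unit to a Chow motive. -/
def Parshin (𝒞 : ObjectProperty T) : Prop :=
  ∀ X, 𝒞 X → ∀ m : ℤ, m ≠ 0 → ∀ f : 𝟙_ T ⟶ X⟦m⟧, f = 0

variable {R s} {𝒞 : ObjectProperty T}

theorem isIso_of_H_deg {D : Type u'} [Category.{v'} D] [HasZeroObject D] [HasShift D ℤ]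
    [Preadditive D] [∀ n : ℤ, (shiftFunctor D n).Additive] [Pretriangulated D] [IsTriangulated D]
    (s : TStructure D) (n : ℤ) {A B : D} (f : A ⟶ B) (hA1 : s.IsLE A n) (hA2 : s.IsGE A n)
    (hB1 : s.IsLE B n) (hB2 : s.IsGE B n) (hf : IsIso ((s.truncGELE n n).map f)) : IsIso f := by
  have h8 : IsIso ((s.truncLE n).map f) := by
    have h9 : (s.truncLE n).map f ≫ (s.truncGEπ n).app ((s.truncLE n).obj B) =
        (s.truncGEπ n).app ((s.truncLE n).obj A) ≫ (s.truncGELE n n).map f :=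
      (s.truncGEπ n).naturality _
    have h10 : IsIso ((s.truncLE n).map f ≫ (s.truncGEπ n).app ((s.truncLE n).obj B)) := by
      rw [h9]
      infer_instance
    exact IsIso.of_isIso_comp_right _ ((s.truncGEπ n).app ((s.truncLE n).obj B))
  have h11 : (s.truncLE n).map f ≫ (s.truncLEι n).app B = (s.truncLEι n).app A ≫ f :=
    (s.truncLEι n).naturality _
  have h12 : IsIso ((s.truncLEι n).app A ≫ f) := by
    rw [← h11]
    infer_instance
  exact IsIso.of_isIso_comp_left ((s.truncLEι n).app A) _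

theorem eq_zero_of_H_deg {D : Type u'} [Category.{v'} D] [HasZeroObject D] [HasShift D ℤ]
    [Preadditive D] [∀ n : ℤ, (shiftFunctor D n).Additive] [Pretriangulated D] [IsTriangulated D]
    (s : TStructure D) (n : ℤ) {A B : D} (f : A ⟶ B) (hA1 : s.IsLE A n)
    (hB2 : s.IsGE B n) (hf : (s.truncGELE n n).map f = 0) : f = 0 := by
  have h8 : (s.truncLE n).map f = 0 := by
    have h9 : (s.truncLE n).map f ≫ (s.truncGEπ n).app ((s.truncLE n).obj B) =
        (s.truncGEπ n).app ((s.truncLE n).obj A) ≫ (s.truncGELE n n).map f :=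
      (s.truncGEπ n).naturality _
    rw [hf, comp_zero] at h9
    rw [← cancel_mono ((s.truncGEπ n).app ((s.truncLE n).obj B)), h9, zero_comp]
  have h11 : (s.truncLE n).map f ≫ (s.truncLEι n).app B = (s.truncLEι n).app A ≫ f :=
    (s.truncLEι n).naturality _
  rw [h8, zero_comp] at h11
  rw [← cancel_epi ((s.truncLEι n).app A), ← h11, comp_zero]

theorem IsFrobenius.pure {Fr : ∀ X : T, X ⟶ X} (hF : IsFrobenius R s 𝒞 Fr) {X : T} {d : ℤ}
    (hX : PureAt R s 𝒞 d X) (hd : d ≠ 0) (i : I) : IsIso ((R i).map (𝟙 X - Fr X)) := by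
  have h1 : RDeg R s 0 (X⟦d⟧) := hX.2.shift (by ring)
  have h2 : IsIso ((R i).map ((𝟙 X - Fr X)⟦d⟧')) :=
    isIso_of_H_deg (s i) 0 _ ⟨h1.1 i⟩ ⟨h1.2 i⟩ ⟨h1.1 i⟩ ⟨h1.2 i⟩ (hF.weight X d hX.1 hd i)
  have h3 : (R i).map ((𝟙 X - Fr X)⟦d⟧') ≫ (((R i).commShiftIso d).app X).hom =
      (((R i).commShiftIso d).app X).hom ≫ ((R i).map (𝟙 X - Fr X))⟦d⟧' :=
    ((R i).commShiftIso d).hom.naturality _
  have h4 : IsIso ((((R i).commShiftIso d).app X).hom ≫ ((R i).map (𝟙 X - Fr X))⟦d⟧') := by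
    rw [← h3]
    infer_instance
  have h5 : IsIso (((R i).map (𝟙 X - Fr X))⟦d⟧') :=
    IsIso.of_isIso_comp_left (((R i).commShiftIso d).app X).hom _
  exact isIso_of_reflects_iso _ (shiftFunctor (D i) d)

section
variable (hC : ChowSystem R s 𝒞)
include hC

theorem exists_tr_ne_zero' (hb : RatEqNumAll 𝒞) {Z : T}
    (hZ : 𝒞 Z) (a : Z ⟶ Z) (ha : a ≠ 0) : ∃ h : Z ⟶ Z, tr (h ≫ a) ≠ 0 := by
  have h1 : (Zᘁ ◁ a) ≫ ε_ Z Zᘁ ≠ 0 := fun h => ha (comp_evaluation_injective a h)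
  obtain ⟨x, hx⟩ := hb _ (hC.tensor _ _ (hC.dual _ hZ) hZ) _ h1
  obtain ⟨h, hh⟩ := exists_hom_of_hom x
  refine ⟨h, ?_⟩
  rw [← comp_eq_tr, ← hh]
  exact hx

end

theorem tr_eq_zero_of_map (F : Type*) [Field F] [Linear F T]
    (hone : ∀ e : 𝟙_ T ⟶ 𝟙_ T, ∃ a : F, e = a • 𝟙 _) (i : I) (hD : ¬ IsZero (𝟙_ (D i)))
    {Z : T} (c : Z ⟶ Z) (hc : (R i).map c = 0) : tr c = 0 := by
  by_contra hne
  obtain ⟨a, ha⟩ := hone (tr c)
  have ha0 : a ≠ 0 := by
    rintro rfl
    exact hne (by rw [ha, zero_smul])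
  have h1 : (R i).map (c ▷ Zᘁ) = 0 := by
    rw [Functor.Monoidal.map_whiskerRight, hc, MonoidalPreadditive.zero_whiskerRight, zero_comp,
      comp_zero]
  have h3 : (R i).map (𝟙 (𝟙_ T)) = 0 := by
    have h4 : 𝟙 (𝟙_ T) = (a⁻¹ • η_ Z Zᘁ) ≫ (c ▷ Zᘁ ≫ (β_ Z Zᘁ).hom ≫ ε_ Z Zᘁ) := by
      rw [Linear.smul_comp]
      change _ = a⁻¹ • tr c
      rw [ha, smul_smul, inv_mul_cancel₀ ha0, one_smul]
    rw [h4, (R i).map_comp, (R i).map_comp, h1, zero_comp, comp_zero]
  apply hD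
  have h5 : IsZero ((R i).obj (𝟙_ T)) := by
    rw [IsZero.iff_id_eq_zero, ← CategoryTheory.Functor.map_id, h3]
  exact h5.of_iso (Functor.Monoidal.εIso (R i))

section
variable (hC : ChowSystem R s 𝒞)
include hC

/-- Under 'rational = numerical', an endomorphism acting by zero on the cohomology of one
realisation vanishes. -/
theorem eq_zero_of_H (F : Type*) [Field F] [Linear F T]
    (hone : ∀ e : 𝟙_ T ⟶ 𝟙_ T, ∃ a : F, e = a • 𝟙 _) (i : I) (hD : ¬ IsZero (𝟙_ (D i)))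
    (hbd : Bounded (s i)) (hb : RatEqNumAll 𝒞) {Z : T} (hZ : 𝒞 Z) (a : Z ⟶ Z)
    (ha : ∀ n, ((s i).truncGELE n n).map ((R i).map a) = 0) : a = 0 := by
  by_contra hne
  obtain ⟨h, hh⟩ := exists_tr_ne_zero' hC hb hZ a hne
  apply hh
  let c : End Z := h ≫ a
  have hc : ∀ n, ((s i).truncGELE n n).map ((R i).map (c : Z ⟶ Z)) = 0 := fun n => by
    change ((s i).truncGELE n n).map ((R i).map (h ≫ a)) = 0
    rw [Functor.map_comp, Functor.map_comp, ha n, comp_zero]
  obtain ⟨⟨q, hq⟩, ⟨p, hp⟩⟩ := hbd ((R i).obj Z)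
  have h1 : (s i).IsGE ((R i).obj Z) p := ⟨hp⟩
  have h2 : (s i).IsLE ((R i).obj Z) q := ⟨hq⟩
  let c' : End ((R i).obj Z) := (R i).map (c : Z ⟶ Z)
  have h3 : c' ^ (q - p + 1).toNat = 0 :=
    pow_eq_zero_of_H (s i) _ p c' hc h1 ((s i).isLE_of_le _ q _ (by omega))
  have h4 : ∀ k : ℕ, (R i).map ((c ^ k : End Z) : Z ⟶ Z) = (c' ^ k : End _) := by
    intro k
    induction k with
    | zero =>
      rw [pow_zero, pow_zero]
      exact (R i).map_id Z
    | succ k ih =>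
      rw [pow_succ, pow_succ]
      change (R i).map ((c : Z ⟶ Z) ≫ ((c ^ k : End Z) : Z ⟶ Z)) = _
      rw [(R i).map_comp, ih]
      rfl
  refine hC.trNil Z hZ c ⟨(q - p + 1).toNat, ?_⟩
  by_contra hne2
  obtain ⟨g, hg⟩ := exists_tr_ne_zero' hC hb hZ ((c ^ (q - p + 1).toNat : End Z) : Z ⟶ Z) hne2
  apply hg
  apply tr_eq_zero_of_map (R := R) F hone i hD
  rw [(R i).map_comp, h4, h3]
  exact comp_zero

theorem kunneth_of_projectors [IsIdempotentComplete T] (F : Type*) [Field F] [Linear F T]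
    (hone : ∀ e : 𝟙_ T ⟶ 𝟙_ T, ∃ a : F, e = a • 𝟙 _) (hD : ∀ i, ¬ IsZero (𝟙_ (D i)))
    (hbd : ∀ i, Bounded (s i)) (hb : RatEqNumAll 𝒞) (hK : KunnethProjectors R s 𝒞) (i₀ : I)
    (k : ℕ) (p : ℤ) {X : T} (hX : 𝒞 X) (h1 : (s i₀).IsGE ((R i₀).obj X) p)
    (h2 : (s i₀).IsLE ((R i₀).obj X) (p + k - 1)) :
    ∃ n, IsSum (fun Y => ∃ d, PureAt R s 𝒞 d Y) n X := by
  induction k generalizing X p with
  | zero =>
    refine ⟨0, ?_⟩
    have h3 : IsZero ((R i₀).obj X) :=
      (s i₀).isZero _ (p + (0 : ℕ) - 1) p (by push_cast; omega)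
    change IsZero X
    rw [IsZero.iff_id_eq_zero]
    exact eq_zero_of_H hC F hone i₀ (hD i₀) (hbd i₀) hb hX _
      fun n => (((s i₀).truncGELE n n).map_isZero h3).eq_of_src _ _
  | succ k ih =>
    obtain ⟨π, hπ⟩ := hK X hX p
    have hidem : π ≫ π = π := by
      rw [← sub_eq_zero]
      refine eq_zero_of_H hC F hone i₀ (hD i₀) (hbd i₀) hb hX _ fun n => ?_
      rw [Functor.map_sub, Functor.map_sub, Functor.map_comp, Functor.map_comp]
      by_cases hn : n = p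
      · subst hn
        rw [(hπ i₀).1, Category.comp_id, sub_self]
      · rw [(hπ i₀).2 n hn, comp_zero, sub_zero]
    have hidem' : (𝟙 X - π) ≫ (𝟙 X - π) = 𝟙 X - π := by
      rw [Preadditive.sub_comp, Category.id_comp, Preadditive.comp_sub, Category.comp_id, hidem,
        sub_self, sub_zero]
    obtain ⟨A, j, q, hjq, hqj⟩ := IsIdempotentComplete.idempotents_split X _ hidem
    obtain ⟨B, j', q', hjq', hqj'⟩ := IsIdempotentComplete.idempotents_split X _ hidem'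
    have e1 : j ≫ q' = 0 := by
      have : (j ≫ q') ≫ j' = 0 := by
        rw [Category.assoc, hqj', ← hqj, Preadditive.comp_sub, Category.comp_id,
          reassoc_of% hjq, sub_self]
      calc j ≫ q' = ((j ≫ q') ≫ j') ≫ q' := by rw [Category.assoc, hjq', Category.comp_id]
        _ = 0 := by rw [this, zero_comp]
    have e2 : j' ≫ q = 0 := by
      have : (j' ≫ q) ≫ j = 0 := by
        have h5 : π = 𝟙 X - q' ≫ j' := by rw [hqj']; abel
        rw [Category.assoc, hqj, h5, Preadditive.comp_sub, Category.comp_id,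
          reassoc_of% hjq', sub_self]
      calc j' ≫ q = ((j' ≫ q) ≫ j) ≫ q := by rw [Category.assoc, hjq, Category.comp_id]
        _ = 0 := by rw [this, zero_comp]
    have rA : Retract A X := ⟨j, q, hjq⟩
    have rB : Retract B X := ⟨j', q', hjq'⟩
    have hA : RDeg R s p A := by
      have h6 : ∀ i n, n ≠ p → IsZero (((s i).truncGELE n n).obj ((R i).obj A)) := by
        intro i n hn
        rw [IsZero.iff_id_eq_zero, ← CategoryTheory.Functor.map_id,
          ← CategoryTheory.Functor.map_id]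
        have h7 : 𝟙 A = j ≫ π ≫ q := by rw [← hqj, Category.assoc, hjq, Category.comp_id, hjq]
        rw [h7, Functor.map_comp, Functor.map_comp, Functor.map_comp, Functor.map_comp,
          (hπ i).2 n hn, zero_comp, comp_zero]
      constructor
      · intro i
        obtain ⟨⟨b, hb'⟩, -⟩ := hbd i ((R i).obj A)
        exact (isLE_of_H (s i) b ⟨hb'⟩ fun n hn => h6 i n (by omega)).le
      · intro i
        obtain ⟨-, ⟨a, ha'⟩⟩ := hbd i ((R i).obj A)
        exact (isGE_of_H (s i) a ⟨ha'⟩ fun n hn => h6 i n (by omega)).ge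
    have hB1 : (s i₀).IsGE ((R i₀).obj B) (p + 1) := by
      refine isGE_succ_of_H (s i₀) ⟨ge_retract (s i₀) (rB.map (R i₀)) h1.ge⟩ ?_
      rw [IsZero.iff_id_eq_zero, ← CategoryTheory.Functor.map_id,
        ← CategoryTheory.Functor.map_id]
      have h7 : 𝟙 B = j' ≫ (𝟙 X - π) ≫ q' := by
        rw [← hqj', Category.assoc, hjq', Category.comp_id, hjq']
      rw [h7, Functor.map_comp, Functor.map_comp, Functor.map_comp, Functor.map_comp,
        Functor.map_sub, Functor.map_sub, (hπ i₀).1, CategoryTheory.Functor.map_id,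
        CategoryTheory.Functor.map_id, sub_self, zero_comp, comp_zero]
    have hB2 : (s i₀).IsLE ((R i₀).obj B) (p + 1 + k - 1) := by
      have h8 : p + 1 + (k : ℤ) - 1 = p + ((k + 1 : ℕ) : ℤ) - 1 := by push_cast; ring
      rw [h8]
      exact ⟨le_retract (s i₀) (rB.map (R i₀)) h2.le⟩
    obtain ⟨n, hn⟩ := ih (p + 1) (hC.retract _ _ hX ⟨rB⟩) hB1 hB2
    refine ⟨n + 1, A, B, ⟨p, hC.retract _ _ hX ⟨rA⟩, hA⟩, hn, ⟨?_⟩⟩
    refine ⟨biprod.lift q q', biprod.desc j j', ?_, ?_⟩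
    · rw [biprod.lift_desc, hqj, hqj']
      abel
    · apply biprod.hom_ext'
      · apply biprod.hom_ext
        · simp [hjq]
        · simp [e1]
      · apply biprod.hom_ext
        · simp [e2]
        · simp [hjq']

end

end Pool.Agent.W492.PC
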