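import Pool.Agent.W492.PC.Proj

/-!
# Finite fields : the motivic t-structure exists iff Parshin's conjecture and 'rational = numerical'
hold, iff the category is semisimple
-/

set_option linter.unusedSectionVars false
set_option linter.style.haveILetI false

open CategoryTheory Limits MonoidalCategory Triangulated Pretriangulated ZeroObject

namespace Pool.Agent.W492.PC

open Pool.Agent.W492.MT (tpow ins symm tr IsSum)

open Pool.Agent.W492.TS

universe v u v' u' w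

variable {T : Type u} [Category.{v} T] [HasZeroObject T] [HasShift T ℤ] [Preadditive T]
  [∀ n : ℤ, (shiftFunctor T n).Additive] [Pretriangulated T] [IsTriangulated T]
  [MonoidalCategory T] [SymmetricCategory T] [RightRigidCategory T]
  [∀ X : T, (tensorLeft X).CommShift ℤ] [∀ X : T, (tensorLeft X).IsTriangulated]
  [MonoidalPreadditive T]
  {I : Type w} {D : I → Type u'} [∀ i, Category.{v'} (D i)] [∀ i, HasZeroObject (D i)]
  [∀ i, HasShift (D i) ℤ] [∀ i, Preadditive (D i)]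
  [∀ i, ∀ n : ℤ, (shiftFunctor (D i) n).Additive] [∀ i, Pretriangulated (D i)]
  [∀ i, IsTriangulated (D i)] [∀ i, MonoidalCategory (D i)] [∀ i, MonoidalPreadditive (D i)]
  {R : ∀ i, T ⥤ D i} [∀ i, (R i).CommShift ℤ] [∀ i, (R i).IsTriangulated]
  [∀ i, (R i).Monoidal] {s : ∀ i, TStructure (D i)}
  {𝒞 : ObjectProperty T}

theorem kunneth_of_motivic_projectors [IsIdempotentComplete T] (hC : ChowSystem R s 𝒞) (hK : KunnethProjectors R s 𝒞)
    (hb : ∀ i, Bounded (s i)) {t : TStructure T} (ht : Motivic R s t) (i₀ : I)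
    (hi : ∀ X : T, IsZero ((R i₀).obj X) → IsZero X) : Kunneth R s 𝒞 := by
  refine Motivic.kunneth_of_spl hC hb ht i₀ hi fun X hX n => ?_
  obtain ⟨⟨b, hb'⟩, ⟨a, ha⟩⟩ := hb i₀ ((R i₀).obj X)
  have h1 : t.IsGE X a := ⟨(ht.ge_iff i₀ hi a X).2 ha⟩
  have h2 : t.IsLE X b := ⟨(ht.le_iff i₀ hi b X).2 hb'⟩
  choose π hπ using hK X hX
  have hmap : ∀ m, ((s i₀).truncGELE m m).map ((R i₀).map (∑ d ∈ Finset.Icc a n, π d)) =
      ∑ d ∈ Finset.Icc a n, ((s i₀).truncGELE m m).map ((R i₀).map (π d)) := fun m => by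
    rw [Functor.map_sum, Functor.map_sum]
  refine split_of_projector t h1 h2 n (∑ d ∈ Finset.Icc a n, π d) (fun m hm => ?_)
    (fun m hm => ?_)
  · apply H_eq_zero_of_map (R i₀) (ht.2.2 i₀) hi
    by_cases ham : a ≤ m
    · rw [Functor.map_sub, Functor.map_sub, hmap, Finset.sum_eq_single m,
        (hπ m i₀).1, CategoryTheory.Functor.map_id, CategoryTheory.Functor.map_id, sub_self]
      · intro d _ hd
        exact (hπ d i₀).2 m (Ne.symm hd)
      · intro h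
        exact absurd (Finset.mem_Icc.2 ⟨ham, hm⟩) h
    · exact (isZero_H_of_ge (s i₀) (m := a) (by omega) ⟨ha⟩).eq_of_src _ _
  · apply H_eq_zero_of_map (R i₀) (ht.2.2 i₀) hi
    rw [hmap]
    refine Finset.sum_eq_zero fun d hd => (hπ d i₀).2 m ?_
    have := (Finset.mem_Icc.1 hd).2
    omega

theorem rdeg_unit (hu : ∀ i, SimpleUnit (s i) (𝟙_ (D i))) : RDeg R s 0 (𝟙_ T) :=
  ⟨fun i => ((hu i).of_iso (Functor.Monoidal.εIso (R i))).1,
    fun i => ((hu i).of_iso (Functor.Monoidal.εIso (R i))).2.1⟩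

theorem hom_zero_biprod {A B : T} (m : ℤ) (hA : ∀ f : 𝟙_ T ⟶ A⟦m⟧, f = 0)
    (hB : ∀ f : 𝟙_ T ⟶ B⟦m⟧, f = 0) (f : 𝟙_ T ⟶ (A ⊞ B)⟦m⟧) : f = 0 := by
  have h1 : f ≫ (biprod.fst ≫ biprod.inl + biprod.snd ≫ biprod.inr : A ⊞ B ⟶ A ⊞ B)⟦m⟧' = f := by
    rw [biprod.total, CategoryTheory.Functor.map_id, Category.comp_id]
  rw [← h1, Functor.map_add, Functor.map_comp, Functor.map_comp, Preadditive.comp_add,
    ← Category.assoc, ← Category.assoc, hA (f ≫ _), hB (f ≫ _), zero_comp, zero_comp, add_zero]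

section
variable (hC : ChowSystem R s 𝒞)
include hC

theorem pure_vanish {Fr : ∀ X : T, X ⟶ X} (hF : IsFrobenius R s 𝒞 Fr)
    (ha : UnitVanishing R s 𝒞) (i : I) (hi : (R i).ReflectsIsomorphisms) {X : T} {d m : ℤ}
    (hX : PureAt R s 𝒞 d X) (hdm : d ≠ 0 ∨ m ≠ 0) (f : 𝟙_ T ⟶ X⟦m⟧) : f = 0 := by
  by_cases hd : d = 0
  · subst hd
    have hm : m ≠ 0 := by simpa using hdm
    rcases lt_or_gt_of_ne hm with hlt | hgt
    · exact ha X 0 hX m hlt f
    · exact hC.orth _ _ hC.unit hX.1 m hgt f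
  · haveI := hF.pure hX hd i
    haveI : IsIso (𝟙 X - Fr X) := isIso_of_reflects_iso _ (R i)
    have h1 : f ≫ (𝟙 X - Fr X)⟦m⟧' = 0 := by
      rw [Functor.map_sub, Preadditive.comp_sub, CategoryTheory.Functor.map_id, Category.comp_id,
        ← hF.shift, hF.natural, hF.unit, Category.id_comp, sub_self]
    rw [← cancel_mono ((𝟙 X - Fr X)⟦m⟧'), h1, zero_comp]

theorem parshin_of_motivic {Fr : ∀ X : T, X ⟶ X} (hF : IsFrobenius R s 𝒞 Fr)
    (hK : Kunneth R s 𝒞)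
    (ha : UnitVanishing R s 𝒞) (i : I) (hi : (R i).ReflectsIsomorphisms) : Parshin 𝒞 := by
  intro X hX m hm
  obtain ⟨n, hn⟩ := hK X hX
  clear hX
  induction n generalizing X with
  | zero => exact fun f => ((shiftFunctor T m).map_isZero hn).eq_of_tgt _ _
  | succ n ih =>
    obtain ⟨A, B, ⟨d, hA⟩, hB, ⟨e⟩⟩ := hn
    have h1 := hom_zero_biprod m (pure_vanish hC hF ha i hi hA (Or.inr hm)) (ih B hB)
    exact hom_zero_of_iso ((shiftFunctor T m).mapIso e.symm) h1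

theorem ratEqNumAll_of_motivic (hu : ∀ i, SimpleUnit (s i) (𝟙_ (D i)))
    (hs : ∀ i, TensorExact (s i)) {Fr : ∀ X : T, X ⟶ X} (hF : IsFrobenius R s 𝒞 Fr)
    (hK : Kunneth R s 𝒞) (ha : UnitVanishing R s 𝒞) (hb : RatEqNum R s 𝒞) (i : I)
    (hi : (R i).ReflectsIsomorphisms) : RatEqNumAll 𝒞 := by
  intro X hX g hg
  obtain ⟨n, hn⟩ := hK X hX
  clear hX
  induction n generalizing X with
  | zero => exact absurd (IsZero.eq_of_src hn g 0) hg
  | succ n ih =>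
    obtain ⟨A, B, ⟨d, hA⟩, hB, ⟨e⟩⟩ := hn
    by_cases h1 : biprod.inl ≫ e.inv ≫ g = 0
    · by_cases h2 : biprod.inr ≫ e.inv ≫ g = 0
      · exfalso
        apply hg
        rw [← cancel_epi e.inv, comp_zero]
        apply biprod.hom_ext'
        · rw [h1, comp_zero]
        · rw [h2, comp_zero]
      · obtain ⟨x, hx⟩ := ih B _ h2 hB
        exact ⟨x ≫ biprod.inr ≫ e.inv, by simpa using hx⟩
    · by_cases hd : d = 0
      · subst hd
        let φ : A⟦(0 : ℤ)⟧ ≅ A := (shiftFunctorZero T ℤ).app A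
        obtain ⟨x, hx⟩ := hb A 0 hA (φ.hom ≫ biprod.inl ≫ e.inv ≫ g) (fun h => h1 (by
          rw [← cancel_epi φ.hom, h, comp_zero]))
        exact ⟨x ≫ φ.hom ≫ biprod.inl ≫ e.inv, by simpa using hx⟩
      · exfalso
        apply h1
        refine hom_zero_of_dual ?_ _
        have h3 : PureAt R s 𝒞 (-d + 0) (Aᘁ ⊗ 𝟙_ T) :=
          pureAt_dual_tensor hC hs hA ⟨hC.unit, rdeg_unit hu⟩
        exact hom_zero_of_iso ((shiftFunctorZero T ℤ).app _)
          (pure_vanish hC hF ha i hi (m := 0) h3 (Or.inl (by omega)))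

theorem exists_tr_unit (hb : RatEqNumAll 𝒞) {X : T} (hX : 𝒞 X) (f : 𝟙_ T ⟶ X) (hf : f ≠ 0) :
    ∃ h : X ⟶ 𝟙_ T, tr (h ≫ f) ≠ 0 := by
  have h1 : (Xᘁ ◁ f) ≫ ε_ X Xᘁ ≠ 0 := fun h => hf (comp_evaluation_injective f h)
  obtain ⟨x, hx⟩ := hb _ (hC.tensor _ _ (hC.dual _ hX) hC.unit) _ h1
  obtain ⟨h, hh⟩ := exists_hom_of_hom x
  refine ⟨h, ?_⟩
  rw [← comp_eq_tr, ← hh]
  exact hx

theorem unitVanishing_of_parshin (F : Type*) [Field F] [Linear F T]
    (hone : ∀ e : 𝟙_ T ⟶ 𝟙_ T, ∃ a : F, e = a • 𝟙 _) (hD : ∀ i, ¬ IsZero (𝟙_ (D i)))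
    (hu : ∀ i, SimpleUnit (s i) (𝟙_ (D i))) (i : I)
    (hp : Parshin 𝒞) (hb : RatEqNumAll 𝒞) : UnitVanishing R s 𝒞 := by
  intro X d hX m hm
  by_cases hm0 : m = 0
  · subst hm0
    refine hom_zero_of_iso ((shiftFunctorZero T ℤ).app X).symm ?_
    intro f
    by_contra hf
    obtain ⟨h, hh⟩ := exists_tr_unit hC hb hX.1 f hf
    apply hh
    apply tr_eq_zero_of_map (R := R) F hone i (hD i)
    have h1 : (s i).IsLE ((R i).obj (𝟙_ T)) 0 := ⟨(rdeg_unit (R := R) hu).1 i⟩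
    have h2 : (s i).IsGE ((R i).obj X) d := ⟨hX.2.2 i⟩
    rw [Functor.map_comp, (s i).zero_of_isLE_of_isGE ((R i).map f) 0 d hm h1 h2, comp_zero]
  · exact hp X hX.1 m hm0

theorem ratEqNum_of_parshin (hp : Parshin 𝒞) (hb : RatEqNumAll 𝒞) : RatEqNum R s 𝒞 := by
  intro X d hX g hg
  by_cases hd : d = 0
  · subst hd
    let φ : X⟦(0 : ℤ)⟧ ≅ X := (shiftFunctorZero T ℤ).app X
    obtain ⟨x, hx⟩ := hb X hX.1 (φ.inv ≫ g) (fun h => hg (by
      rw [← cancel_epi φ.inv, h, comp_zero]))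
    exact ⟨x ≫ φ.inv, by simpa using hx⟩
  · exfalso
    apply hg
    have h1 : ∀ f : X⟦d⟧ ⟶ (𝟙_ T)⟦(0 : ℤ)⟧⟦(0 : ℤ)⟧, f = 0 := by
      refine hom_zero_shift d 0 0 (-d) (by ring) (hom_zero_of_dual ?_)
      exact hom_zero_of_iso (((tensorLeft Xᘁ).commShiftIso (-d)).app (𝟙_ T)).symm
        (hp _ (hC.tensor _ _ (hC.dual _ hX.1) hC.unit) _ (by omega))
    exact hom_zero_iso (Iso.refl _)
      ((shiftFunctorZero T ℤ).app _ ≪≫ (shiftFunctorZero T ℤ).app _) h1 g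

/-- The Chow motives form a regular category under 'rational = numerical'. -/
theorem reg_chow (F : Type*) [Field F] [Linear F T] [MonoidalLinear F T]
    (hone : ∀ e : 𝟙_ T ⟶ 𝟙_ T, ∃ a : F, e = a • 𝟙 _) (hb : RatEqNumAll 𝒞) {P Q : T}
    (hP : 𝒞 P) (hQ : 𝒞 Q) : Reg P Q := by
  intro f
  have hZ : 𝒞 (P ⊞ Q) := hC.sum _ _ hP hQ
  obtain ⟨H, hH⟩ := exists_quasi_inverse F hone (hC.finRank _ hZ) (hC.trNil _ hZ)
    (exists_tr_ne_zero' hC hb hZ) (biprod.fst ≫ f ≫ biprod.inr)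
  refine ⟨biprod.inr ≫ H ≫ biprod.fst, ?_⟩
  have h1 := congrArg (fun k => biprod.inl ≫ k ≫ biprod.snd) hH
  simpa using h1

/-- Under Parshin's conjecture and 'rational = numerical', `T` is semisimple. -/
theorem reg_all [IsIdempotentComplete T] (F : Type*) [Field F] [Linear F T] [MonoidalLinear F T]
    (hone : ∀ e : 𝟙_ T ⟶ 𝟙_ T, ∃ a : F, e = a • 𝟙 _) (hp : Parshin 𝒞) (hb : RatEqNumAll 𝒞)
    (X Y : T) : Reg X Y := by
  let 𝒦 : ObjectProperty T := fun X => ∃ m : ℤ, 𝒞 (X⟦m⟧)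
  have hret : ∀ X Y, 𝒦 Y → Nonempty (Retract X Y) → 𝒦 X := fun X Y ⟨m, hm⟩ ⟨r⟩ =>
    ⟨m, hC.retract _ _ hm ⟨r.map _⟩⟩
  have hsh : ∀ (X : T) (a : ℤ), 𝒦 X → 𝒦 (X⟦a⟧) := fun X a ⟨m, hm⟩ =>
    ⟨m - a, hC.retract _ _ hm ⟨Retract.ofIso (shiftIso X a (m - a) m (by ring))⟩⟩
  have h : ∀ A B, 𝒦 A → 𝒦 B → Reg A B := by
    rintro A B ⟨m, hA⟩ ⟨n, hB⟩ f
    by_cases hmn : m = n
    · subst hmn
      obtain ⟨k, hk⟩ := reg_chow hC F hone hb hA hB (f⟦m⟧')
      obtain ⟨h, rfl⟩ := exists_unshift m k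
      refine ⟨h, (shiftFunctor T m).map_injective ?_⟩
      rw [Functor.map_comp, Functor.map_comp, hk]
    · refine ⟨0, ?_⟩
      have h0 : f = 0 := by
        have h1 : ∀ g : A⟦m⟧ ⟶ B⟦n⟧⟦m - n⟧, g = 0 := by
          refine hom_zero_of_dual ?_
          exact hom_zero_of_iso (((tensorLeft ((A⟦m⟧ : T)ᘁ)).commShiftIso (m - n)).app
            (B⟦n⟧)).symm (hp _ (hC.tensor _ _ (hC.dual _ hA) hB) _ (by omega))
        apply (shiftFunctor T m).map_injective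
        rw [Functor.map_zero]
        exact hom_zero_iso (Iso.refl _) (shiftIso B n (m - n) m (by ring)) h1 _
      rw [h0, zero_comp]
  have hgen : Generated 𝒦 := by
    intro P hP1 hP2 hP M
    refine hC.gen P hP1 hP2 (fun X hX => hP X ⟨0, ?_⟩) M
    exact hC.retract _ _ hX ⟨Retract.ofIso ((shiftFunctorZero T ℤ).app X)⟩
  obtain ⟨n, hn⟩ := isSum_of_generated h hret hsh hgen X
  obtain ⟨m, hm⟩ := isSum_of_generated h hret hsh hgen Y
  exact Reg.isSum h hn hm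

/-- If `T` is semisimple, Parshin's conjecture and 'rational = numerical' hold. -/
theorem of_reg_all (F : Type*) [Field F] [Linear F T]
    (hone : ∀ e : 𝟙_ T ⟶ 𝟙_ T, ∃ a : F, e = a • 𝟙 _) (i : I) (hD : ¬ IsZero (𝟙_ (D i)))
    (hu : ∀ i, SimpleUnit (s i) (𝟙_ (D i))) {Fr : ∀ X : T, X ⟶ X} (hF : IsFrobenius R s 𝒞 Fr)
    (h : ∀ X Y : T, Reg X Y) : Parshin 𝒞 ∧ RatEqNumAll 𝒞 := by
  constructor
  · intro X hX m hm f
    by_contra hf
    obtain ⟨k, hk⟩ := h _ _ f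
    obtain ⟨a, ha⟩ := hone (f ≫ k)
    have ha0 : a ≠ 0 := by
      rintro rfl
      apply hf
      rw [← hk, ← Category.assoc, ha, zero_smul, zero_comp]
    have hr : f ≫ (a⁻¹ • k) = 𝟙 _ := by
      rw [Linear.comp_smul, ha, smul_smul, inv_mul_cancel₀ ha0, one_smul]
    have h1 : f ≫ (𝟙 X - Fr X)⟦m⟧' = 0 := by
      rw [Functor.map_sub, Preadditive.comp_sub, CategoryTheory.Functor.map_id, Category.comp_id,
        ← hF.shift, hF.natural, hF.unit, Category.id_comp, sub_self]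
    haveI := hF.weight X m hX hm i
    have h2 : ((s i).truncGELE 0 0).map ((R i).map f) = 0 := by
      rw [← cancel_mono (((s i).truncGELE 0 0).map ((R i).map ((𝟙 X - Fr X)⟦m⟧'))),
        ← Functor.map_comp, ← Functor.map_comp, h1, Functor.map_zero, Functor.map_zero,
        zero_comp]
    have h3 : ((s i).truncGELE 0 0).map ((R i).map (𝟙 (𝟙_ T))) = 0 := by
      rw [← hr, Functor.map_comp, Functor.map_comp, h2, zero_comp]
    have h4 : (R i).map (𝟙 (𝟙_ T)) = 0 :=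
      eq_zero_of_H_deg (s i) 0 _ ⟨(rdeg_unit (R := R) hu).1 i⟩ ⟨(rdeg_unit (R := R) hu).2 i⟩ h3
    apply hD
    have h5 : IsZero ((R i).obj (𝟙_ T)) := by
      rw [IsZero.iff_id_eq_zero, ← CategoryTheory.Functor.map_id, h4]
    exact h5.of_iso (Functor.Monoidal.εIso (R i))
  · intro X hX g hg
    obtain ⟨k, hk⟩ := h _ _ g
    refine ⟨k, fun h0 => hg ?_⟩
    rw [← hk, h0, comp_zero]

end

/-- Finite fields : the t-structure exists if and only if Parshin's conjecture and 'rational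
equivalence = numerical equivalence' hold, if and only if `T` is semisimple. -/
theorem finite_field_tfae [Nonempty I] [IsIdempotentComplete T] (F : Type*) [Field F] [CharZero F]
    [Linear F T] [MonoidalLinear F T]
    (hone : ∀ e : 𝟙_ T ⟶ 𝟙_ T, ∃ a : F, e = a • 𝟙 _)
    (hb : ∀ i, Bounded (s i)) (hs : ∀ i, TensorExact (s i))
    (hD : ∀ i, ¬ IsZero (𝟙_ (D i)))
    (hu : ∀ i, SimpleUnit (s i) (𝟙_ (D i))) (hodd : OddFinite R s)
    (hC : ChowSystem R s 𝒞) (hK : KunnethProjectors R s 𝒞)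
    {Fr : ∀ X : T, X ⟶ X} (hF : IsFrobenius R s 𝒞 Fr) :
    List.TFAE [
      HasMotivicTStructure R s,
      Parshin 𝒞 ∧ RatEqNumAll 𝒞,
      ∀ (X Y : T) (f : X ⟶ Y), ∃ h : Y ⟶ X, f ≫ h ≫ f = f] := by
  have i₀ : I := Classical.arbitrary I
  obtain ⟨hT0, hone'⟩ := idem_of_scalar R F hone i₀ (hD i₀)
  have h14 := (main (R := R) (s := s) hone' hD hb hs).out 0 3
  have hKm : HasMotivicTStructure R s → Kunneth R s 𝒞 := by
    rintro ⟨t, h1, h2, h3⟩
    have ht : Motivic R s t := ⟨h1, h2.heart, h3⟩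
    exact kunneth_of_motivic_projectors hC hK hb ht i₀ (ht.isZero hone' hD i₀)
  have h12 := (tfae_of_chow F hone hb hs hD hu hodd hC hKm).out 0 1
  tfae_have 1 → 2 := by
    intro h
    obtain ⟨h1, h2, h3⟩ := h12.1 h
    have hcons : (R i₀).ReflectsIsomorphisms := (h14.1 h).1 i₀
    exact ⟨parshin_of_motivic hC hF h1 h2 i₀ hcons,
      ratEqNumAll_of_motivic hC hu hs hF h1 h2 h3 i₀ hcons⟩
  tfae_have 2 → 1 := by
    rintro ⟨hp, hr⟩
    refine h12.2 ⟨?_, unitVanishing_of_parshin hC F hone hD hu i₀ hp hr,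
      ratEqNum_of_parshin hC hp hr⟩
    intro X hX
    obtain ⟨⟨b, hb'⟩, ⟨a, ha⟩⟩ := hb i₀ ((R i₀).obj X)
    exact kunneth_of_projectors hC F hone hD hb hr hK i₀ (b - a + 1).toNat a hX ⟨ha⟩
      (@TStructure.isLE_of_le _ _ _ _ _ _ _ (s i₀) _ b _ (by omega) ⟨hb'⟩)
  tfae_have 2 → 3 := fun ⟨hp, hr⟩ => reg_all hC F hone hp hr
  tfae_have 3 → 2 := fun h => of_reg_all hC F hone i₀ (hD i₀) hu hF h
  tfae_finish

end Pool.Agent.W492.PC
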