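import Pool.Agent.W492.PC.FF2

/-!
# The two criteria
-/

set_option linter.unusedSectionVars false
set_option linter.style.haveILetI false

open CategoryTheory Limits MonoidalCategory Triangulated Pretriangulated ZeroObject

namespace Pool.Agent.W492.PC

open Pool.Agent.W492.TS

universe v u v' u' w

variable {T : Type u} [Category.{v} T] [HasZeroObject T] [HasShift T ℤ] [Preadditive T]
  [∀ n : ℤ, (shiftFunctor T n).Additive] [Pretriangulated T] [IsTriangulated T]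
  [IsIdempotentComplete T]
  [MonoidalCategory T] [SymmetricCategory T] [RightRigidCategory T]
  [∀ X : T, (tensorLeft X).CommShift ℤ] [∀ X : T, (tensorLeft X).IsTriangulated]
  [MonoidalPreadditive T]
  {I : Type w} [Nonempty I] {D : I → Type u'} [∀ i, Category.{v'} (D i)]
  [∀ i, HasZeroObject (D i)]
  [∀ i, HasShift (D i) ℤ] [∀ i, Preadditive (D i)]
  [∀ i, ∀ n : ℤ, (shiftFunctor (D i) n).Additive] [∀ i, Pretriangulated (D i)]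
  [∀ i, IsTriangulated (D i)] [∀ i, MonoidalCategory (D i)] [∀ i, MonoidalPreadditive (D i)]
  {R : ∀ i, T ⥤ D i} [∀ i, (R i).CommShift ℤ] [∀ i, (R i).IsTriangulated]
  [∀ i, (R i).Monoidal] {s : ∀ i, TStructure (D i)}
  {F : Type} [Field F] [CharZero F] [Linear F T] [MonoidalLinear F T]
  {𝒞 : ObjectProperty T}

theorem chow_of_setup (h : MT.Setup R s 𝒞 F) : ChowSystem R s 𝒞 where
  unit := h.one_mem
  tensor := h.tensor_mem
  dual := h.dual_mem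
  sum := h.sum_mem
  retract := h.retract_mem
  orth := h.orth
  gen := h.gen
  dualDeg := h.dual_deg
  finRank := h.finRank
  trNil := h.trNil

theorem lefschetzSystem (h : MT.Lefschetz R s 𝒞) : LefschetzSystem R s 𝒞 := fun X hX => by
  obtain ⟨V, c, h1, h2, h3⟩ := h X hX
  exact ⟨V, c, h1, h3, h2⟩

theorem general_criterion (h : MT.Setup R s 𝒞 F) (hL : MT.Lefschetz R s 𝒞) :
    List.TFAE [
      ∃ t : TStructure T, MT.NonDegenerate t ∧ MT.TensorExact t ∧ ∀ i, MT.TExact t (s i) (R i),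
      MT.Kunneth R s 𝒞 ∧ ∀ (X : T) (d : ℤ), 𝒞 X → MT.InDeg R s d X →
        (∀ m : ℤ, m < d → ∀ f : 𝟙_ T ⟶ X⟦m⟧, f = 0) ∧
          ∀ g : X⟦d⟧ ⟶ 𝟙_ T, g ≠ 0 → ∃ x : 𝟙_ T ⟶ X⟦d⟧, x ≫ g ≠ 0,
      MT.Kunneth R s 𝒞 ∧ ∃ i, (R i).ReflectsIsomorphisms ∧
        ∀ (X : T) (d : ℤ), 𝒞 X → MT.InDeg R s d X →
          (∀ m : ℤ, m < d → ∀ f : 𝟙_ T ⟶ X⟦m⟧, f = 0) ∧
            ∀ g : X⟦d⟧ ⟶ 𝟙_ T, (R i).map g = 0 → g = 0] := by
  have i₀ : I := Classical.arbitrary I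
  obtain ⟨-, hone'⟩ := idem_of_scalar R F h.scalar i₀ (h.unit_ne i₀)
  have key := tfae_of_chow F h.scalar h.bounded h.tensorExact h.unit_ne h.unit_simple h.oddFinite
    (chow_of_setup h) (fun ⟨t, h1, h2, h3⟩ =>
      kunneth_of_motivic (chow_of_setup h) (lefschetzSystem hL) h.bounded h.tensorExact
        ⟨h1, h2.heart, h3⟩ i₀ (Motivic.isZero hone' h.unit_ne ⟨h1, h2.heart, h3⟩ i₀))
  have k12 := key.out 0 1
  have k13 := key.out 0 2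
  tfae_have 1 ↔ 2 := by
    refine k12.trans ⟨fun ⟨h1, h2, h3⟩ => ⟨h1, fun X d hX hd => ⟨h2 X d ⟨hX, hd⟩, h3 X d ⟨hX, hd⟩⟩⟩,
      fun ⟨h1, h2⟩ => ⟨h1, fun X d hX => (h2 X d hX.1 hX.2).1,
        fun X d hX => (h2 X d hX.1 hX.2).2⟩⟩
  tfae_have 1 ↔ 3 := by
    refine k13.trans ⟨fun ⟨h1, h2, i, h3, h4⟩ => ⟨h1, i, h3,
      fun X d hX hd => ⟨h2 X d ⟨hX, hd⟩, h4 X d ⟨hX, hd⟩⟩⟩,
      fun ⟨h1, i, h3, h2⟩ => ⟨h1, fun X d hX => (h2 X d hX.1 hX.2).1, i, h3,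
        fun X d hX => (h2 X d hX.1 hX.2).2⟩⟩
  tfae_finish

theorem finite_field_criterion (h : MT.Setup R s 𝒞 F) {Fr : ∀ X : T, X ⟶ X}
    (hW : MT.Weil R s 𝒞 Fr) :
    List.TFAE [
      ∃ t : TStructure T, MT.NonDegenerate t ∧ MT.TensorExact t ∧ ∀ i, MT.TExact t (s i) (R i),
      ∀ X, 𝒞 X → (∀ m : ℤ, m ≠ 0 → ∀ f : 𝟙_ T ⟶ X⟦m⟧, f = 0) ∧
        ∀ g : X ⟶ 𝟙_ T, g ≠ 0 → ∃ x : 𝟙_ T ⟶ X, x ≫ g ≠ 0,
      ∀ (X Y : T) (f : X ⟶ Y), ∃ h : Y ⟶ X, f ≫ h ≫ f = f] := by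
  have key := finite_field_tfae F h.scalar h.bounded h.tensorExact h.unit_ne h.unit_simple
    h.oddFinite (chow_of_setup h) hW.projector (Fr := Fr)
    ⟨hW.natural, hW.unit, hW.shift, hW.weight⟩
  have k12 := key.out 0 1
  have k13 := key.out 0 2
  tfae_have 1 ↔ 2 := by
    refine k12.trans ⟨fun ⟨h1, h2⟩ => fun X hX => ⟨h1 X hX, h2 X hX⟩,
      fun h1 => ⟨fun X hX => (h1 X hX).1, fun X hX => (h1 X hX).2⟩⟩
  tfae_have 1 ↔ 3 := k13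
  tfae_finish

end Pool.Agent.W492.PC
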