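import Pool.Agent.W492.PC.Ded

/-!
# The consequences of a motivic t-structure
-/

set_option linter.unusedSectionVars false
set_option linter.style.haveILetI false

open CategoryTheory Limits MonoidalCategory Triangulated Pretriangulated ZeroObject

namespace Pool.Agent.W492.PC

open Pool.Agent.W492.MT (tpow ins symm tr IsSum)

open Pool.Agent.W492.TS

universe v u v' u' w

variable {T : Type u} [Category.{v} T] [HasZeroObject T] [HasShift T ℤ] [Preadditive T]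
  [∀ n : ℤ, (shiftFunctor T n).Additive] [Pretriangulated T] [IsTriangulated T]
  [MonoidalCategory T] [SymmetricCategory T] [RightRigidCategory T]
  [∀ X : T, (tensorLeft X).CommShift ℤ] [∀ X : T, (tensorLeft X).IsTriangulated]
  {I : Type w} {D : I → Type u'} [∀ i, Category.{v'} (D i)] [∀ i, HasZeroObject (D i)]
  [∀ i, HasShift (D i) ℤ] [∀ i, Preadditive (D i)]
  [∀ i, ∀ n : ℤ, (shiftFunctor (D i) n).Additive] [∀ i, Pretriangulated (D i)]
  [∀ i, IsTriangulated (D i)] [∀ i, MonoidalCategory (D i)] [∀ i, MonoidalPreadditive (D i)]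
  {R : ∀ i, T ⥤ D i} [∀ i, (R i).CommShift ℤ] [∀ i, (R i).IsTriangulated]
  [∀ i, (R i).Monoidal] {s : ∀ i, TStructure (D i)} [MonoidalPreadditive T]
  {𝒞 : ObjectProperty T}

/-- The objects with realisations concentrated in degree `-1` have finite dimensional realisations:
some symmetric power of such an object is killed by the realisations (Koszul sign rule). -/
def OddFinite (R : ∀ i, T ⥤ D i) (s : ∀ i, TStructure (D i)) : Prop :=
  ∀ (W : T) (i : I), (s i).le (-1) ((R i).obj W) → (s i).ge (-1) ((R i).obj W) →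
    ∃ n, (R i).map (symm W n) = 0

theorem Motivic.unitVanishing {t : TStructure T} (ht : Motivic R s t) (i : I)
    (hi : ∀ X : T, IsZero ((R i).obj X) → IsZero X) : UnitVanishing R s 𝒞 := by
  intro X d hX m hm f
  obtain ⟨h1, -⟩ := unit_mem_heart ht.1 ht.2.1
  have h2 : t.IsGE X d := ⟨(ht.ge_iff i hi d X).2 (hX.2.2 i)⟩
  have h3 : t.IsGE (X⟦m⟧) (d - m) := t.isGE_shift X d m (d - m)
  exact t.zero_of_isLE_of_isGE f 0 (d - m) (by omega) h1 h3

theorem tpow_mem (hC : ChowSystem R s 𝒞) {X : T} (hX : 𝒞 X) (a : ℕ) : 𝒞 (tpow X a) := by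
  induction a with
  | zero => exact hC.unit
  | succ a ih => exact hC.tensor _ _ hX ih

theorem tpow_shift (X : T) (d : ℤ) (a : ℕ) : Nonempty (tpow (X⟦d⟧) a ≅ (tpow X a)⟦a * d⟧) := by
  induction a with
  | zero =>
    exact ⟨(shiftFunctorZero' T _ (by simp)).symm.app (𝟙_ T)⟩
  | succ a ih =>
    obtain ⟨e⟩ := ih
    exact ⟨whiskerLeftIso (X⟦d⟧) e ≪≫ tensorShiftIso X (tpow X a) d (a * d) _ (by push_cast; ring)⟩

theorem pos_of_chow (hC : ChowSystem R s 𝒞) {X : T} (hX : 𝒞 X) {d : ℤ} (hd : 0 ≤ d) :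
    Pos (X⟦d⟧) ((X⟦d⟧)⟦(1 : ℤ)⟧) := by
  intro a m f
  obtain ⟨e⟩ := tpow_shift X d a
  have h1 : 𝒞 (tpow X a ⊗ X) := hC.tensor _ _ (tpow_mem hC hX a) hX
  have h2 : (0 : ℤ) < a * d + (d + 1) + m := by positivity
  refine hom_zero_of_iso ?_ (hC.orth _ _ hC.unit h1 _ h2) f
  refine ?_ ≪≫ (shiftFunctor T (m : ℤ)).mapIso
    (whiskerRightIso e (X⟦d⟧⟦(1 : ℤ)⟧) ≪≫
      whiskerLeftIso _ (shiftIso X d 1 (d + 1) rfl) ≪≫
      tensorShiftIso (tpow X a) X (a * d) (d + 1) _ rfl).symm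
  exact (shiftIso (tpow X a ⊗ X) _ _ _ rfl).symm

theorem Motivic.ratEqNum (F : Type*) [Field F] [CharZero F] [Linear F T]
    (hC : ChowSystem R s 𝒞) {t : TStructure T} (ht : Motivic R s t) (i : I)
    (hi : ∀ X : T, IsZero ((R i).obj X) → IsZero X)
    (hu : SimpleUnit (s i) (𝟙_ (D i))) (hodd : OddFinite R s)
    (h0 : 𝟙 (𝟙_ T) ≠ 0) : RatEqNum R s 𝒞 := by
  intro X d hX g hg
  have hX1 := (ht.le_iff i hi d X).2 (hX.2.1 i)
  have hX2 := (ht.ge_iff i hi d X).2 (hX.2.2 i)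
  by_cases hd : 0 ≤ d
  · refine exists_splitting (R i) F (ht.2.2 i) hi (hu.of_iso (Functor.Monoidal.εIso (R i)))
      (fun W h1 h2 => hodd W i h1 h2) h0 ?_ ?_ ?_ (pos_of_chow hC hX.1 hd) g hg
    · exact (unit_mem_heart ht.1 ht.2.1).2.ge
    · exact t.le_shift d d 0 (by ring) _ hX1
    · exact t.ge_shift d d 0 (by ring) _ hX2
  · exfalso
    apply hg
    have h2 : ∀ f : X⟦d⟧ ⟶ (𝟙_ T)⟦(0 : ℤ)⟧⟦(0 : ℤ)⟧, f = 0 :=
      hom_zero_shift _ _ _ (-d) (by ring) (hC.orth _ _ hX.1 hC.unit _ (by omega))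
    exact hom_zero_iso (Iso.refl _)
      ((shiftFunctorZero T ℤ).app _ ≪≫ (shiftFunctorZero T ℤ).app _) h2 g

end Pool.Agent.W492.PC
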