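import Pool.Agent.W492.PC.Lef

/-!
# Hard Lefschetz and a motivic t-structure give Kuenneth decompositions (Deligne)
-/

set_option linter.unusedSectionVars false
set_option linter.style.haveILetI false

open CategoryTheory Limits MonoidalCategory Triangulated Pretriangulated ZeroObject

namespace Pool.Agent.W492.PC

open Pool.Agent.W492.MT (tpow ins symm tr IsSum)

open Pool.Agent.W492.TS

universe v u v' u' w

section
variable {T : Type u} [Category.{v} T] [HasZeroObject T] [HasShift T ℤ] [Preadditive T]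
  [∀ n : ℤ, (shiftFunctor T n).Additive] [Pretriangulated T] [IsTriangulated T]

theorem isZero_H_of_ge (s : TStructure T) {n m : ℤ} (h : n < m) {X : T} (hX : s.IsGE X m) :
    IsZero ((s.truncGELE n n).obj X) := by
  haveI : s.IsGE X (n + 1) := s.isGE_of_ge X (n + 1) m (by omega)
  exact (s.truncGE n).map_isZero (s.isZero_truncLE_obj_of_isGE n (n + 1) rfl X)

theorem isZero_H_of_le (s : TStructure T) {n m : ℤ} (h : m < n) {X : T} (hX : s.IsLE X m) :
    IsZero ((s.truncGELE n n).obj X) := by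
  haveI : s.IsLE X n := s.isLE_of_le X m n (by omega)
  have h1 : s.IsLE ((s.truncLE n).obj X) m := by infer_instance
  haveI : s.IsLE ((s.truncLE n).obj X) (n - 1) := s.isLE_of_le _ m (n - 1) (by omega)
  exact s.isZero_truncGE_obj_of_isLE (n - 1) n (by ring) _

end

variable {T : Type u} [Category.{v} T] [HasZeroObject T] [HasShift T ℤ] [Preadditive T]
  [∀ n : ℤ, (shiftFunctor T n).Additive] [Pretriangulated T] [IsTriangulated T]
  [MonoidalCategory T] [SymmetricCategory T] [RightRigidCategory T]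
  [∀ X : T, (tensorLeft X).CommShift ℤ] [∀ X : T, (tensorLeft X).IsTriangulated]
  {I : Type w} {D : I → Type u'} [∀ i, Category.{v'} (D i)] [∀ i, HasZeroObject (D i)]
  [∀ i, HasShift (D i) ℤ] [∀ i, Preadditive (D i)]
  [∀ i, ∀ n : ℤ, (shiftFunctor (D i) n).Additive] [∀ i, Pretriangulated (D i)]
  [∀ i, IsTriangulated (D i)] [∀ i, MonoidalCategory (D i)] [∀ i, MonoidalPreadditive (D i)]
  (R : ∀ i, T ⥤ D i) [∀ i, (R i).CommShift ℤ] [∀ i, (R i).IsTriangulated]
  [∀ i, (R i).Monoidal] (s : ∀ i, TStructure (D i)) [MonoidalPreadditive T]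

/-- The hard Lefschetz property (with centre `c`) : for every `m` there are an invertible object
`J` in degree `-2m` and a morphism `φ : V ⟶ J ⊗ V` inducing an isomorphism on the cohomology of the
realisations in degree `c - m`. -/
def HardLefschetz (c : ℤ) (V : T) : Prop :=
  ∀ m : ℕ, ∃ (J J' : T) (φ : V ⟶ J ⊗ V), RDeg R s (-(2 * m)) J ∧ Nonempty (J' ⊗ J ≅ 𝟙_ T) ∧
    ∀ i, IsIso (((s i).truncGELE (c - m) (c - m)).map ((R i).map φ))

variable {R s} {𝒞 : ObjectProperty T}

theorem RLE.tensor (hs : ∀ i, TensorExact (s i)) {X Y : T} {a b c : ℤ} (hc : a + b = c)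
    (hX : RLE R s a X) (hY : RLE R s b Y) : RLE R s c (X ⊗ Y) := by
  subst hc
  have hX' : RLE R s 0 (X⟦a⟧) := hX.shift (by ring)
  have hY' : RLE R s 0 (Y⟦b⟧) := hY.shift (by ring)
  have h1 : RLE R s 0 (X⟦a⟧ ⊗ Y⟦b⟧) := fun i =>
    ((s i).le 0).prop_of_iso (Functor.Monoidal.μIso (R i) _ _) ((hs i _ _).1 (hX' i) (hY' i))
  have h2 : RLE R s 0 ((X ⊗ Y)⟦a + b⟧) := RLE.of_iso (tensorShiftIso X Y a b _ rfl) h1
  have h3 : RLE R s (a + b) ((X ⊗ Y)⟦a + b⟧⟦-(a + b)⟧) := h2.shift (by ring)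
  exact RLE.of_iso ((shiftEquiv T (a + b)).unitIso.symm.app _) h3

theorem RGE.tensor (hs : ∀ i, TensorExact (s i)) {X Y : T} {a b c : ℤ} (hc : a + b = c)
    (hX : RGE R s a X) (hY : RGE R s b Y) : RGE R s c (X ⊗ Y) := by
  subst hc
  have hX' : RGE R s 0 (X⟦a⟧) := hX.shift (by ring)
  have hY' : RGE R s 0 (Y⟦b⟧) := hY.shift (by ring)
  have h1 : RGE R s 0 (X⟦a⟧ ⊗ Y⟦b⟧) := fun i =>
    ((s i).ge 0).prop_of_iso (Functor.Monoidal.μIso (R i) _ _) ((hs i _ _).2 (hX' i) (hY' i))
  have h2 : RGE R s 0 ((X ⊗ Y)⟦a + b⟧) := RGE.of_iso (tensorShiftIso X Y a b _ rfl) h1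
  have h3 : RGE R s (a + b) ((X ⊗ Y)⟦a + b⟧⟦-(a + b)⟧) := h2.shift (by ring)
  exact RGE.of_iso ((shiftEquiv T (a + b)).unitIso.symm.app _) h3

theorem deg_of_t {t : TStructure T} (hex : ∀ i, TExact t (s i) (R i)) {X : T} {n : ℤ}
    (h1 : t.IsLE X n) (h2 : t.IsGE X n) : RDeg R s n X :=
  ⟨fun i => (hex i n _).1 h1.le, fun i => (hex i n _).2 h2.ge⟩

theorem spl_of_hardLefschetz [IsIdempotentComplete T] {t : TStructure T}
    (hex : ∀ i, TExact t (s i) (R i)) (i₀ : I) (hcons : (R i₀).ReflectsIsomorphisms)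
    (hs : ∀ i, TensorExact (s i)) (c : ℤ) (a : ℕ) {V : T} (hV : HardLefschetz R s c V)
    (h1 : t.IsGE V (c - a)) (h2 : t.IsLE V (c + a)) : Spl t V := by
  induction a generalizing V with
  | zero =>
    simp only [Nat.cast_zero, sub_zero, add_zero] at h1 h2
    exact Spl.of_deg h2 h1
  | succ a ih =>
    obtain ⟨n, hn⟩ : ∃ n : ℤ, n = c - ((a + 1 : ℕ) : ℤ) := ⟨_, rfl⟩
    obtain ⟨N, hN⟩ : ∃ N : ℤ, N = c + ((a + 1 : ℕ) : ℤ) := ⟨_, rfl⟩
    rw [← hn] at h1
    rw [← hN] at h2
    have hn' : n = c - a - 1 := by rw [hn]; push_cast; ring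
    have hN' : N = c + a + 1 := by rw [hN]; push_cast; ring
    obtain ⟨J, J', φ, hJ, ⟨e⟩, hφ⟩ := hV (a + 1)
    rw [← hn] at hφ
    have hJ2 : (-(2 * ((a + 1 : ℕ) : ℤ))) = n - N := by rw [hn, hN]; ring
    rw [hJ2] at hJ
    have hA : RDeg R s n ((t.truncLE n).obj V) := deg_of_t hex inferInstance inferInstance
    have hB : RDeg R s N ((t.truncGE N).obj V) := deg_of_t hex inferInstance inferInstance
    have hw : IsIso ((t.truncLEι n).app V ≫ φ ≫ (J ◁ (t.truncGEπ N).app V)) := by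
      haveI : IsIso ((R i₀).map ((t.truncLEι n).app V ≫ φ ≫ (J ◁ (t.truncGEπ N).app V))) := by
        rw [Functor.map_comp, Functor.map_comp]
        have hT1 : Triangle.mk ((t.truncLEι n).app V) ((t.truncGTπ n).app V)
          ((t.truncGTδLE n).app V) ∈ distTriang T := t.triangleLEGT_distinguished n V
        have hT2 : Triangle.mk ((t.truncLTι N).app V) ((t.truncGEπ N).app V)
          ((t.truncGEδLT N).app V) ∈ distTriang T := t.triangleLTGE_distinguished N V
        obtain ⟨k, hT3⟩ := tensor_triangle J hT2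
        have hJB : RLE R s n (J ⊗ (t.truncGE N).obj V) := RLE.tensor hs (by ring) hJ.1 hB.1
        have hJB' : RGE R s n (J ⊗ (t.truncGE N).obj V) := RGE.tensor hs (by ring) hJ.2 hB.2
        have hVN : RLE R s N V := fun i => (hex i N _).1 h2.le
        have hLT : RLE R s (N - 1) ((t.truncLT N).obj V) := fun i =>
          (hex i (N - 1) _).1 (t.isLE_truncLT_obj V N (N - 1)).le
        have hJV : RLE R s n (J ⊗ V) := RLE.tensor hs (by ring) hJ.1 hVN
        have hJLT : RLE R s (n - 1) (J ⊗ (t.truncLT N).obj V) :=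
          RLE.tensor hs (by ring) hJ.1 hLT
        obtain ⟨l1, hT1'⟩ := map_triangle (R i₀) hT1
        obtain ⟨l3, hT3'⟩ := map_triangle (R i₀) hT3
        refine isIso_of_isIso_H (s i₀) n hT1' hT3' ?_ ⟨hJLT i₀⟩ ⟨hA.1 i₀⟩ ⟨hA.2 i₀⟩ ⟨hJB i₀⟩ ⟨hJB' i₀⟩
          ⟨hJV i₀⟩ (hφ i₀)
        exact ⟨(hex i₀ (n + 1) _).2 (inferInstance : t.IsGE ((t.truncGT n).obj V) (n + 1)).ge⟩
      exact isIso_of_reflects_iso _ (R i₀)
    obtain ⟨⟨r, hr⟩, σ, hσ⟩ := exists_retractions _ _ φ hw e
    have hAB : (t.truncLEι n).app V ≫ (t.truncGEπ N).app V = 0 :=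
      t.zero_of_isLE_of_isGE _ n N (by omega) inferInstance inferInstance
    obtain ⟨W, i, p, σ', hip, hσ', hsum, hir, hσp⟩ := exists_complement hr hσ hAB
    have rW : Retract W V := ⟨i, p, hip⟩
    have hW1 : t.IsGE W (c - a) := by
      rw [t.isGE_iff_isZero_truncLE_obj n (c - a) (by rw [hn']; ring)]
      have h3 : (t.truncLE n).map i = 0 := by
        have h4 : (t.truncLE n).map i ≫ (t.truncLEι n).app V = (t.truncLEι n).app W ≫ i :=
          (t.truncLEι n).naturality i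
        rw [← Category.comp_id ((t.truncLE n).map i), ← hr, reassoc_of% h4, hir, comp_zero]
      rw [IsZero.iff_id_eq_zero, ← CategoryTheory.Functor.map_id, ← hip, Functor.map_comp, h3,
        zero_comp]
    have hW2 : t.IsLE W (c + a) := by
      rw [t.isLE_iff_isZero_truncGE_obj (c + a) N (by rw [hN'])]
      have h3 : (t.truncGE N).map p = 0 := by
        have h4 : (t.truncGEπ N).app V ≫ (t.truncGE N).map p = p ≫ (t.truncGEπ N).app W :=
          ((t.truncGEπ N).naturality p).symm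
        rw [← Category.id_comp ((t.truncGE N).map p), ← hσ', Category.assoc, h4,
          reassoc_of% hσp, zero_comp]
      rw [IsZero.iff_id_eq_zero, ← CategoryTheory.Functor.map_id, ← hip, Functor.map_comp, h3,
        comp_zero]
    have hWR1 : RGE R s (c - a) W := fun i => (hex i _ _).2 hW1.ge
    have hWR2 : RLE R s (c + a) W := fun i => (hex i _ _).1 hW2.le
    have hWL : HardLefschetz R s c W := by
      intro m
      obtain ⟨K, K', ψ, hK, hKK, hψ⟩ := hV m
      refine ⟨K, K', i ≫ ψ ≫ (K ◁ p), hK, hKK, fun j => ?_⟩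
      by_cases hm : m ≤ a
      · let Φ : T ⥤ D j := R j ⋙ (s j).truncGELE (c - m) (c - m)
        have hΦ : Φ.Additive := inferInstance
        let Ψ : T ⥤ D j := tensorLeft K ⋙ Φ
        have hA0 : IsZero (Φ.obj ((t.truncLE n).obj V)) :=
          isZero_H_of_le (s j) (by rw [hn']; omega) ⟨hA.1 j⟩
        have hB0 : IsZero (Φ.obj ((t.truncGE N).obj V)) :=
          isZero_H_of_ge (s j) (by rw [hN']; omega) ⟨hB.2 j⟩
        have hA1 : IsZero (Ψ.obj ((t.truncLE n).obj V)) :=
          isZero_H_of_le (s j) (m := -(2 * m) + n) (by rw [hn']; omega)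
            ⟨RLE.tensor hs rfl hK.1 hA.1 j⟩
        have hB1 : IsZero (Ψ.obj ((t.truncGE N).obj V)) :=
          isZero_H_of_ge (s j) (m := -(2 * m) + N) (by rw [hN']; omega)
            ⟨RGE.tensor hs rfl hK.2 hB.2 j⟩
        obtain ⟨k1, -⟩ := isIso_map_of_complement Φ hip hsum hA0 hB0
        obtain ⟨-, k2⟩ := isIso_map_of_complement Ψ hip hsum hA1 hB1
        have k3 : IsIso (Φ.map ψ) := hψ j
        have k4 : IsIso (Φ.map (K ◁ p)) := k2
        change IsIso (Φ.map (i ≫ ψ ≫ (K ◁ p)))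
        rw [Functor.map_comp, Functor.map_comp]
        infer_instance
      · refine IsZero.isIso ?_ ?_ _
        · exact isZero_H_of_ge (s j) (m := c - a) (by omega) ⟨hWR1 j⟩
        · exact isZero_H_of_le (s j) (m := -(2 * m) + (c + a)) (by omega)
            ⟨RLE.tensor hs rfl hK.1 hWR2 j⟩
    have hWs : Spl t W := ih hWL hW1 hW2
    have hAs : Spl t ((t.truncLE n).obj V) := Spl.of_deg (d := n) inferInstance inferInstance
    have hBs : Spl t ((t.truncGE N).obj V) := Spl.of_deg (d := N) inferInstance inferInstance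
    refine Spl.retract ⟨biprod.lift r (biprod.lift ((t.truncGEπ N).app V) p),
      biprod.desc ((t.truncLEι n).app V) (biprod.desc σ' i), ?_⟩ (hAs.biprod (hBs.biprod hWs))
    rw [biprod.lift_desc, biprod.lift_desc, ← add_assoc]
    exact hsum

end Pool.Agent.W492.PC
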