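import Pool.Agent.W492.PC.Spl

/-!
# Hard Lefschetz and a motivic t-structure give Kuenneth decompositions (Deligne)
-/

set_option linter.unusedSectionVars false
set_option linter.style.haveILetI false

open CategoryTheory Limits MonoidalCategory Triangulated Pretriangulated ZeroObject

namespace Pool.Agent.W492.PC

open Pool.Agent.W492.MT (tpow ins symm tr IsSum)

open Pool.Agent.W492.TS

universe v u v' u' w

section
variable {D : Type u'} [Category.{v'} D] [HasZeroObject D] [HasShift D ℤ] [Preadditive D]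
  [∀ n : ℤ, (shiftFunctor D n).Additive] [Pretriangulated D] [IsTriangulated D]

theorem isIso_of_isIso_H (s : TStructure D) (n : ℤ) {A V V' B C K : D} {u : A ⟶ V} {φ : V ⟶ V'}
    {v : V' ⟶ B} {g : V ⟶ C} {h : C ⟶ A⟦(1 : ℤ)⟧} {k : K ⟶ V'} {l : B ⟶ K⟦(1 : ℤ)⟧}
    (hu : Triangle.mk u g h ∈ distTriang D) (hv : Triangle.mk k v l ∈ distTriang D)
    (hC : s.IsGE C (n + 1)) (hK : s.IsLE K (n - 1)) (hA1 : s.IsLE A n) (hA2 : s.IsGE A n)
    (hB1 : s.IsLE B n) (hB2 : s.IsGE B n) (hV' : s.IsLE V' n)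
    (hφ : IsIso ((s.truncGELE n n).map φ)) : IsIso (u ≫ φ ≫ v) := by
  have h1 : IsIso ((s.truncLE n).map u) :=
    s.isIso₁_truncLE_map_of_isGE _ hu n (n + 1) rfl hC
  have h2 : IsIso ((s.truncGELE n n).map u) := by
    change IsIso ((s.truncGE n).map ((s.truncLE n).map u))
    infer_instance
  have h3 : IsIso ((s.truncGE n).map v) :=
    s.isIso₂_truncGE_map_of_isLE _ hv (n - 1) n (by ring) hK
  have h4 : IsIso ((s.truncGELE n n).map v) := by
    change IsIso ((s.truncGE n).map ((s.truncLE n).map v))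
    have h5 : (s.truncGE n).map ((s.truncLE n).map v) ≫ (s.truncGE n).map ((s.truncLEι n).app B) =
        (s.truncGE n).map ((s.truncLEι n).app V') ≫ (s.truncGE n).map v := by
      rw [← Functor.map_comp, ← Functor.map_comp]
      congr 1
      exact (s.truncLEι n).naturality v
    have h6 : IsIso ((s.truncGE n).map ((s.truncLE n).map v) ≫
        (s.truncGE n).map ((s.truncLEι n).app B)) := by
      rw [h5]
      infer_instance
    exact IsIso.of_isIso_comp_right _ ((s.truncGE n).map ((s.truncLEι n).app B))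
  have h7 : IsIso ((s.truncGELE n n).map (u ≫ φ ≫ v)) := by
    rw [Functor.map_comp, Functor.map_comp]
    infer_instance
  have h8 : IsIso ((s.truncLE n).map (u ≫ φ ≫ v)) := by
    have h9 : (s.truncLE n).map (u ≫ φ ≫ v) ≫ (s.truncGEπ n).app ((s.truncLE n).obj B) =
        (s.truncGEπ n).app ((s.truncLE n).obj A) ≫ (s.truncGELE n n).map (u ≫ φ ≫ v) :=
      (s.truncGEπ n).naturality _
    have h10 : IsIso ((s.truncLE n).map (u ≫ φ ≫ v) ≫
        (s.truncGEπ n).app ((s.truncLE n).obj B)) := by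
      rw [h9]
      infer_instance
    exact IsIso.of_isIso_comp_right _ ((s.truncGEπ n).app ((s.truncLE n).obj B))
  have h11 : (s.truncLE n).map (u ≫ φ ≫ v) ≫ (s.truncLEι n).app B =
      (s.truncLEι n).app A ≫ (u ≫ φ ≫ v) := (s.truncLEι n).naturality _
  have h12 : IsIso ((s.truncLEι n).app A ≫ (u ≫ φ ≫ v)) := by
    rw [← h11]
    infer_instance
  exact IsIso.of_isIso_comp_left ((s.truncLEι n).app A) _

end

section
variable {T : Type u} [Category.{v} T] [MonoidalCategory T]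

theorem exists_retractions {A V B J J' : T} (u : A ⟶ V) (v : V ⟶ B) (φ : V ⟶ J ⊗ V)
    (hw : IsIso (u ≫ φ ≫ (J ◁ v))) (e : J' ⊗ J ≅ 𝟙_ T) :
    (∃ r : V ⟶ A, u ≫ r = 𝟙 A) ∧ ∃ σ : B ⟶ V, σ ≫ v = 𝟙 B := by
  refine ⟨⟨φ ≫ (J ◁ v) ≫ inv (u ≫ φ ≫ (J ◁ v)), ?_⟩, ?_⟩
  · have := IsIso.hom_inv_id (u ≫ φ ≫ (J ◁ v))
    simpa only [Category.assoc] using this
  · have h1 : (inv (u ≫ φ ≫ (J ◁ v)) ≫ u ≫ φ) ≫ (J ◁ v) = 𝟙 _ := by
      have := IsIso.inv_hom_id (u ≫ φ ≫ (J ◁ v))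
      simpa only [Category.assoc] using this
    refine ⟨(λ_ B).inv ≫ (e.inv ▷ B) ≫ (α_ J' J B).hom ≫
      (J' ◁ (inv (u ≫ φ ≫ (J ◁ v)) ≫ u ≫ φ)) ≫ (α_ J' J V).inv ≫ (e.hom ▷ V) ≫ (λ_ V).hom, ?_⟩
    have h2 : (α_ J' J V).inv ≫ (e.hom ▷ V) ≫ (λ_ V).hom ≫ v =
        (J' ◁ (J ◁ v)) ≫ (α_ J' J B).inv ≫ (e.hom ▷ B) ≫ (λ_ B).hom := by
      rw [← leftUnitor_naturality, ← whisker_exchange_assoc]
      simp
    simp only [Category.assoc]
    rw [h2]
    rw [← MonoidalCategory.whiskerLeft_comp_assoc, h1]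
    simp

end

section
variable {T : Type u} [Category.{v} T] [Preadditive T] 

theorem exists_complement [IsIdempotentComplete T] {A V B : T} {u : A ⟶ V} {r : V ⟶ A}
    {v : V ⟶ B} {σ : B ⟶ V} (hu : u ≫ r = 𝟙 A) (hv : σ ≫ v = 𝟙 B) (huv : u ≫ v = 0) :
    ∃ (W : T) (i : W ⟶ V) (p : V ⟶ W) (σ' : B ⟶ V), i ≫ p = 𝟙 W ∧ σ' ≫ v = 𝟙 B ∧
      r ≫ u + v ≫ σ' + p ≫ i = 𝟙 V ∧ i ≫ r = 0 ∧ σ' ≫ p = 0 := by
  obtain ⟨σ', hσ'⟩ : ∃ σ' : B ⟶ V, σ' = σ - σ ≫ r ≫ u := ⟨_, rfl⟩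
  have h1 : σ' ≫ v = 𝟙 B := by
    rw [hσ', Preadditive.sub_comp, hv, Category.assoc, Category.assoc, huv, comp_zero, comp_zero,
      sub_zero]
  have h2 : σ' ≫ r = 0 := by
    rw [hσ', Preadditive.sub_comp, Category.assoc, Category.assoc, hu, Category.comp_id, sub_self]
  have hf : (𝟙 V - r ≫ u - v ≫ σ') ≫ (𝟙 V - r ≫ u - v ≫ σ') = 𝟙 V - r ≫ u - v ≫ σ' := by
    have e1 : (r ≫ u) ≫ (r ≫ u) = r ≫ u := by rw [Category.assoc, reassoc_of% hu]
    have e2 : (v ≫ σ') ≫ (v ≫ σ') = v ≫ σ' := by rw [Category.assoc, reassoc_of% h1]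
    have e3 : (r ≫ u) ≫ (v ≫ σ') = 0 := by
      rw [Category.assoc, reassoc_of% huv, zero_comp, comp_zero]
    have e4 : (v ≫ σ') ≫ (r ≫ u) = 0 := by
      rw [Category.assoc, reassoc_of% h2, zero_comp, comp_zero]
    rw [Preadditive.sub_comp, Preadditive.sub_comp, Category.id_comp, Preadditive.comp_sub,
      Preadditive.comp_sub, Preadditive.comp_sub, Preadditive.comp_sub, Category.comp_id,
      Category.comp_id, e1, e2, e3, e4]
    abel
  obtain ⟨W, i, p, hip, hpi⟩ := IsIdempotentComplete.idempotents_split V _ hf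
  refine ⟨W, i, p, σ', hip, h1, by rw [hpi]; abel, ?_, ?_⟩
  · have h3 : (p ≫ i) ≫ r = 0 := by
      rw [hpi, Preadditive.sub_comp, Preadditive.sub_comp, Category.id_comp, Category.assoc, hu,
        Category.comp_id, Category.assoc, h2, comp_zero, sub_self, sub_zero]
    calc i ≫ r = i ≫ (p ≫ i) ≫ r := by rw [Category.assoc, reassoc_of% hip]
      _ = 0 := by rw [h3, comp_zero]
  · have h3 : σ' ≫ (p ≫ i) = 0 := by
      rw [hpi, Preadditive.comp_sub, Preadditive.comp_sub, Category.comp_id, reassoc_of% h1,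
        reassoc_of% h2, zero_comp, sub_zero, sub_self]
    calc σ' ≫ p = (σ' ≫ (p ≫ i)) ≫ p := by rw [Category.assoc, Category.assoc, hip,
            Category.comp_id]
      _ = 0 := by rw [h3, zero_comp]

theorem isIso_map_of_complement {E : Type*} [Category* E] [Preadditive E] (Φ : T ⥤ E)
    [Φ.Additive] {A V B W : T} {u : A ⟶ V} {r : V ⟶ A} {v : V ⟶ B} {σ' : B ⟶ V} {i : W ⟶ V}
    {p : V ⟶ W} (hip : i ≫ p = 𝟙 W) (h1 : r ≫ u + v ≫ σ' + p ≫ i = 𝟙 V)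
    (hA : IsZero (Φ.obj A)) (hB : IsZero (Φ.obj B)) : IsIso (Φ.map i) ∧ IsIso (Φ.map p) := by
  have h2 : Φ.map p ≫ Φ.map i = 𝟙 _ := by
    have h3 : Φ.map (r ≫ u + v ≫ σ' + p ≫ i) = 𝟙 _ := by rw [h1, CategoryTheory.Functor.map_id]
    rw [Functor.map_add, Functor.map_add, Functor.map_comp, Functor.map_comp, Functor.map_comp,
      hA.eq_of_tgt (Φ.map r) 0, hB.eq_of_tgt (Φ.map v) 0, zero_comp, zero_comp, zero_add,
      zero_add] at h3
    exact h3
  have h4 : Φ.map i ≫ Φ.map p = 𝟙 _ := by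
    rw [← Functor.map_comp, hip, CategoryTheory.Functor.map_id]
  exact ⟨⟨Φ.map p, h4, h2⟩, ⟨Φ.map i, h2, h4⟩⟩

end

end Pool.Agent.W492.PC
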