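import Pool.Agent.W492.PC.Core

/-!
# The t-structure forces every nonzero morphism from a pure object to the unit to split
-/

set_option linter.unusedSectionVars false
set_option linter.style.haveILetI false

open CategoryTheory Limits MonoidalCategory Triangulated Pretriangulated

namespace Pool.Agent.W492.PC

open Pool.Agent.W492.MT (tpow ins symm tr IsSum)

open Pool.Agent.W492.TS

universe v u v' u'

section
variable {D : Type u'} [Category.{v'} D] [HasZeroObject D] [HasShift D ℤ] [Preadditive D]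
  [∀ n : ℤ, (shiftFunctor D n).Additive] [Pretriangulated D]

/-- `E` is a simple object of degree `0` : it is concentrated in degree `0`, and the cone of every
nonzero morphism from an object concentrated in degree `0` to `E` is `≤ -1`. -/
def SimpleUnit (s : TStructure D) (E : D) : Prop :=
  s.le 0 E ∧ s.ge 0 E ∧ ∀ (Y C : D) (u : Y ⟶ E) (a : E ⟶ C) (b : C ⟶ Y⟦(1 : ℤ)⟧),
    Triangle.mk u a b ∈ distTriang D → s.le 0 Y → s.ge 0 Y → u ≠ 0 → s.le (-1) C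

theorem SimpleUnit.of_iso {s : TStructure D} {E E' : D} (e : E ≅ E') (h : SimpleUnit s E) :
    SimpleUnit s E' := by
  refine ⟨(s.le 0).prop_of_iso e h.1, (s.ge 0).prop_of_iso e h.2.1, ?_⟩
  intro Y C u a b hT h1 h2 hu
  refine h.2.2 Y C (u ≫ e.inv) (e.hom ≫ a) b ?_ h1 h2 ?_
  · refine isomorphic_distinguished _ hT _
      (Triangle.isoMk _ _ (Iso.refl _) e (Iso.refl _) ?_ ?_ ?_)
    · change (u ≫ e.inv) ≫ e.hom = 𝟙 Y ≫ u
      simp
    · change (e.hom ≫ a) ≫ 𝟙 C = e.hom ≫ a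
      simp
    · change b ≫ (shiftFunctor D (1 : ℤ)).map (𝟙 Y) = 𝟙 C ≫ b
      simp
  · intro h0
    apply hu
    rw [← cancel_mono e.inv, h0, zero_comp]

theorem exists_section_of_retraction {A B C : D} {f : A ⟶ B} {g : B ⟶ C}
    {h : C ⟶ A⟦(1 : ℤ)⟧} (hT : Triangle.mk f g h ∈ distTriang D) (ρ : B ⟶ A)
    (hρ : f ≫ ρ = 𝟙 A) : ∃ σ : C ⟶ B, σ ≫ g = 𝟙 C := by
  have h0 : h = 0 := by
    have h1 : h ≫ f⟦(1 : ℤ)⟧' = 0 := comp_distTriang_mor_zero₃₁ _ hT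
    have h2 : f⟦(1 : ℤ)⟧' ≫ ρ⟦(1 : ℤ)⟧' = 𝟙 _ := by
      rw [← Functor.map_comp, hρ, CategoryTheory.Functor.map_id]
    rw [← Category.comp_id h, ← h2, ← Category.assoc, h1, zero_comp]
  obtain ⟨σ, hσ⟩ : ∃ σ : C ⟶ B, 𝟙 C = σ ≫ g := Triangle.coyoneda_exact₃ _ hT (𝟙 C) (by
    change 𝟙 C ≫ h = 0
    rw [h0, comp_zero])
  exact ⟨σ, hσ.symm⟩

end

variable {T : Type u} [Category.{v} T] [HasZeroObject T] [HasShift T ℤ] [Preadditive T]
  [∀ n : ℤ, (shiftFunctor T n).Additive] [Pretriangulated T] [IsTriangulated T]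
  {D : Type u'} [Category.{v'} D] [HasZeroObject D] [HasShift D ℤ] [Preadditive D]
  [∀ n : ℤ, (shiftFunctor D n).Additive] [Pretriangulated D] [IsTriangulated D]
  (R : T ⥤ D) [R.CommShift ℤ] [R.IsTriangulated] {t : TStructure T} {s : TStructure D}

/-- A conservative t-exact functor is faithful on the heart. -/
theorem faithful_on_heart (hex : TExact t s R) (hcons : ∀ X : T, IsZero (R.obj X) → IsZero X)
    {X Y : T} (hX1 : t.le 0 X) (hY2 : t.ge 0 Y) (g : X ⟶ Y)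
    (hg : R.map g = 0) : g = 0 := by
  obtain ⟨W, δ, k, hT⟩ := distinguished_cocone_triangle g
  obtain ⟨A, Q, hA, hQ, f, π, r, hAQ⟩ := t.exists_triangle W (-1) 0 (by norm_num)
  obtain ⟨V, p, q, hV⟩ := distinguished_cocone_triangle (δ ≫ π)
  have oct := someOctahedron rfl (rot_of_distTriang _ hT) (rot_of_distTriang _ hAQ) hV
  have hRV1 : s.IsLE (R.obj V) (-1) := by
    have h1 : s.IsLE (R.obj (X⟦(1 : ℤ)⟧)) (-1) :=
      ⟨(hex (-1) _).1 (t.le_shift 0 1 (-1) (by norm_num) _ hX1)⟩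
    have h2 : s.IsLE (R.obj (A⟦(1 : ℤ)⟧)) (-1) :=
      ⟨(hex (-1) _).1 (t.le_monotone (show (-2 : ℤ) ≤ -1 by norm_num) _
        (t.le_shift (-1) 1 (-2) (by norm_num) _ hA))⟩
    exact s.isLE₂ _ (R.map_distinguished _ oct.mem) (-1) h1 h2
  have hRT := R.map_distinguished _ hT
  have hRAQ := R.map_distinguished _ hAQ
  have hRV := R.map_distinguished _ hV
  obtain ⟨ρ, hρ⟩ : ∃ ρ : R.obj W ⟶ R.obj Y, 𝟙 (R.obj Y) = R.map δ ≫ ρ :=
    Triangle.yoneda_exact₂ _ hRT (𝟙 (R.obj Y)) (by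
      change R.map g ≫ 𝟙 _ = 0
      rw [hg, zero_comp])
  have hRY : s.IsGE (R.obj Y) 0 := ⟨(hex 0 _).2 hY2⟩
  have hRA : s.IsLE (R.obj A) (-1) := ⟨(hex _ _).1 hA⟩
  obtain ⟨ρ', hρ'⟩ : ∃ ρ' : R.obj Q ⟶ R.obj Y, ρ = R.map π ≫ ρ' :=
    Triangle.yoneda_exact₂ _ hRAQ ρ (s.zero_of_isLE_of_isGE _ (-1) 0 (by norm_num) hRA hRY)
  have hsplit : R.map (δ ≫ π) ≫ ρ' = 𝟙 _ := by
    rw [R.map_comp, Category.assoc, ← hρ', ← hρ]
  -- `R V` is a retract of `R Q`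
  obtain ⟨σ, hσ⟩ := exists_section_of_retraction hRV ρ' hsplit
  have hRV2 : s.IsGE (R.obj V) 0 :=
    ⟨ge_retract s ⟨σ, R.map p, hσ⟩ ((hex 0 _).2 hQ)⟩
  have hV0 : IsZero V := hcons V (s.isZero _ (-1) 0)
  have hiso : IsIso (δ ≫ π) := (Triangle.isZero₃_iff_isIso₁ _ hV).1 hV0
  have h3 : g ≫ δ = 0 := comp_distTriang_mor_zero₁₂ _ hT
  rw [← cancel_mono (δ ≫ π), zero_comp, ← Category.assoc, h3, zero_comp]

section
variable [MonoidalCategory T] [SymmetricCategory T] [RightRigidCategory T]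
  [∀ X : T, (tensorLeft X).CommShift ℤ] [∀ X : T, (tensorLeft X).IsTriangulated]
  [MonoidalPreadditive T]

/-- The splitting result, from conservativity alone. -/
theorem exists_splitting_of_cons (F : Type*) [Field F] [CharZero F] [Linear F T]
    (hcons : R.ReflectsIsomorphisms) (hu : SimpleUnit s (R.obj (𝟙_ T)))
    (hodd : ∀ W : T, s.le (-1) (R.obj W) → s.ge (-1) (R.obj W) → ∃ n, R.map (symm W n) = 0)
    (h0 : 𝟙 (𝟙_ T) ≠ 0) {N : T} (hN1 : s.le 0 (R.obj N)) (hN2 : s.ge 0 (R.obj N))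
    (hpos : Pos N (N⟦(1 : ℤ)⟧)) (g : N ⟶ 𝟙_ T) (hRg : R.map g ≠ 0) :
    ∃ x : 𝟙_ T ⟶ N, x ≫ g ≠ 0 := by
  obtain ⟨W, δ, k, hT⟩ := distinguished_cocone_triangle g
  have hW1 : s.le (-1) (R.obj W) :=
    hu.2.2 _ _ _ _ _ (R.map_distinguished _ hT) hN1 hN2 hRg
  have hW2 : s.ge (-1) (R.obj W) := by
    have h1 : s.IsGE (R.obj (𝟙_ T)) (-1) :=
      ⟨s.ge_antitone (show (-1 : ℤ) ≤ 0 by norm_num) _ hu.2.1⟩
    have h2 : s.IsGE (R.obj (N⟦(1 : ℤ)⟧)) (-1) :=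
      ⟨(s.ge (-1)).prop_of_iso (((R).commShiftIso (1 : ℤ)).app N).symm
        (s.ge_shift 0 1 (-1) (by norm_num) _ hN2)⟩
    exact (s.isGE₂ _ (R.map_distinguished _ (rot_of_distTriang _ hT)) (-1) h1 h2).ge
  obtain ⟨n, hn⟩ := hodd W hW1 hW2
  exact split_of_dpow hT hpos h0 n (dpow_eq_zero F R δ n hn)

/-- the main splitting result. -/
theorem exists_splitting (F : Type*) [Field F] [CharZero F] [Linear F T] (hex : TExact t s R) (hcons : ∀ X : T, IsZero (R.obj X) → IsZero X)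
    (hu : SimpleUnit s (R.obj (𝟙_ T)))
    (hodd : ∀ W : T, s.le (-1) (R.obj W) → s.ge (-1) (R.obj W) → ∃ n, R.map (symm W n) = 0)
    (h0 : 𝟙 (𝟙_ T) ≠ 0) (hu2 : t.ge 0 (𝟙_ T)) {N : T} (hN1 : t.le 0 N) (hN2 : t.ge 0 N)
    (hpos : Pos N (N⟦(1 : ℤ)⟧)) (g : N ⟶ 𝟙_ T) (hg : g ≠ 0) : ∃ x : 𝟙_ T ⟶ N, x ≫ g ≠ 0 := by
  haveI := reflects_of_isZero R hcons
  obtain ⟨W, δ, k, hT⟩ := distinguished_cocone_triangle g
  have hRg : R.map g ≠ 0 := fun h => hg (faithful_on_heart R hex hcons hN1 hu2 g h)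
  have hW1 : s.le (-1) (R.obj W) :=
    hu.2.2 _ _ _ _ _ (R.map_distinguished _ hT) ((hex 0 _).1 hN1) ((hex 0 _).2 hN2) hRg
  have hW2 : s.ge (-1) (R.obj W) := by
    have h1 : s.IsGE (R.obj (𝟙_ T)) (-1) :=
      ⟨s.ge_antitone (show (-1 : ℤ) ≤ 0 by norm_num) _ ((hex 0 _).2 hu2)⟩
    have h2 : s.IsGE (R.obj (N⟦(1 : ℤ)⟧)) (-1) :=
      ⟨(hex (-1) _).2 (t.ge_shift 0 1 (-1) (by norm_num) _ hN2)⟩
    exact (s.isGE₂ _ (R.map_distinguished _ (rot_of_distTriang _ hT)) (-1) h1 h2).ge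
  obtain ⟨n, hn⟩ := hodd W hW1 hW2
  exact split_of_dpow hT hpos h0 n (dpow_eq_zero F R δ n hn)

end

end Pool.Agent.W492.PC
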