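import Pool.Agent.W492.PC.Main

/-!
# Endomorphisms acting by zero on cohomology are nilpotent
-/

set_option linter.unusedSectionVars false
set_option linter.style.haveILetI false

open CategoryTheory Limits MonoidalCategory Triangulated Pretriangulated ZeroObject

namespace Pool.Agent.W492.PC

open Pool.Agent.W492.MT (tpow ins symm tr IsSum)

open Pool.Agent.W492.TS

universe v u v' u' w

section
variable {D : Type u'} [Category.{v'} D] [HasZeroObject D] [HasShift D ℤ] [Preadditive D]
  [∀ n : ℤ, (shiftFunctor D n).Additive] [Pretriangulated D] [IsTriangulated D]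
  (s : TStructure D)

theorem isIso_H_truncGEπ (Y : D) {n p : ℤ} (h : p ≤ n) :
    IsIso ((s.truncGELE n n).map ((s.truncGEπ p).app Y)) := by
  have h1 : IsIso ((s.truncGE n).map ((s.truncGEπ p).app Y)) :=
    s.isIso_truncGE_map_truncGEπ_app n p h Y
  have h2 : IsIso ((s.truncLEGE n n).map ((s.truncGEπ p).app Y)) := by
    change IsIso ((s.truncLE n).map ((s.truncGE n).map ((s.truncGEπ p).app Y)))
    infer_instance
  exact ((MorphismProperty.isomorphisms _).arrow_mk_iso_iff
    (Arrow.isoMk ((s.truncGELEIsoLEGE n n).app _) ((s.truncGELEIsoLEGE n n).app _)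
      ((s.truncGELEIsoLEGE n n).hom.naturality _).symm)).2 h2

theorem pow_eq_zero_of_H (k : ℕ) (p : ℤ) {Y : D} (f : End Y)
    (hf : ∀ n, (s.truncGELE n n).map (f : Y ⟶ Y) = 0) (h1 : s.IsGE Y p)
    (h2 : s.IsLE Y (p + k - 1)) : f ^ k = 0 := by
  induction k generalizing Y p with
  | zero =>
    have h3 : IsZero Y := s.isZero Y (p + (0 : ℕ) - 1) p (by push_cast; omega)
    exact h3.eq_of_src _ _
  | succ k ih =>
    have ha : (s.truncLE p).map f = 0 := by
      have h4 : (s.truncLE p).map f ≫ (s.truncGEπ p).app ((s.truncLE p).obj Y) =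
          (s.truncGEπ p).app ((s.truncLE p).obj Y) ≫ (s.truncGELE p p).map f :=
        (s.truncGEπ p).naturality _
      rw [hf p, comp_zero] at h4
      rw [← cancel_mono ((s.truncGEπ p).app ((s.truncLE p).obj Y)), h4, zero_comp]
    have hι : (s.truncLTι (p + 1)).app Y ≫ f = 0 := by
      have h5 : (s.truncLTι (p + 1)).app Y ≫ f = (s.truncLE p).map f ≫
          (s.truncLTι (p + 1)).app Y := ((s.truncLTι (p + 1)).naturality f).symm
      rw [h5, ha]
      exact zero_comp
    have hT : Triangle.mk ((s.truncLTι (p + 1)).app Y) ((s.truncGEπ (p + 1)).app Y)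
      ((s.truncGEδLT (p + 1)).app Y) ∈ distTriang D := s.triangleLTGE_distinguished (p + 1) Y
    obtain ⟨f', hf'⟩ : ∃ f' : (s.truncGE (p + 1)).obj Y ⟶ Y,
      f = (s.truncGEπ (p + 1)).app Y ≫ f' := Triangle.yoneda_exact₂ _ hT f hι
    obtain ⟨π, hπ⟩ : ∃ π : Y ⟶ (s.truncGE (p + 1)).obj Y, π = (s.truncGEπ (p + 1)).app Y :=
      ⟨_, rfl⟩
    have hg : (s.truncGE (p + 1)).map f = f' ≫ π := by
      apply s.from_truncGE_obj_ext
      have h6 : (s.truncGEπ (p + 1)).app Y ≫ (s.truncGE (p + 1)).map f =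
        f ≫ (s.truncGEπ (p + 1)).app Y := ((s.truncGEπ (p + 1)).naturality f).symm
      rw [h6, ← hπ]
      rw [← hπ] at hf'
      rw [← Category.assoc, ← hf']
    rw [← hπ] at hf'
    let g : End ((s.truncGE (p + 1)).obj Y) := (s.truncGE (p + 1)).map f
    have hgk : g ^ k = 0 := by
      refine ih (p + 1) g ?_ inferInstance ?_
      · intro n
        by_cases hn : p + 1 ≤ n
        · haveI := isIso_H_truncGEπ s Y hn
          rw [← cancel_epi ((s.truncGELE n n).map ((s.truncGEπ (p + 1)).app Y)),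
            ← Functor.map_comp, comp_zero]
          have h7 : (s.truncGEπ (p + 1)).app Y ≫ (g : _ ⟶ _) =
            f ≫ (s.truncGEπ (p + 1)).app Y := ((s.truncGEπ (p + 1)).naturality f).symm
          rw [h7, Functor.map_comp, hf n, zero_comp]
        · exact (isZero_H_of_ge s (m := p + 1) (by omega) inferInstance).eq_of_src _ _
      · have h8 : p + 1 + (k : ℤ) - 1 = p + ((k + 1 : ℕ) : ℤ) - 1 := by push_cast; ring
        rw [h8]
        infer_instance
    have key : ∀ j : ℕ, (f ^ (j + 1) : End Y) = π ≫ (g ^ j : End _) ≫ f' := by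
      intro j
      induction j with
      | zero =>
        rw [pow_zero, zero_add, pow_one]
        exact hf'.trans (by rw [End.one_def, Category.id_comp])
      | succ j ihj =>
        rw [pow_succ f (j + 1), ihj, pow_succ' g j]
        change f ≫ π ≫ (g ^ j : End _) ≫ f' = π ≫ ((g ^ j : End _) ≫ g) ≫ f'
        have h9 : g * g ^ j = g ^ j * g := by rw [← pow_succ, ← pow_succ']
        have h10 : (g ^ j : End _) ≫ (g : End _) = (g : End _) ≫ (g ^ j : End _) := h9
        rw [h10]
        change f ≫ π ≫ (g ^ j : End _) ≫ f' =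
          π ≫ ((s.truncGE (p + 1)).map f ≫ (g ^ j : End _)) ≫ f'
        rw [hg]
        nth_rewrite 1 [hf']
        simp only [Category.assoc]
    rw [key k, hgk]
    change π ≫ (0 : _ ⟶ _) ≫ f' = 0
    rw [zero_comp, comp_zero]

theorem isLE_of_H {d : ℤ} {Y : D} (b : ℤ) (hb : s.IsLE Y b)
    (h : ∀ n, d < n → IsZero ((s.truncGELE n n).obj Y)) : s.IsLE Y d := by
  obtain ⟨k, hk⟩ : ∃ k : ℕ, b ≤ d + k := ⟨(b - d).toNat, by omega⟩
  induction k generalizing b with
  | zero => exact s.isLE_of_le Y b d (by simpa using hk)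
  | succ k ih =>
    haveI : s.IsLE Y (d + (k + 1 : ℕ)) := s.isLE_of_le Y b _ hk
    refine ih (d + k) ?_ le_rfl
    have h1 := h (d + (k + 1 : ℕ)) (by push_cast; omega)
    rw [s.isLE_iff_isZero_truncGE_obj (d + k) (d + (k + 1 : ℕ)) (by push_cast; ring)]
    exact h1.of_iso ((s.truncGE _).mapIso (asIso ((s.truncLEι (d + (k + 1 : ℕ))).app Y))).symm

theorem isGE_succ_of_H {a : ℤ} {Y : D} (ha : s.IsGE Y a)
    (h : IsZero ((s.truncGELE a a).obj Y)) : s.IsGE Y (a + 1) := by
  rw [s.isGE_iff_isZero_truncLE_obj a (a + 1) rfl]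
  exact h.of_iso (asIso ((s.truncGEπ a).app ((s.truncLE a).obj Y)))

theorem isGE_of_H {d : ℤ} {Y : D} (a : ℤ) (ha : s.IsGE Y a)
    (h : ∀ n, n < d → IsZero ((s.truncGELE n n).obj Y)) : s.IsGE Y d := by
  obtain ⟨k, hk⟩ : ∃ k : ℕ, d - k ≤ a := ⟨(d - a).toNat, by omega⟩
  induction k generalizing a with
  | zero => exact s.isGE_of_ge Y d a (by simpa using hk)
  | succ k ih =>
    haveI : s.IsGE Y (d - (k + 1 : ℕ)) := s.isGE_of_ge Y _ a hk
    refine ih (d - k) ?_ le_rfl
    have h1 := isGE_succ_of_H s this (h (d - (k + 1 : ℕ)) (by push_cast; omega))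
    have h2 : d - ((k + 1 : ℕ) : ℤ) + 1 = d - k := by push_cast; ring
    rwa [h2] at h1

end

end Pool.Agent.W492.PC
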