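import Pool.Agent.W492.PC.FF

/-!
# A t-structure and Kuenneth projectors for the realisations give Kuenneth decompositions
-/

set_option linter.unusedSectionVars false
set_option linter.style.haveILetI false

open CategoryTheory Limits MonoidalCategory Triangulated Pretriangulated ZeroObject

namespace Pool.Agent.W492.PC

open Pool.Agent.W492.MT (tpow ins symm tr IsSum)

open Pool.Agent.W492.TS

universe v u v' u' w

section
variable {T : Type u} [Category.{v} T] [HasZeroObject T] [HasShift T ℤ] [Preadditive T]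
  [∀ n : ℤ, (shiftFunctor T n).Additive] [Pretriangulated T] [IsTriangulated T]
  {D : Type u'} [Category.{v'} D] [HasZeroObject D] [HasShift D ℤ] [Preadditive D]
  [∀ n : ℤ, (shiftFunctor D n).Additive] [Pretriangulated D] [IsTriangulated D]
  (R : T ⥤ D) [R.CommShift ℤ] [R.IsTriangulated] {t : TStructure T} {s : TStructure D}

theorem isIso_H_map_ι (hex : TExact t s R) (Z : T) (n m : ℤ) (h : n ≤ m) :
    IsIso ((s.truncGELE n n).map (R.map ((t.truncLEι m).app Z))) := by
  have hT : Triangle.mk ((t.truncLEι m).app Z) ((t.truncGTπ m).app Z) ((t.truncGTδLE m).app Z) ∈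
    distTriang T := t.triangleLEGT_distinguished m Z
  have h1 : s.IsGE (R.obj ((t.truncGT m).obj Z)) (m + 1) :=
    ⟨(hex (m + 1) _).2 (inferInstance : t.IsGE ((t.truncGT m).obj Z) (m + 1)).ge⟩
  have h2 : s.IsGE (R.obj ((t.truncGT m).obj Z)) (n + 1) := s.isGE_of_ge _ _ (m + 1) (by omega)
  have h3 : IsIso ((s.truncLE n).map (R.map ((t.truncLEι m).app Z))) :=
    s.isIso₁_truncLE_map_of_isGE _ (R.map_distinguished _ hT) n (n + 1) rfl h2
  change IsIso ((s.truncGE n).map ((s.truncLE n).map (R.map ((t.truncLEι m).app Z))))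
  infer_instance

theorem isIso_H_map_π (hex : TExact t s R) (Z : T) (n m : ℤ) (h : m ≤ n) :
    IsIso ((s.truncGELE n n).map (R.map ((t.truncGEπ m).app Z))) := by
  have hT : Triangle.mk ((t.truncLTι m).app Z) ((t.truncGEπ m).app Z) ((t.truncGEδLT m).app Z) ∈
    distTriang T := t.triangleLTGE_distinguished m Z
  have h1 : s.IsLE (R.obj ((t.truncLT m).obj Z)) (m - 1) :=
    ⟨(hex (m - 1) _).1 (t.isLE_truncLT_obj Z m (m - 1)).le⟩
  have h2 : s.IsLE (R.obj ((t.truncLT m).obj Z)) (n - 1) := s.isLE_of_le _ (m - 1) _ (by omega)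
  have h3 : IsIso ((s.truncGE n).map (R.map ((t.truncGEπ m).app Z))) :=
    s.isIso₂_truncGE_map_of_isLE _ (R.map_distinguished _ hT) (n - 1) n (by ring) h2
  have h4 : IsIso ((s.truncLEGE n n).map (R.map ((t.truncGEπ m).app Z))) := by
    change IsIso ((s.truncLE n).map ((s.truncGE n).map (R.map ((t.truncGEπ m).app Z))))
    infer_instance
  exact ((MorphismProperty.isomorphisms _).arrow_mk_iso_iff
    (Arrow.isoMk ((s.truncGELEIsoLEGE n n).app _) ((s.truncGELEIsoLEGE n n).app _)
      ((s.truncGELEIsoLEGE n n).hom.naturality _).symm)).2 h4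

/-- A conservative t-exact functor detects the morphisms acting by zero on cohomology. -/
theorem H_eq_zero_of_map (hex : TExact t s R) (hcons : ∀ X : T, IsZero (R.obj X) → IsZero X)
    {X Y : T} (v : X ⟶ Y) (n : ℤ) (hv : (s.truncGELE n n).map (R.map v) = 0) :
    (t.truncGELE n n).map v = 0 := by
  obtain ⟨v', hv'⟩ : ∃ v' : (t.truncLE n).obj X ⟶ (t.truncLE n).obj Y, v' = (t.truncLE n).map v :=
    ⟨_, rfl⟩
  have e1 : v' ≫ (t.truncLEι n).app Y = (t.truncLEι n).app X ≫ v := by
    rw [hv']
    exact (t.truncLEι n).naturality v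
  have h1 : (s.truncGELE n n).map (R.map v') = 0 := by
    haveI := isIso_H_map_ι R hex Y n n le_rfl
    rw [← cancel_mono ((s.truncGELE n n).map (R.map ((t.truncLEι n).app Y))), ← Functor.map_comp,
      ← Functor.map_comp, e1, Functor.map_comp, Functor.map_comp, hv, comp_zero, zero_comp]
  obtain ⟨v'', hv''⟩ : ∃ v'' : (t.truncGELE n n).obj X ⟶ (t.truncGELE n n).obj Y,
    v'' = (t.truncGELE n n).map v := ⟨_, rfl⟩
  have e2 : (t.truncGEπ n).app ((t.truncLE n).obj X) ≫ v'' =
      v' ≫ (t.truncGEπ n).app ((t.truncLE n).obj Y) := by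
    rw [hv'', hv']
    exact ((t.truncGEπ n).naturality ((t.truncLE n).map v)).symm
  have h2 : (s.truncGELE n n).map (R.map v'') = 0 := by
    haveI := isIso_H_map_π R hex ((t.truncLE n).obj X) n n le_rfl
    have e3 : (s.truncGELE n n).map (R.map ((t.truncGEπ n).app ((t.truncLE n).obj X))) ≫
        (s.truncGELE n n).map (R.map v'') = 0 := by
      rw [← Functor.map_comp, ← Functor.map_comp, e2, Functor.map_comp, Functor.map_comp, h1,
        zero_comp]
    exact (cancel_epi ((s.truncGELE n n).map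
      (R.map ((t.truncGEπ n).app ((t.truncLE n).obj X))))).1 (e3.trans comp_zero.symm)
  have hA1 : t.IsLE ((t.truncGELE n n).obj X) n := inferInstance
  have hB2 : t.IsGE ((t.truncGELE n n).obj Y) n := inferInstance
  have h3 : R.map v'' = 0 :=
    eq_zero_of_H_deg s n _ ⟨(hex n _).1 hA1.le⟩ ⟨(hex n _).2 hB2.ge⟩ h2
  have h4 : R.map (v''⟦n⟧') = 0 := by
    have h5 : R.map (v''⟦n⟧') ≫ ((R.commShiftIso n).app ((t.truncGELE n n).obj Y)).hom =
        ((R.commShiftIso n).app ((t.truncGELE n n).obj X)).hom ≫ (R.map v'')⟦n⟧' :=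
      (R.commShiftIso n).hom.naturality _
    rw [h3, Functor.map_zero, comp_zero] at h5
    rw [← cancel_mono ((R.commShiftIso n).app ((t.truncGELE n n).obj Y)).hom, h5, zero_comp]
  have h6 : v''⟦n⟧' = 0 :=
    faithful_on_heart R hex hcons (t.le_shift n n 0 (by ring) _ hA1.le)
      (t.ge_shift n n 0 (by ring) _ hB2.ge) _ h4
  rw [← hv'']
  apply (shiftFunctor T n).map_injective
  rw [h6, Functor.map_zero]

end

section
variable {T : Type u} [Category.{v} T] [HasZeroObject T] [HasShift T ℤ] [Preadditive T]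
  [∀ n : ℤ, (shiftFunctor T n).Additive] [Pretriangulated T] [IsTriangulated T]
  (t : TStructure T)

theorem H_trunc_zero {X : T} (e : X ⟶ X) (n m : ℤ) (h : m ≤ n)
    (he : (t.truncGELE m m).map e = 0) :
    (t.truncGELE m m).map ((t.truncLE n).map e) = 0 := by
  have h1 : IsIso ((t.truncGELE m m).map ((t.truncLEι n).app X)) := by
    have : IsIso ((t.truncLE m).map ((t.truncLEι n).app X)) :=
      t.isIso_truncLE_map_truncLEι_app m n h X
    change IsIso ((t.truncGE m).map ((t.truncLE m).map ((t.truncLEι n).app X)))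
    infer_instance
  have e1 : (t.truncLE n).map e ≫ (t.truncLEι n).app X = (t.truncLEι n).app X ≫ e :=
    (t.truncLEι n).naturality e
  have e2 : (t.truncGELE m m).map ((t.truncLE n).map e) ≫
      (t.truncGELE m m).map ((t.truncLEι n).app X) = 0 := by
    rw [← Functor.map_comp, e1, Functor.map_comp, he, comp_zero]
  exact (cancel_mono ((t.truncGELE m m).map ((t.truncLEι n).app X))).1
    (e2.trans zero_comp.symm)

/-- If `e : X ⟶ X` acts as the identity on the cohomology in degrees `≤ n` and by zero in the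
degrees `> n`, the truncation triangle of `X` splits. -/
theorem split_of_projector {X : T} {a b : ℤ} (h1 : t.IsGE X a) (h2 : t.IsLE X b) (n : ℤ)
    (e : X ⟶ X) (he1 : ∀ m, m ≤ n → (t.truncGELE m m).map (𝟙 X - e) = 0)
    (he2 : ∀ m, n < m → (t.truncGELE m m).map e = 0) :
    ∃ ρ : X ⟶ (t.truncLE n).obj X, (t.truncLEι n).app X ≫ ρ = 𝟙 _ := by
  -- nilpotence on both sides
  let u : End ((t.truncLE n).obj X) := (t.truncLE n).map (𝟙 X - e)
  let g : End ((t.truncGE (n + 1)).obj X) := (t.truncGE (n + 1)).map e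
  obtain ⟨k, hk⟩ : ∃ k : ℕ, b ≤ a + k - 1 := ⟨(b - a + 1).toNat, by omega⟩
  have hXk : t.IsLE X (a + k - 1) := t.isLE_of_le X b _ hk
  have hu : u ^ k = 0 := by
    refine pow_eq_zero_of_H t k a u (fun m => ?_) inferInstance inferInstance
    by_cases hm : m ≤ n
    · exact H_trunc_zero t _ n m hm (he1 m hm)
    · exact (isZero_H_of_le t (m := n) (by omega) inferInstance).eq_of_src _ _
  have hg : g ^ k = 0 := by
    have hB1 : t.IsGE ((t.truncGE (n + 1)).obj X) a := by
      by_cases han : a ≤ n + 1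
      · exact t.isGE_of_ge _ a (n + 1) han
      · have : t.IsGE X (n + 1) := t.isGE_of_ge X (n + 1) a (by omega)
        exact ⟨(t.ge a).prop_of_iso (asIso ((t.truncGEπ (n + 1)).app X)) h1.ge⟩
    refine pow_eq_zero_of_H t k a g (fun m => ?_) hB1 inferInstance
    by_cases hm : n + 1 ≤ m
    · haveI := isIso_H_truncGEπ t X hm
      have e1 : (t.truncGEπ (n + 1)).app X ≫ (t.truncGE (n + 1)).map e =
        e ≫ (t.truncGEπ (n + 1)).app X := ((t.truncGEπ (n + 1)).naturality e).symm
      have e2 : (t.truncGELE m m).map ((t.truncGEπ (n + 1)).app X) ≫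
          (t.truncGELE m m).map ((t.truncGE (n + 1)).map e) = 0 := by
        rw [← Functor.map_comp, e1, Functor.map_comp, he2 m (by omega), zero_comp]
      exact (cancel_epi ((t.truncGELE m m).map ((t.truncGEπ (n + 1)).app X))).1
        (e2.trans comp_zero.symm)
    · exact (isZero_H_of_ge t (m := n + 1) (by omega) inferInstance).eq_of_src _ _
  let e' : End X := e
  have hπ : ∀ j : ℕ, (e' ^ j : End X) ≫ (t.truncGEπ (n + 1)).app X =
      (t.truncGEπ (n + 1)).app X ≫ (g ^ j : End _) := by
    intro j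
    induction j with
    | zero =>
      rw [pow_zero, pow_zero]
      exact (Category.id_comp _).trans (Category.comp_id _).symm
    | succ j ih =>
      rw [pow_succ, pow_succ]
      change (e' ≫ (e' ^ j : End X)) ≫ _ = (t.truncGEπ (n + 1)).app X ≫ (g ≫ (g ^ j : End _))
      have e1 : (t.truncGEπ (n + 1)).app X ≫ g = e' ≫ (t.truncGEπ (n + 1)).app X :=
        ((t.truncGEπ (n + 1)).naturality e).symm
      rw [Category.assoc, ih, ← Category.assoc, ← e1, Category.assoc]
  have hι : ∀ j : ℕ, (t.truncLEι n).app X ≫ (e' ^ j : End X) =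
      ((1 - u) ^ j : End _) ≫ (t.truncLEι n).app X := by
    intro j
    induction j with
    | zero =>
      rw [pow_zero, pow_zero]
      exact (Category.comp_id _).trans (Category.id_comp _).symm
    | succ j ih =>
      rw [pow_succ', pow_succ']
      change (t.truncLEι n).app X ≫ ((e' ^ j : End X) ≫ e') =
        (((1 - u) ^ j : End _) ≫ (1 - u : End _)) ≫ (t.truncLEι n).app X
      have e1 : (1 - u : End ((t.truncLE n).obj X)) = (t.truncLE n).map e := by
        change 𝟙 _ - (t.truncLE n).map (𝟙 X - e) = _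
        rw [Functor.map_sub, CategoryTheory.Functor.map_id]
        abel
      have e2 : (1 - u : End ((t.truncLE n).obj X)) ≫ (t.truncLEι n).app X =
          (t.truncLEι n).app X ≫ e' := by
        rw [e1]
        exact (t.truncLEι n).naturality e
      rw [← Category.assoc, ih, Category.assoc, Category.assoc, e2]
  have hT : Triangle.mk ((t.truncLEι n).app X) ((t.truncGEπ (n + 1)).app X)
    ((t.truncGEδLE n (n + 1) rfl).app X) ∈ distTriang T :=
    t.triangleLEGE_distinguished n (n + 1) rfl X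
  obtain ⟨ρ₀, hρ₀⟩ : ∃ ρ₀ : X ⟶ (t.truncLE n).obj X,
      (e' ^ k : End X) = ρ₀ ≫ (t.truncLEι n).app X :=
    Triangle.coyoneda_exact₂ _ hT _ (by
      change (e' ^ k : End X) ≫ (t.truncGEπ (n + 1)).app X = 0
      rw [hπ k, hg]
      exact comp_zero)
  have hun : IsUnit ((1 - u) ^ k : End ((t.truncLE n).obj X)) :=
    (IsNilpotent.isUnit_one_sub ⟨k, hu⟩).pow k
  have key : (t.truncLEι n).app X ≫ ρ₀ = ((1 - u) ^ k : End ((t.truncLE n).obj X)) := by
    apply t.to_truncLE_obj_ext
    have h3 := hι k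
    rw [hρ₀] at h3
    rw [Category.assoc]
    exact h3
  obtain ⟨w', hw'⟩ := hun.exists_left_inv
  have hww : (((1 - u) ^ k : End ((t.truncLE n).obj X)) ≫ w') = 𝟙 _ := hw'
  refine ⟨ρ₀ ≫ w', ?_⟩
  rw [← Category.assoc, key]
  exact hww

end

end Pool.Agent.W492.PC
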