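import Pool.Agent.W492.PC.Fwd

/-!
# Objects all of whose truncation triangles split
-/

set_option linter.unusedSectionVars false
set_option linter.style.haveILetI false

open CategoryTheory Limits MonoidalCategory Triangulated Pretriangulated ZeroObject

namespace Pool.Agent.W492.PC

open Pool.Agent.W492.MT (tpow ins symm tr IsSum)

open Pool.Agent.W492.TS

universe v u v' u' w

section
variable {T : Type u} [Category.{v} T] [HasZeroObject T] [HasShift T ℤ] [Preadditive T]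
  [∀ n : ℤ, (shiftFunctor T n).Additive] [Pretriangulated T] [IsTriangulated T]

/-- all the truncation triangles of `X` split. -/
def Spl (t : TStructure T) (X : T) : Prop :=
  ∀ n : ℤ, ∃ ρ : X ⟶ (t.truncLE n).obj X, (t.truncLEι n).app X ≫ ρ = 𝟙 _

variable {t : TStructure T}

theorem Spl.retract {X Y : T} (r : Retract X Y) (h : Spl t Y) : Spl t X := by
  intro n
  obtain ⟨ρ, hρ⟩ := h n
  refine ⟨r.i ≫ ρ ≫ (t.truncLE n).map r.r, ?_⟩
  have h1 : (t.truncLEι n).app X ≫ r.i = (t.truncLE n).map r.i ≫ (t.truncLEι n).app Y :=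
    ((t.truncLEι n).naturality r.i).symm
  rw [reassoc_of% h1, reassoc_of% hρ, ← Functor.map_comp, r.retract,
    CategoryTheory.Functor.map_id]

theorem Spl.of_deg {X : T} {d : ℤ} (h1 : t.IsLE X d) (h2 : t.IsGE X d) : Spl t X := by
  intro n
  by_cases hn : d ≤ n
  · haveI : t.IsLE X n := t.isLE_of_le X d n hn
    exact ⟨inv ((t.truncLEι n).app X), IsIso.hom_inv_id _⟩
  · haveI : t.IsGE X (n + 1) := t.isGE_of_ge X (n + 1) d (by omega)
    exact ⟨0, (t.isZero_truncLE_obj_of_isGE n (n + 1) rfl X).eq_of_src _ _⟩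

theorem Spl.biprod {X Y : T} (hX : Spl t X) (hY : Spl t Y) : Spl t (X ⊞ Y) := by
  intro n
  obtain ⟨ρ, hρ⟩ := hX n
  obtain ⟨σ, hσ⟩ := hY n
  refine ⟨biprod.fst ≫ ρ ≫ (t.truncLE n).map biprod.inl +
    biprod.snd ≫ σ ≫ (t.truncLE n).map biprod.inr, ?_⟩
  have h1 : (t.truncLEι n).app (X ⊞ Y) ≫ biprod.fst =
      (t.truncLE n).map biprod.fst ≫ (t.truncLEι n).app X :=
    ((t.truncLEι n).naturality biprod.fst).symm
  have h2 : (t.truncLEι n).app (X ⊞ Y) ≫ biprod.snd =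
      (t.truncLE n).map biprod.snd ≫ (t.truncLEι n).app Y :=
    ((t.truncLEι n).naturality biprod.snd).symm
  rw [Preadditive.comp_add, reassoc_of% h1, reassoc_of% h2, reassoc_of% hρ, reassoc_of% hσ,
    ← Functor.map_comp, ← Functor.map_comp, ← Functor.map_add, biprod.total,
    CategoryTheory.Functor.map_id]

theorem exists_iso_biprod {A B C : T} {f : A ⟶ B} {g : B ⟶ C} {h : C ⟶ A⟦(1 : ℤ)⟧}
    (hT : Triangle.mk f g h ∈ distTriang T) (ρ : B ⟶ A) (hρ : f ≫ ρ = 𝟙 A) :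
    Nonempty (B ≅ A ⊞ C) := by
  have h0 : h = 0 := by
    have h1 : h ≫ f⟦(1 : ℤ)⟧' = 0 := comp_distTriang_mor_zero₃₁ _ hT
    have h2 : f⟦(1 : ℤ)⟧' ≫ ρ⟦(1 : ℤ)⟧' = 𝟙 _ := by
      rw [← Functor.map_comp, hρ, CategoryTheory.Functor.map_id]
    rw [← Category.comp_id h, ← h2, ← Category.assoc, h1, zero_comp]
  obtain ⟨e, -⟩ := exists_iso_binaryBiproduct_of_distTriang _ hT h0
  exact ⟨e⟩

theorem Spl.exists_biprod {X : T} (hX : Spl t X) (n : ℤ) :
    Nonempty (X ≅ (t.truncLE n).obj X ⊞ (t.truncGT n).obj X) := by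
  obtain ⟨ρ, hρ⟩ := hX n
  have hT : Triangle.mk ((t.truncLEι n).app X) ((t.truncGTπ n).app X) ((t.truncGTδLE n).app X) ∈
    distTriang T := t.triangleLEGT_distinguished n X
  exact exists_iso_biprod hT ρ hρ

variable {I : Type w} {D : I → Type u'} [∀ i, Category.{v'} (D i)] [∀ i, HasZeroObject (D i)]
  [∀ i, HasShift (D i) ℤ] [∀ i, Preadditive (D i)]
  [∀ i, ∀ n : ℤ, (shiftFunctor (D i) n).Additive] [∀ i, Pretriangulated (D i)]
  [∀ i, IsTriangulated (D i)]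
  {R : ∀ i, T ⥤ D i} [∀ i, (R i).CommShift ℤ] [∀ i, (R i).IsTriangulated]
  {s : ∀ i, TStructure (D i)} {𝒞 : ObjectProperty T}

theorem isSum_of_spl (hret : ∀ X Y, 𝒞 Y → Nonempty (Retract X Y) → 𝒞 X)
    (hex : ∀ i, TExact t (s i) (R i)) (k : ℕ) (a : ℤ) {X : T} (hX : 𝒞 X) (hs : Spl t X)
    (h1 : t.IsGE X a) (h2 : t.IsLE X (a + k - 1)) :
    ∃ n, IsSum (fun Y => ∃ d, PureAt R s 𝒞 d Y) n X := by
  induction k generalizing X a with
  | zero => exact ⟨0, t.isZero X (a + (0 : ℕ) - 1) a (by push_cast; omega)⟩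
  | succ k ih =>
    obtain ⟨e⟩ := hs.exists_biprod a
    have r1 : Retract ((t.truncLE a).obj X) X :=
      (⟨biprod.inl, biprod.fst, biprod.inl_fst⟩ : Retract _ (_ ⊞ (t.truncGT a).obj X)).trans
        (Retract.ofIso e.symm)
    have r2 : Retract ((t.truncGT a).obj X) X :=
      (⟨biprod.inr, biprod.snd, biprod.inr_snd⟩ : Retract _ ((t.truncLE a).obj X ⊞ _)).trans
        (Retract.ofIso e.symm)
    have h3 : t.IsGE ((t.truncLE a).obj X) a := inferInstance
    have h4 : t.IsLE ((t.truncLE a).obj X) a := inferInstance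
    have h5 : t.IsGE ((t.truncGT a).obj X) (a + 1) := inferInstance
    have h6 : t.IsLE ((t.truncGT a).obj X) (a + 1 + k - 1) := by
      have h7 : a + 1 + (k : ℤ) - 1 = a + ((k + 1 : ℕ) : ℤ) - 1 := by push_cast; ring
      rw [h7]
      infer_instance
    obtain ⟨n, hn⟩ := ih (a + 1) (hret _ _ hX ⟨r2⟩) (hs.retract r2) h5 h6
    exact ⟨n + 1, _, _, ⟨a, hret _ _ hX ⟨r1⟩, fun i => (hex i a _).1 h4.le,
      fun i => (hex i a _).2 h3.ge⟩, hn, ⟨e⟩⟩

end

end Pool.Agent.W492.PC
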