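import Pool.Agent.W492.PC.Trace

/-!
# The t-structure from a semisimple system of pure objects
-/

set_option linter.unusedSectionVars false
set_option linter.style.haveILetI false

open CategoryTheory Limits MonoidalCategory Triangulated Pretriangulated ZeroObject

namespace Pool.Agent.W492.PC

open Pool.Agent.W492.MT (tpow ins symm tr IsSum)

open Pool.Agent.W492.TS

universe v u v' u' w

variable {T : Type u} [Category.{v} T] [HasZeroObject T] [HasShift T ℤ] [Preadditive T]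
  [∀ n : ℤ, (shiftFunctor T n).Additive] [Pretriangulated T] [IsTriangulated T]

/-- the objects `X` such that `X⟦n⟧` is pure. -/
def PureDeg (𝒲 : ℤ → ObjectProperty T) (n : ℤ) : ObjectProperty T := fun X => ∃ w, 𝒲 w (X⟦n⟧)

/-- `X⟦a⟧⟦b⟧ ≅ X⟦c⟧` for `a + b = c`. -/
noncomputable def shiftIso (X : T) (a b c : ℤ) (h : a + b = c) : X⟦a⟧⟦b⟧ ≅ X⟦c⟧ :=
  (shiftFunctorAdd' T a b c h).symm.app X

theorem exists_unshift {X Y : T} (n : ℤ) (u : X⟦n⟧ ⟶ Y⟦n⟧) :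
    ∃ v : X ⟶ Y, (shiftFunctor T n).map v = u := (shiftFunctor T n).map_surjective u

theorem octa {X Y Z A B C : T} {f : X ⟶ Y} {g : Y ⟶ Z} {v : Y ⟶ A} {w : A ⟶ X⟦(1 : ℤ)⟧}
    {v' : Z ⟶ B} {w' : B ⟶ Y⟦(1 : ℤ)⟧} {v'' : Z ⟶ C} {w'' : C ⟶ X⟦(1 : ℤ)⟧}
    (hA : Triangle.mk f v w ∈ distTriang T) (hB : Triangle.mk g v' w' ∈ distTriang T)
    (hC : Triangle.mk (f ≫ g) v'' w'' ∈ distTriang T) :
    ∃ (a : A ⟶ C) (b : C ⟶ B) (c : B ⟶ A⟦(1 : ℤ)⟧), Triangle.mk a b c ∈ distTriang T ∧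
      v'' ≫ b = v' := by
  have oct := someOctahedron rfl hA hB hC
  exact ⟨oct.m₁, oct.m₃, _, oct.mem, oct.comm₃⟩

/-- splitting off the kernel of a morphism with a quasi-inverse. -/
theorem swap_aux [IsIdempotentComplete T] {X M Y : T} {f : X ⟶ M} {g : M ⟶ Y}
    {h : Y ⟶ X⟦(1 : ℤ)⟧} (hT : Triangle.mk f g h ∈ distTriang T) (u : X⟦(1 : ℤ)⟧ ⟶ Y)
    (hu : h ≫ u ≫ h = h) :
    ∃ (P Q : T) (p : P ⟶ M) (q : M ⟶ Q) (r : Q ⟶ P⟦(1 : ℤ)⟧),
      Triangle.mk p q r ∈ distTriang T ∧ Nonempty (Retract P Y) ∧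
        Nonempty (Retract (Q⟦(1 : ℤ)⟧) (X⟦(1 : ℤ)⟧)) ∧ ∃ ρ : M ⟶ P, p ≫ ρ = 𝟙 P := by
  have he : (𝟙 Y - h ≫ u) ≫ (𝟙 Y - h ≫ u) = 𝟙 Y - h ≫ u := by
    have h1 : (h ≫ u) ≫ (h ≫ u) = h ≫ u := by
      rw [← Category.assoc, Category.assoc h u h, hu]
    rw [Preadditive.sub_comp, Preadditive.comp_sub, Category.id_comp, Preadditive.comp_sub, h1,
      Category.comp_id, sub_self, sub_zero, Category.id_comp]
  obtain ⟨K, j, p, hjp, hpj⟩ := IsIdempotentComplete.idempotents_split Y _ he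
  have hjh : j ≫ h = 0 := by
    have h1 : p ≫ j ≫ h = 0 := by
      rw [← Category.assoc, hpj, Preadditive.sub_comp, Category.id_comp, Category.assoc, hu,
        sub_self]
    rw [← Category.id_comp (j ≫ h), ← hjp, Category.assoc, h1, comp_zero]
  obtain ⟨j', rfl⟩ : ∃ j' : K ⟶ M, j = j' ≫ g := Triangle.coyoneda_exact₃ _ hT j hjh
  obtain ⟨Q, q, r, hQ⟩ := distinguished_cocone_triangle j'
  obtain ⟨E, a, b, hE⟩ := distinguished_cocone_triangle (j' ≫ g)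
  have hR : Triangle.mk g h (-(f⟦(1 : ℤ)⟧')) ∈ distTriang T := rot_of_distTriang _ hT
  obtain ⟨m₁, m₃, c, hO, hm⟩ := octa hQ hR hE
  obtain ⟨σ, hσ⟩ := exists_section_of_retraction hE p hjp
  have hja : (j' ≫ g) ≫ a = 0 := comp_distTriang_mor_zero₁₂ _ hE
  have hr : m₃ ≫ (u ≫ a) = 𝟙 E := by
    have h1 : m₃ = σ ≫ h := by
      rw [← hm, ← Category.assoc, hσ, Category.id_comp]
    have h2 : (h ≫ u) ≫ a = a := by
      have h3 : h ≫ u = 𝟙 Y - p ≫ (j' ≫ g) := by rw [hpj]; abel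
      rw [h3, Preadditive.sub_comp, Category.id_comp, Category.assoc, hja, comp_zero, sub_zero]
    rw [h1, Category.assoc, ← Category.assoc h u a, h2, hσ]
  obtain ⟨τ, hτ⟩ := exists_section_of_retraction (rot_of_distTriang _ hO) (u ≫ a) hr
  exact ⟨K, Q, j', q, r, hQ, ⟨⟨j' ≫ g, p, hjp⟩⟩, ⟨⟨τ, _, hτ⟩⟩, ⟨g ≫ p, by
    rw [← Category.assoc, hjp]⟩⟩

variable {𝒲 : ℤ → ObjectProperty T}

/-- closure under direct summands. -/
def RetractClosed (𝒲 : ℤ → ObjectProperty T) : Prop :=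
  ∀ (w : ℤ) (X Y : T), 𝒲 w Y → Nonempty (Retract X Y) → 𝒲 w X

/-- pure objects form a semisimple category : every morphism has a quasi-inverse. -/
def Semisimple (𝒲 : ℤ → ObjectProperty T) : Prop :=
  ∀ (v w : ℤ) (X Y : T), 𝒲 v X → 𝒲 w Y → ∀ f : X ⟶ Y, ∃ h : Y ⟶ X, f ≫ h ≫ f = f

/-- there are no morphisms of negative degree between pure objects. -/
def NegVanishing (𝒲 : ℤ → ObjectProperty T) : Prop :=
  ∀ (v w : ℤ) (X Y : T), 𝒲 v X → 𝒲 w Y → ∀ m : ℤ, m < 0 → ∀ f : X ⟶ Y⟦m⟧, f = 0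

theorem PureDeg.retract (hret : RetractClosed 𝒲) {n : ℤ} {X Y : T} (hY : PureDeg 𝒲 n Y)
    (r : Nonempty (Retract X Y)) : PureDeg 𝒲 n X := by
  obtain ⟨w, hw⟩ := hY
  obtain ⟨r⟩ := r
  exact ⟨w, hret w _ _ hw ⟨r.map (shiftFunctor T n)⟩⟩

theorem PureDeg.shift (hret : RetractClosed 𝒲) {n a n' : ℤ} (h : a + n' = n) {X : T}
    (hX : PureDeg 𝒲 n X) : PureDeg 𝒲 n' (X⟦a⟧) := by
  obtain ⟨w, hw⟩ := hX
  exact ⟨w, hret w _ _ hw ⟨Retract.ofIso (shiftIso X a n' n h)⟩⟩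

theorem swap_pureDeg [IsIdempotentComplete T] (hret : RetractClosed 𝒲) (hss : Semisimple 𝒲)
    (hvan : NegVanishing 𝒲) : Swap (PureDeg 𝒲) := by
  intro n m hnm X M Y f g h hT hX hY
  obtain ⟨v, hv⟩ := hX
  obtain ⟨w, hw⟩ := hY
  obtain ⟨u, hu⟩ : ∃ u : X⟦(1 : ℤ)⟧ ⟶ Y, h ≫ u ≫ h = h := by
    let φ : X⟦(1 : ℤ)⟧⟦n⟧ ≅ X⟦1 + n⟧ := shiftIso X 1 n (1 + n) rfl
    by_cases hm : 1 + n = m
    · subst hm
      obtain ⟨k, hk⟩ := hss w v _ _ hw hv (h⟦n⟧' ≫ φ.hom)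
      obtain ⟨u, hu⟩ := exists_unshift n (φ.hom ≫ k)
      refine ⟨u, ?_⟩
      apply (shiftFunctor T n).map_injective
      rw [Functor.map_comp, Functor.map_comp, hu, ← cancel_mono φ.hom]
      simpa only [Category.assoc] using hk
    · refine ⟨0, ?_⟩
      have h0 : h = 0 := by
        let ψ : X⟦(1 : ℤ)⟧⟦n⟧ ≅ X⟦m⟧⟦1 + n - m⟧ :=
          φ ≪≫ (shiftIso X m (1 + n - m) (1 + n) (by ring)).symm
        have h1 := hvan w v _ _ hw hv (1 + n - m) (by omega) (h⟦n⟧' ≫ ψ.hom)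
        apply (shiftFunctor T n).map_injective
        rw [Functor.map_zero, ← cancel_mono ψ.hom, h1, zero_comp]
      rw [h0, zero_comp]
  obtain ⟨P, Q, p, q, r, hT', hP, hQ, -⟩ := swap_aux hT u hu
  refine ⟨P, Q, p, q, r, hT', PureDeg.retract hret ⟨w, hw⟩ hP, ?_⟩
  have h1 : PureDeg 𝒲 (m - 1) (X⟦(1 : ℤ)⟧) :=
    PureDeg.shift hret (n := m) (by ring) ⟨v, hv⟩
  have h2 : PureDeg 𝒲 (m - 1) (Q⟦(1 : ℤ)⟧) := PureDeg.retract hret h1 hQ
  have h3 : PureDeg 𝒲 m (Q⟦(1 : ℤ)⟧⟦(-1 : ℤ)⟧) := PureDeg.shift hret (by ring) h2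
  exact PureDeg.retract hret h3 ⟨Retract.ofIso ((shiftEquiv T (1 : ℤ)).unitIso.app Q)⟩

theorem filtPure_shift (hret : RetractClosed 𝒲) {l : List ℤ} {M : T}
    (hM : Filt (PureDeg 𝒲) l M) (a : ℤ) : Filt (PureDeg 𝒲) (l.map (· - a)) (M⟦a⟧) := by
  induction l generalizing M with
  | nil => exact (shiftFunctor T a).map_isZero hM
  | cons n l ih =>
    obtain ⟨X, M', f, g, h, hT, hX, hM'⟩ := hM
    exact ⟨X⟦a⟧, M'⟦a⟧, _, _, _, Triangle.shift_distinguished _ hT a,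
      PureDeg.shift hret (by ring) hX, ih hM'⟩

theorem exists_filt (hret : RetractClosed 𝒲) (hgen : Generated fun X : T => ∃ w, 𝒲 w X) (M : T) :
    ∃ l, Filt (PureDeg 𝒲) l M := by
  let P : ObjectProperty T := fun M => ∃ l, Filt (PureDeg 𝒲) l M
  haveI h0 : P.IsClosedUnderIsomorphisms := ⟨fun e ⟨l, hl⟩ => ⟨l, hl.of_iso e⟩⟩
  haveI h1 : P.ContainsZero := ⟨⟨0, isZero_zero T, ⟨[], isZero_zero T⟩⟩⟩
  haveI h2 : P.IsStableUnderShift ℤ := ⟨fun a => ⟨fun X ⟨l, hl⟩ => ⟨_, filtPure_shift hret hl a⟩⟩⟩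
  haveI h3 : P.IsTriangulatedClosed₂ :=
    ObjectProperty.IsTriangulatedClosed₂.mk' fun t ht ⟨l, hl⟩ ⟨l', hl'⟩ =>
      ⟨l ++ l', Filt.concat ht hl hl'⟩
  refine hgen P h0 {} ?_ M
  rintro X ⟨w, hw⟩
  refine ⟨[0], X, 0, 𝟙 X, 0, 0, contractible_distinguished X, ⟨w, ?_⟩, isZero_zero T⟩
  exact hret w _ _ hw ⟨Retract.ofIso ((shiftFunctorZero T ℤ).app X)⟩

section
variable {I : Type w} {D : I → Type u'} [∀ i, Category.{v'} (D i)] [∀ i, HasZeroObject (D i)]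
  [∀ i, HasShift (D i) ℤ] [∀ i, Preadditive (D i)]
  [∀ i, ∀ n : ℤ, (shiftFunctor (D i) n).Additive] [∀ i, Pretriangulated (D i)]
  [∀ i, IsTriangulated (D i)]
  {R : ∀ i, T ⥤ D i} [∀ i, (R i).CommShift ℤ] [∀ i, (R i).IsTriangulated]
  {s : ∀ i, TStructure (D i)}

theorem PureDeg.rdeg (hdeg : ∀ w X, 𝒲 w X → RDeg R s 0 X) {n : ℤ} {X : T}
    (hX : PureDeg 𝒲 n X) : RDeg R s n X := by
  obtain ⟨w, hw⟩ := hX
  have h1 : RDeg R s n (X⟦n⟧⟦-n⟧) := (hdeg w _ hw).shift (by ring)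
  exact ⟨RLE.of_iso ((shiftEquiv T n).unitIso.symm.app X) h1.1,
    RGE.of_iso ((shiftEquiv T n).unitIso.symm.app X) h1.2⟩

theorem isZero_of_filt (hdeg : ∀ w X, 𝒲 w X → RDeg R s 0 X)
    (hzero : ∀ w X, 𝒲 w X → (∀ i, IsZero ((R i).obj X)) → IsZero X) {l : List ℤ}
    (hl : l.Pairwise (· ≤ ·)) {M : T} (hM : Filt (PureDeg 𝒲) l M)
    (hR : ∀ i, IsZero ((R i).obj M)) : IsZero M := by
  induction l generalizing M with
  | nil => exact hM
  | cons n l ih =>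
    obtain ⟨X, M', f, g, h, hT, hX, hM'⟩ := hM
    rw [List.pairwise_cons] at hl
    have hM'n : RGE R s n M' := by
      refine Filt.of_forall (P := RGE R s n) ?_ ?_ ?_ hM'
      · intro Y hY i
        exact ((s i).isGE_of_isZero ((R i).map_isZero hY) n).ge
      · intro X Y Z f g h hT hX hZ
        exact RGE.obj₂ hT hX hZ
      · intro k hk Y hY
        exact (PureDeg.rdeg hdeg hY).2.anti (hl.1 k hk)
    have hXd := PureDeg.rdeg (R := R) (s := s) hdeg hX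
    have hMz : ∀ k, RLE R s k M := fun k i => ((s i).isLE_of_isZero (hR i) k).le
    have hMz' : ∀ k, RGE R s k M := fun k i => ((s i).isGE_of_isZero (hR i) k).ge
    have hM'1 : RLE R s (n - 1) M' := RLE.obj₃ hT (hXd.1.mono (by omega)) (hMz _)
    have hM'0 : ∀ i, IsZero ((R i).obj M') := fun i => by
      have h1 : (s i).IsLE ((R i).obj M') (n - 1) := ⟨hM'1 i⟩
      have h2 : (s i).IsGE ((R i).obj M') n := ⟨hM'n i⟩
      exact (s i).isZero _ (n - 1) n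
    have hz := ih hl.2 hM' hM'0
    have hiso : IsIso f := (Triangle.isZero₃_iff_isIso₁ _ hT).1 hz
    have hXz : IsZero X := by
      obtain ⟨w, hw⟩ := hX
      have h1 : ∀ i, IsZero ((R i).obj (X⟦n⟧)) := fun i => by
        have h2 : IsZero ((R i).obj X) :=
          (hR i).of_iso ((R i).mapIso (@asIso _ _ _ _ f hiso))
        exact ((shiftFunctor (D i) n).map_isZero h2).of_iso (((R i).commShiftIso n).app X)
      have h3 := hzero w _ hw h1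
      exact ((shiftFunctor T (-n)).map_isZero h3).of_iso ((shiftEquiv T n).unitIso.app X)
    exact hXz.of_iso (@asIso _ _ _ _ f hiso).symm

theorem lifts_and_cons [IsIdempotentComplete T] (hret : RetractClosed 𝒲)
    (hdeg : ∀ w X, 𝒲 w X → RDeg R s 0 X) (hgen : Generated fun X : T => ∃ w, 𝒲 w X)
    (hzero : ∀ w X, 𝒲 w X → (∀ i, IsZero ((R i).obj X)) → IsZero X)
    (hss : Semisimple 𝒲) (hvan : NegVanishing 𝒲) :
    JointlyConservative R ∧ ∀ M : T, LiftsAt R s 0 M := by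
  have hsorted : ∀ M : T, ∃ l : List ℤ, l.Pairwise (· ≤ ·) ∧ Filt (PureDeg 𝒲) l M := by
    intro M
    obtain ⟨l, hl⟩ := exists_filt hret hgen M
    exact ⟨_, List.pairwise_insertionSort _ _, Filt.sort (swap_pureDeg hret hss hvan) l hl⟩
  constructor
  · intro X Y f hf
    obtain ⟨Z, g, h, hT⟩ := distinguished_cocone_triangle f
    obtain ⟨l, hl, hZ⟩ := hsorted Z
    refine (Triangle.isZero₃_iff_isIso₁ _ hT).1 (isZero_of_filt hdeg hzero hl hZ fun i => ?_)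
    exact (Triangle.isZero₃_iff_isIso₁ _ ((R i).map_distinguished _ hT)).2 (hf i)
  · intro M
    obtain ⟨l, hl, hM⟩ := hsorted M
    obtain ⟨a, b, hab, ha, hb⟩ := exists_split_sorted 0 l hl
    rw [hab] at hM
    obtain ⟨X, Z, f, g, h, hT, hX, hZ⟩ := hM.split
    refine ⟨X, Z, f, g, h, hT, ?_, ?_⟩
    · refine Filt.of_forall ?_ ?_ ?_ hX
      · intro Y hY i
        exact ((s i).isLE_of_isZero ((R i).map_isZero hY) 0).le
      · intro X Y Z f g h hT hX hZ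
        exact RLE.obj₂ hT hX hZ
      · intro n hn Y hY
        exact (PureDeg.rdeg hdeg hY).1.mono (ha n hn)
    · refine Filt.of_forall ?_ ?_ ?_ hZ
      · intro Y hY i
        exact ((s i).isGE_of_isZero ((R i).map_isZero hY) (0 + 1)).ge
      · intro X Y Z f g h hT hX hZ
        exact RGE.obj₂ hT hX hZ
      · intro n hn Y hY
        exact (PureDeg.rdeg hdeg hY).2.anti (hb n hn)

end

end Pool.Agent.W492.PC
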