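import Pool.Agent.W492.TS.Final
import Pool.Agent.W492.MT.Defs

/-!
# Symmetric powers and tensor nilpotence of extension classes
-/

set_option linter.unusedSectionVars false
set_option linter.style.haveILetI false

open CategoryTheory Limits MonoidalCategory

namespace Pool.Agent.W492.PC

open Pool.Agent.W492.MT (tpow ins symm tr IsSum)

universe v u v' u'

section
variable {T : Type u} [Category.{v} T] [MonoidalCategory T]

/-- `d ⊗ ⋯ ⊗ d : 𝟙 ⟶ X ⊗ ⋯ ⊗ X`. -/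
def dpow {X : T} (d : 𝟙_ T ⟶ X) : ∀ n : ℕ, 𝟙_ T ⟶ tpow X n
  | 0 => 𝟙 _
  | n + 1 => (λ_ (𝟙_ T)).inv ≫ (d ⊗ₘ dpow d n)

end

section
variable {T : Type u} [Category.{v} T] [MonoidalCategory T] [BraidedCategory T]

theorem braiding_unit_unit : (β_ (𝟙_ T) (𝟙_ T)).hom = 𝟙 _ := by
  rw [braiding_tensorUnit_left, unitors_equal]
  simp

theorem dpow_swap {X Y : T} (d : 𝟙_ T ⟶ X) (e : 𝟙_ T ⟶ Y) :
    ((λ_ (𝟙_ T)).inv ≫ (d ⊗ₘ ((λ_ (𝟙_ T)).inv ≫ (d ⊗ₘ e)))) ≫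
      ((α_ X X Y).inv ≫ (β_ X X).hom ▷ Y ≫ (α_ X X Y).hom) =
      (λ_ (𝟙_ T)).inv ≫ (d ⊗ₘ ((λ_ (𝟙_ T)).inv ≫ (d ⊗ₘ e))) := by
  have h1 : (d ⊗ₘ ((λ_ (𝟙_ T)).inv ≫ (d ⊗ₘ e))) =
      (𝟙_ T ◁ (λ_ (𝟙_ T)).inv) ≫ (d ⊗ₘ (d ⊗ₘ e)) := by
    rw [← id_tensorHom, MonoidalCategory.tensorHom_comp_tensorHom, Category.id_comp]
  have h2 : (d ⊗ₘ (d ⊗ₘ e)) ≫ (α_ X X Y).inv ≫ (β_ X X).hom ▷ Y ≫ (α_ X X Y).hom =
      (α_ (𝟙_ T) (𝟙_ T) (𝟙_ T)).inv ≫ (α_ (𝟙_ T) (𝟙_ T) (𝟙_ T)).hom ≫ (d ⊗ₘ (d ⊗ₘ e)) := by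
    have h3 : ((d ⊗ₘ d) ⊗ₘ e) ≫ ((β_ X X).hom ▷ Y) = ((d ⊗ₘ d) ⊗ₘ e) := by
      rw [← tensorHom_id, MonoidalCategory.tensorHom_comp_tensorHom,
        BraidedCategory.braiding_naturality, braiding_unit_unit]
      simp
    rw [associator_inv_naturality_assoc]
    slice_lhs 2 3 => rw [h3]
    rw [associator_naturality]
  rw [h1]
  simp only [Category.assoc]
  rw [h2]
  simp

end

section
variable {T : Type u} [Category.{v} T] [MonoidalCategory T] [Preadditive T]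
  [MonoidalPreadditive T]

theorem whisker_nsmul (X : T) {A B : T} (k : ℕ) (f : A ⟶ B) :
    X ◁ (k • f) = k • (X ◁ f) := (tensorLeft X).map_nsmul

theorem tensor_step {X A B : T} (d : 𝟙_ T ⟶ X) (e : 𝟙_ T ⟶ A) (I : A ⟶ B) (e' : 𝟙_ T ⟶ B)
    (k : ℕ) (h : e ≫ I = k • e') :
    ((λ_ (𝟙_ T)).inv ≫ (d ⊗ₘ e)) ≫ (X ◁ I) = k • ((λ_ (𝟙_ T)).inv ≫ (d ⊗ₘ e')) := by
  rw [Category.assoc, ← id_tensorHom, MonoidalCategory.tensorHom_comp_tensorHom, h,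
    Category.comp_id, MonoidalCategory.tensorHom_def, whisker_nsmul,
    MonoidalCategory.tensorHom_def, Preadditive.comp_nsmul, Preadditive.comp_nsmul]

variable [SymmetricCategory T]

theorem ins_step {X A : T} (d : 𝟙_ T ⟶ X) (e : 𝟙_ T ⟶ A) (I : X ⊗ A ⟶ X ⊗ A) (k : ℕ)
    (h : ((λ_ (𝟙_ T)).inv ≫ (d ⊗ₘ e)) ≫ I = k • ((λ_ (𝟙_ T)).inv ≫ (d ⊗ₘ e))) :
    ((λ_ (𝟙_ T)).inv ≫ (d ⊗ₘ ((λ_ (𝟙_ T)).inv ≫ (d ⊗ₘ e)))) ≫
      (𝟙 _ + ((α_ X X A).inv ≫ (β_ X X).hom ▷ A ≫ (α_ X X A).hom) ≫ (X ◁ I)) =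
    (k + 1) • ((λ_ (𝟙_ T)).inv ≫ (d ⊗ₘ ((λ_ (𝟙_ T)).inv ≫ (d ⊗ₘ e)))) := by
  rw [Preadditive.comp_add, Category.comp_id, ← Category.assoc _ _ (X ◁ I), dpow_swap,
    tensor_step d _ I _ k h, add_comm, add_smul, one_smul]

theorem dpow_ins {X : T} (d : 𝟙_ T ⟶ X) (n : ℕ) :
    ((λ_ (𝟙_ T)).inv ≫ (d ⊗ₘ dpow d n)) ≫ ins X n =
      (n + 1) • ((λ_ (𝟙_ T)).inv ≫ (d ⊗ₘ dpow d n)) := by
  induction n with
  | zero =>
    rw [zero_add, one_smul]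
    exact Category.comp_id _
  | succ n ih => exact ins_step d (dpow d n) (ins X n) (n + 1) ih

theorem dpow_symm {X : T} (d : 𝟙_ T ⟶ X) (n : ℕ) :
    dpow d n ≫ symm X n = n.factorial • dpow d n := by
  induction n with
  | zero =>
    rw [Nat.factorial_zero, one_smul]
    exact Category.comp_id _
  | succ n ih =>
    have h2 := tensor_step d (dpow d n) (symm X n) (dpow d n) _ ih
    have h3 := dpow_ins d n
    have h4 : ((λ_ (𝟙_ T)).inv ≫ (d ⊗ₘ dpow d n)) ≫ ((X ◁ symm X n) ≫ ins X n) =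
        (n + 1).factorial • ((λ_ (𝟙_ T)).inv ≫ (d ⊗ₘ dpow d n)) := by
      rw [← Category.assoc, h2, Preadditive.nsmul_comp, h3, smul_smul, Nat.factorial_succ,
        mul_comm]
    exact h4

theorem isIso_nsmul (F : Type*) [Field F] [CharZero F] [Linear F T] (X : T) {n : ℕ}
    (hn : n ≠ 0) : IsIso (n • 𝟙 X) := by
  refine ⟨((n : F)⁻¹) • 𝟙 X, ?_, ?_⟩
  · rw [← Nat.cast_smul_eq_nsmul F, Linear.smul_comp, Linear.comp_smul, Category.id_comp,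
      smul_smul, mul_inv_cancel₀ (by exact_mod_cast hn), one_smul]
  · rw [← Nat.cast_smul_eq_nsmul F, Linear.smul_comp, Linear.comp_smul, Category.id_comp,
      smul_smul, inv_mul_cancel₀ (by exact_mod_cast hn), one_smul]

/-- If a conservative functor kills the `n`-th symmetric power of `X`, then the `n`-th tensor
power of every `d : 𝟙 ⟶ X` vanishes. -/
theorem dpow_eq_zero (F : Type*) [Field F] [CharZero F] [Linear F T] {D : Type u'}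
    [Category.{v'} D] [Preadditive D] (R : T ⥤ D) [R.Additive] [R.ReflectsIsomorphisms] {X : T}
    (d : 𝟙_ T ⟶ X) (n : ℕ) (h : R.map (symm X n) = 0) : dpow d n = 0 := by
  have h1 : IsIso (R.map (n.factorial • 𝟙 (tpow X n) - symm X n)) := by
    rw [R.map_sub, h, sub_zero]
    haveI := isIso_nsmul F (tpow X n) n.factorial_ne_zero
    infer_instance
  have h2 : IsIso (n.factorial • 𝟙 (tpow X n) - symm X n) := isIso_of_reflects_iso _ R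
  rw [← cancel_mono (n.factorial • 𝟙 (tpow X n) - symm X n), zero_comp, Preadditive.comp_sub,
    dpow_symm, Preadditive.comp_nsmul, Category.comp_id, sub_self]

end

end Pool.Agent.W492.PC
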