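import Pool.Agent.W492.PC.Nec

/-!
# Traces, and semisimplicity from non-degenerate traces
-/

set_option linter.unusedSectionVars false
set_option linter.style.haveILetI false

open CategoryTheory Limits MonoidalCategory

namespace Pool.Agent.W492.PC

open Pool.Agent.W492.MT (tpow ins symm tr IsSum)

universe v u

variable {T : Type u} [Category.{v} T] [MonoidalCategory T] [SymmetricCategory T]
  [RightRigidCategory T]

theorem comp_evaluation_injective [Preadditive T] [MonoidalPreadditive T] {X Y : T} (f : X ⟶ Y)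
    (h : (Yᘁ ◁ f) ≫ ε_ Y Yᘁ = 0) : f = 0 := by
  have h1 : (λ_ X).inv ≫ (η_ Y Yᘁ ▷ X) ≫ (α_ Y Yᘁ X).hom ≫ (Y ◁ ((Yᘁ ◁ f) ≫ ε_ Y Yᘁ)) ≫
      (ρ_ Y).hom = f := by
    have h2 : (η_ Y Yᘁ ▷ Y) ≫ (α_ Y Yᘁ Y).hom ≫ (Y ◁ ε_ Y Yᘁ) = (λ_ Y).hom ≫ (ρ_ Y).inv :=
      ExactPairing.evaluation_coevaluation (X := Y) (Y := Yᘁ)
    rw [MonoidalCategory.whiskerLeft_comp]
    simp only [Category.assoc]
    rw [← associator_naturality_right_assoc, ← whisker_exchange_assoc]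
    slice_lhs 3 5 => rw [h2]
    simp
  rw [← h1, h]
  simp

theorem exists_hom_of_hom {X Y : T} (x : 𝟙_ T ⟶ Yᘁ ⊗ X) :
    ∃ h : Y ⟶ X, x = η_ Y Yᘁ ≫ (h ▷ Yᘁ) ≫ (β_ X Yᘁ).hom := by
  refine ⟨(λ_ Y).inv ≫ (tensorRightHomEquiv (𝟙_ T) Y Yᘁ X).symm (x ≫ (β_ X Yᘁ).inv), ?_⟩
  set h' := (tensorRightHomEquiv (𝟙_ T) Y Yᘁ X).symm (x ≫ (β_ X Yᘁ).inv) with hh'
  have h1 : (tensorRightHomEquiv (𝟙_ T) Y Yᘁ X) h' = x ≫ (β_ X Yᘁ).inv := by
    rw [hh', Equiv.apply_symm_apply]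
  have h2 : (tensorRightHomEquiv (𝟙_ T) Y Yᘁ X) h' =
      (ρ_ (𝟙_ T)).inv ≫ (𝟙_ T ◁ η_ Y Yᘁ) ≫ (α_ (𝟙_ T) Y Yᘁ).inv ≫ (h' ▷ Yᘁ) := rfl
  have h3 : x = (tensorRightHomEquiv (𝟙_ T) Y Yᘁ X) h' ≫ (β_ X Yᘁ).hom := by
    rw [h1, Category.assoc, Iso.inv_hom_id, Category.comp_id]
  rw [h3, h2]
  have h4 : (ρ_ (𝟙_ T)).inv ≫ (𝟙_ T ◁ η_ Y Yᘁ) = η_ Y Yᘁ ≫ (λ_ _).inv := by
    rw [← unitors_inv_equal, leftUnitor_inv_naturality]
  rw [← Category.assoc (ρ_ (𝟙_ T)).inv, h4]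
  simp

theorem comp_eq_tr {X Y : T} (f : X ⟶ Y) (h : Y ⟶ X) :
    (η_ Y Yᘁ ≫ (h ▷ Yᘁ) ≫ (β_ X Yᘁ).hom) ≫ ((Yᘁ ◁ f) ≫ ε_ Y Yᘁ) = tr (h ≫ f) := by
  simp only [tr, Category.assoc, comp_whiskerRight]
  rw [← BraidedCategory.braiding_naturality_left_assoc]

variable [Preadditive T] [MonoidalPreadditive T]

theorem tr_add {X : T} (a b : X ⟶ X) : tr (a + b) = tr a + tr b := by
  simp [tr, MonoidalPreadditive.add_whiskerRight]

theorem tr_smul {F : Type*} [Field F] [Linear F T] [MonoidalLinear F T] {X : T} (r : F)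
    (a : X ⟶ X) : tr (r • a) = r • tr a := by
  simp [tr]

/-- `X` modulo numerical equivalence has finite rank: the trace pairing on `End X` has finite
rank. -/
def FinRank (X : T) : Prop :=
  ∃ (r : ℕ) (b : Fin r → (X ⟶ X)), ∀ a : X ⟶ X, (∀ j, tr (b j ≫ a) = 0) →
    ∀ c : X ⟶ X, tr (c ≫ a) = 0

theorem exists_quasi_inverse (F : Type*) [Field F] [Linear F T] [MonoidalLinear F T]
    (hone : ∀ e : 𝟙_ T ⟶ 𝟙_ T, ∃ a : F, e = a • 𝟙 _) {Z : T} (hfin : FinRank Z)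
    (hnil : ∀ c : End Z, IsNilpotent c → tr (X := Z) c = 0)
    (hnd : ∀ a : Z ⟶ Z, a ≠ 0 → ∃ h : Z ⟶ Z, tr (h ≫ a) ≠ 0) (f : Z ⟶ Z) :
    ∃ h : Z ⟶ Z, f ≫ h ≫ f = f := by
  haveI h1 : Module.Finite F (𝟙_ T ⟶ 𝟙_ T) := by
    refine Module.Finite.of_surjective (LinearMap.toSpanSingleton F (𝟙_ T ⟶ 𝟙_ T) (𝟙 _)) ?_
    intro e
    obtain ⟨a, ha⟩ := hone e
    exact ⟨a, by rw [ha]; rfl⟩
  obtain ⟨r, b, hb⟩ := hfin
  let L : End Z →ₗ[F] (Fin r → (𝟙_ T ⟶ 𝟙_ T)) :=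
    { toFun := fun a j => tr (b j ≫ (a : Z ⟶ Z))
      map_add' := fun a a' => by
        funext j
        change tr (b j ≫ ((a : Z ⟶ Z) + a')) = _
        rw [Preadditive.comp_add, tr_add]
        rfl
      map_smul' := fun c a => by
        funext j
        change tr (b j ≫ (c • (a : Z ⟶ Z))) = _
        rw [Linear.comp_smul, tr_smul]
        rfl }
  have hL : Function.Injective L := by
    rw [injective_iff_map_eq_zero]
    intro a ha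
    by_contra hne
    obtain ⟨h, hh⟩ := hnd a hne
    exact hh (hb a (fun j => congrFun ha j) h)
  haveI h2 : Module.Finite F (End Z) := Module.Finite.of_injective L hL
  haveI h3 : IsArtinianRing (End Z) := IsArtinianRing.of_finite F (End Z)
  have h4 : Ring.jacobson (End Z) = ⊥ := by
    rw [eq_bot_iff]
    intro a ha
    by_contra hne
    obtain ⟨h, hh⟩ := hnd a (fun h0 => hne (by rw [h0]; exact Submodule.zero_mem _))
    apply hh
    apply hnil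
    let h' : End Z := h
    have h5 : a * h' ∈ Ring.jacobson (End Z) := Ideal.mul_mem_right _ _ ha
    obtain ⟨n, hn⟩ := (IsSemiprimaryRing.isNilpotent : IsNilpotent (Ring.jacobson (End Z)))
    refine ⟨n, ?_⟩
    have h6 : (a * h') ^ n ∈ (Ring.jacobson (End Z)) ^ n := Ideal.pow_mem_pow h5 n
    rw [hn] at h6
    exact h6
  haveI h5 : IsSemisimpleRing (End Z) := IsArtinianRing.isSemisimpleRing_iff_jacobson.2 h4
  let f' : End Z := f
  obtain ⟨e, he, hI⟩ := IsSemisimpleRing.ideal_eq_span_idempotent (Ideal.span {f'})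
  have h6 : f' ∈ Ideal.span {e} := hI ▸ Ideal.mem_span_singleton_self _
  have h7 : e ∈ Ideal.span {f'} := hI ▸ Ideal.mem_span_singleton_self _
  obtain ⟨b', hb'⟩ := Ideal.mem_span_singleton'.1 h6
  obtain ⟨a', ha'⟩ := Ideal.mem_span_singleton'.1 h7
  refine ⟨a', ?_⟩
  have h8 : f' * (a' * f') = f' := by
    rw [ha', ← hb', mul_assoc, he.eq]
  have h9 : f' * (a' * f') = (f ≫ a') ≫ f := rfl
  rw [← Category.assoc, ← h9, h8]

end Pool.Agent.W492.PC
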